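import Pool.Agent.TH696.FA.OrthCount

/-!
# The rotation argument, for subsets of a class
-/

set_option autoImplicit false
open Finset

namespace Pool.Agent.R154.FT
open Pool.Agent.W65.FS Pool.Agent.TH696.FA

theorem engine (n D : ℕ) (h4 : 4 ∣ D) (u : Fin 4 → ℤ) (hu : GoodG n D u)
    (P Q N P' Q' N' : ℤ) (h1 : RotData D P Q N) (h2 : RotData D P' Q' N') (h12 : IsCoprime N N')
    (D' : ℕ) (hD' : (D' : ℤ) = D * N ^ 2 * N' ^ 2) :
    ∃ u' : Fin 4 → ℤ, GoodG n D' u' ∧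
      (∀ X ∈ repsc n D' u', N ^ 2 ∣ X 0 ∧ N ^ 2 ∣ X 1 ∧ N' ^ 2 ∣ X 2 ∧ N' ^ 2 ∣ X 3) ∧
      ∀ (G : (Fin 4 → ℤ) → Prop) [DecidablePred G] (S : Finset (Fin 4 → ℤ)), S ⊆ repsc n D' u' →
        (∀ X ∈ S, ∀ k, G (rotv P Q N P' Q' N' k X)) →
        S.card ≤ 25 * ((orth n D u).filter G).card := by
  classical
  have cDN : IsCoprime (D : ℤ) (N ^ 2) := h1.cD.pow_right
  have cDN' : IsCoprime (D : ℤ) (N' ^ 2) := h2.cD.pow_right
  have cNN' : IsCoprime (N ^ 2) (N' ^ 2) := h12.pow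
  obtain ⟨x, y, hxy, hxyp⟩ := two_sq P Q N n h1.sq h1.cQ.pow_right h1.c2.pow_right
  obtain ⟨x', y', hxy', hxyp'⟩ := two_sq P' Q' N' n h2.sq h2.cQ.pow_right h2.c2.pow_right
  obtain ⟨a0, ha0, hb0, hc0⟩ := crt3 _ _ _ cDN cDN' cNN' (u 0) 0 x'
  obtain ⟨a1, ha1, hb1, hc1⟩ := crt3 _ _ _ cDN cDN' cNN' (u 1) 0 y'
  obtain ⟨a2, ha2, hb2, hc2⟩ := crt3 _ _ _ cDN cDN' cNN' (u 2) x 0
  obtain ⟨a3, ha3, hb3, hc3⟩ := crt3 _ _ _ cDN cDN' cNN' (u 3) y 0
  rw [sub_zero] at hb0 hb1 hc2 hc3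
  set u' : Fin 4 → ℤ := ![a0, a1, a2, a3] with hu'
  have hDu' : ∀ i, (D : ℤ) ∣ u' i - u i := by
    intro i
    fin_cases i
    · exact ha0
    · exact ha1
    · exact ha2
    · exact ha3
  have hg : GoodG n D u' := goodG_congr n D h4 u u' (fun i => by
    rw [← neg_sub]; exact (hDu' i).neg_right) hu
  have hsum : (∑ i, u' i ^ 2) - (n : ℤ) = a0 ^ 2 + a1 ^ 2 + a2 ^ 2 + a3 ^ 2 - n := by
    rw [Fin.sum_univ_four]
    rfl
  have hsN : N ^ 2 ∣ (∑ i, u' i ^ 2) - (n : ℤ) := by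
    rw [hsum]
    have e : a0 ^ 2 + a1 ^ 2 + a2 ^ 2 + a3 ^ 2 - (n : ℤ) = a0 * a0 + a1 * a1 + (a2 - x) * (a2 + x) +
      (a3 - y) * (a3 + y) + (x ^ 2 + y ^ 2 - n) := by ring
    rw [e]
    exact dvd_add (dvd_add (dvd_add (dvd_add (hb0.mul_right _) (hb1.mul_right _)) (hb2.mul_right _))
      (hb3.mul_right _)) hxy
  have hsN' : N' ^ 2 ∣ (∑ i, u' i ^ 2) - (n : ℤ) := by
    rw [hsum]
    have e : a0 ^ 2 + a1 ^ 2 + a2 ^ 2 + a3 ^ 2 - (n : ℤ) = (a0 - x') * (a0 + x') + (a1 - y') * (a1 + y') + a2 * a2 +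
      a3 * a3 + (x' ^ 2 + y' ^ 2 - n) := by ring
    rw [e]
    exact dvd_add (dvd_add (dvd_add (dvd_add (hc0.mul_right _) (hc1.mul_right _)) (hc2.mul_right _))
      (hc3.mul_right _)) hxy'
  have hgood' : GoodG n D' u' := by
    refine ⟨?_, ?_⟩
    · rw [hD']
      have e : (2 : ℤ) * (D * N ^ 2 * N' ^ 2) = 2 * D * N ^ 2 * N' ^ 2 := by ring
      rw [e]
      have c1 : IsCoprime (2 * (D : ℤ)) (N ^ 2) := IsCoprime.mul_left h1.c2.pow_right cDN
      have c2 : IsCoprime (2 * (D : ℤ)) (N' ^ 2) := IsCoprime.mul_left h2.c2.pow_right cDN'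
      exact IsCoprime.mul_dvd (IsCoprime.mul_left c2 cNN') (IsCoprime.mul_dvd c1 hg.1 hsN) hsN'
    · intro l hl hlD
      have hlp : Prime (l : ℤ) := Nat.prime_iff_prime_int.1 hl
      have h5 : (l : ℤ) ∣ D * N ^ 2 * N' ^ 2 := by rw [← hD']; exact_mod_cast hlD
      rcases hlp.dvd_or_dvd h5 with h6 | h6
      · rcases hlp.dvd_or_dvd h6 with h7 | h7
        · exact hg.2 l hl (by exact_mod_cast h7)
        · by_contra hall
          push Not at hall
          apply hxyp l hlp h7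
          constructor
          · have e : x = a2 - (a2 - x) := by ring
            rw [e]; exact dvd_sub (hall 2) (h7.trans hb2)
          · have e : y = a3 - (a3 - y) := by ring
            rw [e]; exact dvd_sub (hall 3) (h7.trans hb3)
      · by_contra hall
        push Not at hall
        apply hxyp' l hlp h6
        constructor
        · have e : x' = a0 - (a0 - x') := by ring
          rw [e]; exact dvd_sub (hall 0) (h6.trans hc0)
        · have e : y' = a1 - (a1 - y') := by ring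
          rw [e]; exact dvd_sub (hall 1) (h6.trans hc1)
  refine ⟨u', hgood', ?_, ?_⟩
  · intro X hX
    rw [mem_repsc] at hX
    have dN : N ^ 2 ∣ (D' : ℤ) := by rw [hD']; exact ⟨D * N' ^ 2, by ring⟩
    have dN' : N' ^ 2 ∣ (D' : ℤ) := by rw [hD']; exact ⟨D * N ^ 2, by ring⟩
    have aux : ∀ (m : ℤ) (i : Fin 4), m ∣ (D' : ℤ) → m ∣ u' i → m ∣ X i := by
      intro m i hm hi
      have e : X i = (X i - u' i) + u' i := by ring
      rw [e]; exact dvd_add (hm.trans (hX.2 i)) hi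
    exact ⟨aux _ 0 dN hb0, aux _ 1 dN hb1, aux _ 2 dN' hc2, aux _ 3 dN' hc3⟩
  intro G _ S hS hG
  -- the injection
  have hN2 : (0 : ℤ) < N ^ 2 := by have := h1.hN; positivity
  have hN2' : (0 : ℤ) < N' ^ 2 := by have := h2.hN; positivity
  have hdiv : ∀ X ∈ repsc n D' u', N ^ 2 ∣ X 0 ∧ N ^ 2 ∣ X 1 ∧ N' ^ 2 ∣ X 2 ∧ N' ^ 2 ∣ X 3 ∧
      ∀ i, (D : ℤ) ∣ X i - u i := by
    intro X hX
    rw [mem_repsc] at hX
    have dN : N ^ 2 ∣ (D' : ℤ) := by rw [hD']; exact ⟨D * N' ^ 2, by ring⟩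
    have dN' : N' ^ 2 ∣ (D' : ℤ) := by rw [hD']; exact ⟨D * N ^ 2, by ring⟩
    have dD : (D : ℤ) ∣ (D' : ℤ) := by rw [hD']; exact ⟨N ^ 2 * N' ^ 2, by ring⟩
    have aux : ∀ (m : ℤ) (i : Fin 4), m ∣ (D' : ℤ) → m ∣ u' i → m ∣ X i := by
      intro m i hm hi
      have e : X i = (X i - u' i) + u' i := by ring
      rw [e]; exact dvd_add (hm.trans (hX.2 i)) hi
    refine ⟨aux _ 0 dN hb0, aux _ 1 dN hb1, aux _ 2 dN' hc2, aux _ 3 dN' hc3, fun i => ?_⟩
    have e : X i - u i = (X i - u' i) + (u' i - u i) := by ring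
    rw [e]; exact dvd_add (dD.trans (hX.2 i)) (hDu' i)
  have hk : ∀ X : Fin 4 → ℤ, ∃ k : Fin 5 × Fin 5, ∀ i, 0 ≤ rotv P Q N P' Q' N' k X i := by
    intro X
    obtain ⟨k1, hk1, hk1'⟩ := cover P Q N h1.hN.le h1.hP h1.hQ (X 0 / N ^ 2) (X 1 / N ^ 2)
    obtain ⟨k2, hk2, hk2'⟩ := cover P' Q' N' h2.hN.le h2.hP h2.hQ (X 2 / N' ^ 2) (X 3 / N' ^ 2)
    refine ⟨(k1, k2), fun i => ?_⟩
    unfold rotv
    fin_cases i
    · exact hk1
    · exact hk1'
    · exact hk2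
    · exact hk2'
  choose kk hkk using hk
  have hcard : S.card ≤ ((Finset.univ : Finset (Fin 5 × Fin 5)) ×ˢ (orth n D u).filter G).card := by
    apply Finset.card_le_card_of_injOn (fun X => (kk X, rotv P Q N P' Q' N' (kk X) X))
    · intro X hXS
      have hX := hS hXS
      have hX' := hdiv X hX
      rw [mem_repsc] at hX
      obtain ⟨⟨w0, hw0⟩, ⟨w1, hw1⟩, ⟨w2, hw2⟩, ⟨w3, hw3⟩, hXD⟩ := hX'
      have q0 : X 0 / N ^ 2 = w0 := by rw [hw0]; exact Int.mul_ediv_cancel_left _ hN2.ne'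
      have q1 : X 1 / N ^ 2 = w1 := by rw [hw1]; exact Int.mul_ediv_cancel_left _ hN2.ne'
      have q2 : X 2 / N' ^ 2 = w2 := by rw [hw2]; exact Int.mul_ediv_cancel_left _ hN2'.ne'
      have q3 : X 3 / N' ^ 2 = w3 := by rw [hw3]; exact Int.mul_ediv_cancel_left _ hN2'.ne'
      rw [Finset.mem_coe, Finset.mem_product]
      refine ⟨Finset.mem_univ _, ?_⟩
      rw [Finset.mem_filter]
      refine ⟨?_, hG X hXS _⟩
      rw [mem_orth]
      refine ⟨⟨?_, ?_⟩, hkk X⟩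
      · show ∑ i, rotv P Q N P' Q' N' (kk X) X i ^ 2 = n
        have e1 := rc_rs P Q N h1.sq (kk X).1
        have e2 := rc_rs P' Q' N' h2.sq (kk X).2
        have e3 : ∑ i, X i ^ 2 = (n : ℤ) := hX.1
        rw [Fin.sum_univ_four, hw0, hw1, hw2, hw3] at e3
        rw [Fin.sum_univ_four]
        simp only [rotv, Matrix.cons_val_zero, Matrix.cons_val_one, Matrix.cons_val, q0, q1, q2, q3]
        linear_combination (w0 ^ 2 + w1 ^ 2) * e1 + (w2 ^ 2 + w3 ^ 2) * e2 + e3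
      · have c1 := rc_congr P Q N D h1.d1 h1.d2 (kk X).1
        have s1 := rs_congr P Q N D h1.d2 (kk X).1
        have c2 := rc_congr P' Q' N' D h2.d1 h2.d2 (kk X).2
        have s2 := rs_congr P' Q' N' D h2.d2 (kk X).2
        intro i
        fin_cases i
        · show (D : ℤ) ∣ rotv P Q N P' Q' N' (kk X) X 0 - u 0
          simp only [rotv, Matrix.cons_val_zero, q0, q1]
          have e : rc P Q N (kk X).1 * w0 - rs P Q N (kk X).1 * w1 - u 0 =
            (rc P Q N (kk X).1 - N ^ 2) * w0 - rs P Q N (kk X).1 * w1 + (X 0 - u 0) := by rw [hw0]; ring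
          rw [e]
          exact dvd_add (dvd_sub (c1.mul_right _) (s1.mul_right _)) (hXD 0)
        · show (D : ℤ) ∣ rotv P Q N P' Q' N' (kk X) X 1 - u 1
          simp only [rotv, Matrix.cons_val_one, Matrix.cons_val_zero, q0, q1]
          have e : rs P Q N (kk X).1 * w0 + rc P Q N (kk X).1 * w1 - u 1 =
            rs P Q N (kk X).1 * w0 + (rc P Q N (kk X).1 - N ^ 2) * w1 + (X 1 - u 1) := by rw [hw1]; ring
          rw [e]
          exact dvd_add (dvd_add (s1.mul_right _) (c1.mul_right _)) (hXD 1)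
        · show (D : ℤ) ∣ rotv P Q N P' Q' N' (kk X) X 2 - u 2
          simp only [rotv, Matrix.cons_val, q2, q3]
          have e : rc P' Q' N' (kk X).2 * w2 - rs P' Q' N' (kk X).2 * w3 - u 2 =
            (rc P' Q' N' (kk X).2 - N' ^ 2) * w2 - rs P' Q' N' (kk X).2 * w3 + (X 2 - u 2) := by rw [hw2]; ring
          rw [e]
          exact dvd_add (dvd_sub (c2.mul_right _) (s2.mul_right _)) (hXD 2)
        · show (D : ℤ) ∣ rotv P Q N P' Q' N' (kk X) X 3 - u 3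
          simp only [rotv, Matrix.cons_val, q2, q3]
          have e : rs P' Q' N' (kk X).2 * w2 + rc P' Q' N' (kk X).2 * w3 - u 3 =
            rs P' Q' N' (kk X).2 * w2 + (rc P' Q' N' (kk X).2 - N' ^ 2) * w3 + (X 3 - u 3) := by rw [hw3]; ring
          rw [e]
          exact dvd_add (dvd_add (s2.mul_right _) (c2.mul_right _)) (hXD 3)
    · intro X hX Y hY hXY
      have hX' := hdiv X (hS hX)
      have hY' := hdiv Y (hS hY)
      simp only [Prod.mk.injEq] at hXY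
      obtain ⟨hkXY, hr⟩ := hXY
      rw [← hkXY] at hr
      have r0 := congrFun hr 0
      have r1 := congrFun hr 1
      have r2 := congrFun hr 2
      have r3 := congrFun hr 3
      simp only [rotv, Matrix.cons_val_zero, Matrix.cons_val_one, Matrix.cons_val] at r0 r1 r2 r3
      have hN4 : N ^ 4 ≠ 0 := by have := h1.hN; positivity
      have hN4' : N' ^ 4 ≠ 0 := by have := h2.hN; positivity
      obtain ⟨t0, t1⟩ := rot_inj _ _ _ hN4 (rc_rs P Q N h1.sq (kk X).1) _ _ _ _ r0 r1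
      obtain ⟨t2, t3⟩ := rot_inj _ _ _ hN4' (rc_rs P' Q' N' h2.sq (kk X).2) _ _ _ _ r2 r3
      funext i
      fin_cases i
      · show X 0 = Y 0
        rw [← Int.ediv_mul_cancel hX'.1, ← Int.ediv_mul_cancel hY'.1, t0]
      · show X 1 = Y 1
        rw [← Int.ediv_mul_cancel hX'.2.1, ← Int.ediv_mul_cancel hY'.2.1, t1]
      · show X 2 = Y 2
        rw [← Int.ediv_mul_cancel hX'.2.2.1, ← Int.ediv_mul_cancel hY'.2.2.1, t2]
      · show X 3 = Y 3
        rw [← Int.ediv_mul_cancel hX'.2.2.2.1, ← Int.ediv_mul_cancel hY'.2.2.2.1, t3]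
  rw [Finset.card_product] at hcard
  simpa using hcard


end Pool.Agent.R154.FT
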