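import Mathlib

/-!
# Bonferroni's inequality for events given by residue classes
-/

set_option autoImplicit false
open Finset

namespace Pool.Agent.R154.FT

variable {ι : Type*} [DecidableEq ι]

/-- the truncated inclusion-exclusion sum -/
noncomputable def F (β : ι → ℝ) (r : ℕ) (U : Finset ι) : ℝ :=
  ∑ T ∈ U.powerset, if T.card ≤ r then ∏ l ∈ T, (-β l) else 0

theorem F_zero (β : ι → ℝ) (U : Finset ι) : F β 0 U = 1 := by
  unfold F
  rw [Finset.sum_eq_single ∅]
  · simp
  · intro T _ hT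
    rw [if_neg]
    rw [Nat.le_zero, Finset.card_eq_zero]
    exact hT
  · intro h
    exact absurd (Finset.empty_mem_powerset U) h

theorem F_empty (β : ι → ℝ) (r : ℕ) : F β r ∅ = 1 := by
  unfold F
  simp

theorem F_insert (β : ι → ℝ) (r : ℕ) (a : ι) (U : Finset ι) (ha : a ∉ U) :
    F β (r + 1) (insert a U) = F β (r + 1) U - β a * F β r U := by
  unfold F
  rw [Finset.sum_powerset_insert ha, sub_eq_add_neg, Finset.mul_sum, ← Finset.sum_neg_distrib]
  congr 1
  apply Finset.sum_congr rfl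
  intro T hT
  have haT : a ∉ T := fun h => ha (Finset.mem_powerset.1 hT h)
  rw [Finset.card_insert_of_notMem haT, Finset.prod_insert haT]
  by_cases h : T.card ≤ r
  · rw [if_pos (by omega), if_pos h]
    ring
  · rw [if_neg (by omega), if_neg h]
    ring

theorem F_bound (β : ι → ℝ) (h0 : ∀ l, 0 ≤ β l) (h1 : ∀ l, β l ≤ 1) (U : Finset ι) : ∀ r : ℕ,
    0 ≤ (-1 : ℝ) ^ r * (F β r U - ∏ l ∈ U, (1 - β l)) ∧
    (-1 : ℝ) ^ r * (F β r U - ∏ l ∈ U, (1 - β l)) ≤ (∑ l ∈ U, β l) ^ (r + 1) / (r + 1).factorial := by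
  induction U using Finset.induction_on with
  | empty =>
    intro r
    rw [F_empty]
    simp
  | insert a U ha ih =>
    intro r
    have hE : 0 ≤ ∑ l ∈ U, β l := Finset.sum_nonneg fun l _ => h0 l
    have hG0 : 0 ≤ ∏ l ∈ U, (1 - β l) := Finset.prod_nonneg fun l _ => by linarith [h1 l]
    have hG1 : ∏ l ∈ U, (1 - β l) ≤ 1 := Finset.prod_le_one (fun l _ => by linarith [h1 l]) fun l _ => by linarith [h0 l]
    rw [Finset.prod_insert ha, Finset.sum_insert ha]
    cases r with
    | zero =>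
      rw [F_zero]
      have h2 := (ih 0).2
      rw [F_zero] at h2
      simp only [pow_zero, one_mul, zero_add, pow_one, Nat.factorial_one, Nat.cast_one, div_one] at h2 ⊢
      have h3 := h0 a
      have h4 := h1 a
      constructor
      · nlinarith
      · nlinarith
    | succ r =>
      rw [F_insert β r a U ha]
      obtain ⟨p1, p2⟩ := ih (r + 1)
      obtain ⟨q1, q2⟩ := ih r
      have ha0 := h0 a
      have e : (-1 : ℝ) ^ (r + 1) * (F β (r + 1) U - β a * F β r U - (1 - β a) * ∏ l ∈ U, (1 - β l)) =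
          (-1 : ℝ) ^ (r + 1) * (F β (r + 1) U - ∏ l ∈ U, (1 - β l)) +
          β a * ((-1 : ℝ) ^ r * (F β r U - ∏ l ∈ U, (1 - β l))) := by
        rw [pow_succ]
        ring
      rw [e]
      constructor
      · positivity
      · set E := ∑ l ∈ U, β l with hEdef
        have h5 : E ^ (r + 2) + (r + 2) * E ^ (r + 1) * β a ≤ (β a + E) ^ (r + 2) := by
          have key : ∀ m : ℕ, E ^ (m + 1) + (m + 1) * E ^ m * β a ≤ (β a + E) ^ (m + 1) := by
            intro m
            induction m with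
            | zero => simp [add_comm]
            | succ m ihm =>
              rw [pow_succ (β a + E) (m + 1)]
              have h6 : 0 ≤ β a + E := by positivity
              calc E ^ (m + 1 + 1) + ((m + 1 : ℕ) + 1) * E ^ (m + 1) * β a
                  ≤ (E ^ (m + 1) + (m + 1) * E ^ m * β a) * (β a + E) := by
                    push_cast
                    have h7 : 0 ≤ (m + 1) * E ^ m * β a * β a := by positivity
                    have e7 : (E ^ (m + 1) + (m + 1) * E ^ m * β a) * (β a + E) =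
                        E ^ (m + 1 + 1) + ((m : ℝ) + 1 + 1) * E ^ (m + 1) * β a + (m + 1) * E ^ m * β a * β a := by
                      ring
                    rw [e7]
                    linarith
                _ ≤ _ := by gcongr
          have := key (r + 1)
          push_cast at this ⊢
          have e2 : (r : ℝ) + 1 + 1 = r + 2 := by ring
          rw [e2] at this
          exact this
        calc (-1 : ℝ) ^ (r + 1) * (F β (r + 1) U - ∏ l ∈ U, (1 - β l)) +
              β a * ((-1 : ℝ) ^ r * (F β r U - ∏ l ∈ U, (1 - β l)))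
            ≤ E ^ (r + 1 + 1) / (r + 1 + 1).factorial + β a * (E ^ (r + 1) / (r + 1).factorial) := by
              gcongr
          _ = (E ^ (r + 2) + (r + 2) * E ^ (r + 1) * β a) / (r + 1 + 1).factorial := by
              have hf : ((r + 1 + 1).factorial : ℝ) = (r + 2) * (r + 1).factorial := by
                rw [Nat.factorial_succ (r + 1)]
                push_cast
                ring
              have hf0 : ((r + 1).factorial : ℝ) ≠ 0 := by positivity
              rw [hf]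
              field_simp
          _ ≤ (β a + E) ^ (r + 1 + 1) / (r + 1 + 1).factorial := by
              gcongr

variable {σ : Type*} [DecidableEq σ] {A : ι → Type*} [∀ l, DecidableEq (A l)]

/-- the elements of `S` in a tuple of classes -/
def cls (S : Finset σ) (κ : ∀ l, σ → A l) (T : Finset ι) (c : ∀ l ∈ T, A l) : Finset σ :=
  S.filter (fun X => ∀ l (hl : l ∈ T), κ l X = c l hl)

theorem sum_cls (S : Finset σ) (κ : ∀ l, σ → A l) (T : Finset ι) (B : ∀ l, Finset (A l)) :
    ∑ c ∈ T.pi B, (cls S κ T c).card = (S.filter (fun X => ∀ l ∈ T, κ l X ∈ B l)).card := by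
  classical
  symm
  have h := Finset.card_eq_sum_card_fiberwise (s := S.filter (fun X => ∀ l ∈ T, κ l X ∈ B l)) (t := T.pi B)
    (f := fun X => (fun l (_ : l ∈ T) => κ l X)) (by
      intro X hX
      rw [mem_coe, mem_filter] at hX
      rw [mem_coe, Finset.mem_pi]
      exact fun l hl => hX.2 l hl)
  rw [h]
  apply Finset.sum_congr rfl
  intro c hc
  rw [Finset.mem_pi] at hc
  congr 1
  ext X
  unfold cls
  simp only [mem_filter]
  constructor
  · rintro ⟨⟨h1, h2⟩, h3⟩
    refine ⟨h1, fun l hl => ?_⟩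
    exact congrFun (congrFun h3 l) hl
  · rintro ⟨h1, h2⟩
    refine ⟨⟨h1, fun l hl => ?_⟩, ?_⟩
    · rw [h2 l hl]
      exact hc l hl
    · funext l hl
      exact h2 l hl

/-- equidistribution gives the proportion of the bad elements -/
theorem bad_prop (S : Finset σ) (κ : ∀ l, σ → A l) (T : Finset ι) (B C : ∀ l, Finset (A l))
    (hBC : ∀ l, B l ⊆ C l) (hC : ∀ l, (C l).Nonempty) (e : ℝ)
    (he : ∀ c ∈ T.pi C, ∀ c' ∈ T.pi C, |((cls S κ T c).card : ℝ) - (cls S κ T c').card| ≤ e) :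
    |((S.filter (fun X => ∀ l ∈ T, κ l X ∈ B l)).card : ℝ) -
      (∏ l ∈ T, ((B l).card : ℝ) / (C l).card) * (S.filter (fun X => ∀ l ∈ T, κ l X ∈ C l)).card| ≤
      (∏ l ∈ T, ((B l).card : ℝ)) * e := by
  classical
  rw [← sum_cls S κ T B, ← sum_cls S κ T C]
  set N : (∀ l ∈ T, A l) → ℝ := fun c => ((cls S κ T c).card : ℝ) with hN
  push_cast
  have hsub : T.pi B ⊆ T.pi C := by
    intro c hc
    rw [Finset.mem_pi] at hc ⊢
    exact fun l hl => hBC l (hc l hl)
  have hcB : ((T.pi B).card : ℝ) = ∏ l ∈ T, ((B l).card : ℝ) := by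
    rw [Finset.card_pi]; push_cast; rfl
  have hcC : ((T.pi C).card : ℝ) = ∏ l ∈ T, ((C l).card : ℝ) := by
    rw [Finset.card_pi]; push_cast; rfl
  have hC0 : (0 : ℝ) < (T.pi C).card := by
    rw [hcC]
    apply Finset.prod_pos
    intro l _
    exact_mod_cast Finset.card_pos.2 (hC l)
  rw [Finset.prod_div_distrib, ← hcB, ← hcC]
  have key : ((T.pi C).card : ℝ) * ∑ c ∈ T.pi B, N c - (T.pi B).card * ∑ c ∈ T.pi C, N c =
      ∑ b ∈ T.pi B, ∑ c ∈ T.pi C, (N b - N c) := by
    simp only [Finset.sum_sub_distrib, Finset.sum_const, nsmul_eq_mul, Finset.mul_sum]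
  have h1 : |∑ b ∈ T.pi B, ∑ c ∈ T.pi C, (N b - N c)| ≤ (T.pi B).card * ((T.pi C).card * e) := by
    calc |∑ b ∈ T.pi B, ∑ c ∈ T.pi C, (N b - N c)| ≤ ∑ b ∈ T.pi B, |∑ c ∈ T.pi C, (N b - N c)| :=
          Finset.abs_sum_le_sum_abs _ _
      _ ≤ ∑ b ∈ T.pi B, ∑ c ∈ T.pi C, |N b - N c| :=
          Finset.sum_le_sum fun b _ => Finset.abs_sum_le_sum_abs _ _
      _ ≤ ∑ b ∈ T.pi B, ∑ c ∈ T.pi C, e :=
          Finset.sum_le_sum fun b hb => Finset.sum_le_sum fun c hc => he b (hsub hb) c hc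
      _ = _ := by
          simp only [Finset.sum_const, nsmul_eq_mul]
  rw [← key] at h1
  have h2 : ∑ c ∈ T.pi B, N c - ((T.pi B).card : ℝ) / (T.pi C).card * ∑ c ∈ T.pi C, N c =
      (((T.pi C).card : ℝ) * ∑ c ∈ T.pi B, N c - (T.pi B).card * ∑ c ∈ T.pi C, N c) / (T.pi C).card := by
    field_simp
  rw [h2, abs_div, abs_of_pos hC0, div_le_iff₀ hC0]
  linarith

/-- **Bonferroni's inequality** for classes -/
theorem bonf (S : Finset σ) (κ : ∀ l, σ → A l) (L : Finset ι) (B C : ∀ l, Finset (A l))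
    (hBC : ∀ l, B l ⊆ C l) (hC : ∀ l, (C l).Nonempty) (r : ℕ) (hr : Odd r) (e M : ℝ) (he0 : 0 ≤ e) (hM : 1 ≤ M)
    (hBM : ∀ l ∈ L, ((B l).card : ℝ) ≤ M)
    (he : ∀ T ⊆ L, T.card ≤ r → ∀ c ∈ T.pi C, ∀ c' ∈ T.pi C, |((cls S κ T c).card : ℝ) - (cls S κ T c').card| ≤ e) :
    (S.card : ℝ) * (∏ l ∈ L, (1 - ((B l).card : ℝ) / (C l).card) -
        (∑ l ∈ L, ((B l).card : ℝ) / (C l).card) ^ (r + 1) / (r + 1).factorial) -
      ((L.powerset.filter (fun T => T.card ≤ r)).card : ℝ) * (M ^ r * e) ≤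
      ((S.filter (fun X => ∀ l ∈ L, κ l X ∉ B l)).card : ℝ) := by
  classical
  set β : ι → ℝ := fun l => ((B l).card : ℝ) / (C l).card with hβ
  have hβ0 : ∀ l, 0 ≤ β l := fun l => by positivity
  have hβ1 : ∀ l, β l ≤ 1 := fun l => by
    simp only [hβ]
    apply div_le_one_of_le₀ _ (by positivity)
    exact_mod_cast Finset.card_le_card (hBC l)
  -- pointwise
  have hpt : ∀ U : Finset ι, F (fun _ => (1 : ℝ)) r U ≤ if U = ∅ then 1 else 0 := by
    intro U
    have h1 := (F_bound (fun _ : ι => (1 : ℝ)) (fun _ => zero_le_one) (fun _ => le_rfl) U r).1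
    rw [hr.neg_one_pow] at h1
    have h2 : ∏ l ∈ U, (1 - (1 : ℝ)) = if U = ∅ then 1 else 0 := by
      by_cases hU : U = ∅
      · simp [hU]
      · rw [if_neg hU, Finset.prod_const, sub_self, zero_pow]
        exact (Finset.card_pos.2 (Finset.nonempty_iff_ne_empty.2 hU)).ne'
    rw [h2] at h1
    linarith
  have hgood : ((S.filter (fun X => ∀ l ∈ L, κ l X ∉ B l)).card : ℝ) =
      ∑ X ∈ S, if L.filter (fun l => κ l X ∈ B l) = ∅ then (1 : ℝ) else 0 := by
    rw [Finset.sum_boole]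
    congr 2
    ext X
    simp only [mem_filter, Finset.filter_eq_empty_iff]
  -- exchange
  have hex : ∀ (D : ∀ l, Finset (A l)) (g : ι → ℝ), ∑ X ∈ S, F g r (L.filter (fun l => κ l X ∈ D l)) =
      ∑ T ∈ L.powerset, (if T.card ≤ r then ∏ l ∈ T, (-g l) else 0) *
        ((S.filter (fun X => ∀ l ∈ T, κ l X ∈ D l)).card : ℝ) := by
    intro D g
    have h1 : ∀ X ∈ S, F g r (L.filter (fun l => κ l X ∈ D l)) =
        ∑ T ∈ L.powerset, (if T.card ≤ r then ∏ l ∈ T, (-g l) else 0) *
          (if ∀ l ∈ T, κ l X ∈ D l then (1 : ℝ) else 0) := by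
      intro X _
      unfold F
      rw [← Finset.sum_filter_add_sum_filter_not L.powerset (fun T => ∀ l ∈ T, κ l X ∈ D l)]
      have e0 : ∑ T ∈ L.powerset.filter (fun T => ¬ ∀ l ∈ T, κ l X ∈ D l),
          (if T.card ≤ r then ∏ l ∈ T, (-g l) else 0) * (if ∀ l ∈ T, κ l X ∈ D l then (1 : ℝ) else 0) = 0 := by
        apply Finset.sum_eq_zero
        intro T hT
        rw [mem_filter] at hT
        rw [if_neg hT.2, mul_zero]
      rw [e0, add_zero]
      apply Finset.sum_congr_of_eq_on_inter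
      · intro T hT hT'
        exfalso
        apply hT'
        rw [mem_powerset] at hT
        rw [mem_filter, mem_powerset]
        refine ⟨fun l hl => (mem_filter.1 (hT hl)).1, fun l hl => (mem_filter.1 (hT hl)).2⟩
      · intro T hT hT'
        exfalso
        apply hT'
        rw [mem_filter, mem_powerset] at hT
        rw [mem_powerset]
        exact fun l hl => mem_filter.2 ⟨hT.1 hl, hT.2 l hl⟩
      · intro T _ hT
        rw [mem_filter] at hT
        rw [if_pos hT.2, mul_one]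
    rw [Finset.sum_congr rfl h1, Finset.sum_comm]
    apply Finset.sum_congr rfl
    intro T _
    rw [← Finset.mul_sum, Finset.sum_boole]
  have h1 : ∑ X ∈ S, F (fun _ => (1 : ℝ)) r (L.filter (fun l => κ l X ∈ B l)) ≤
      ((S.filter (fun X => ∀ l ∈ L, κ l X ∉ B l)).card : ℝ) := by
    rw [hgood]
    exact Finset.sum_le_sum fun X _ => hpt _
  refine le_trans ?_ h1
  rw [hex B]
  -- main term
  have h2 : (S.card : ℝ) * (∏ l ∈ L, (1 - β l) - (∑ l ∈ L, β l) ^ (r + 1) / (r + 1).factorial) ≤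
      ∑ X ∈ S, F β r (L.filter (fun l => κ l X ∈ C l)) := by
    rw [← nsmul_eq_mul, ← Finset.sum_const]
    apply Finset.sum_le_sum
    intro X _
    set U := L.filter (fun l => κ l X ∈ C l) with hU
    have hUL : U ⊆ L := Finset.filter_subset _ _
    have h3 := (F_bound β hβ0 hβ1 U r).2
    rw [hr.neg_one_pow] at h3
    have h4 : ∏ l ∈ L, (1 - β l) ≤ ∏ l ∈ U, (1 - β l) := by
      rw [← Finset.prod_sdiff hUL]
      have q1 : ∏ l ∈ L \ U, (1 - β l) ≤ 1 :=
        Finset.prod_le_one (fun l _ => by linarith [hβ1 l]) fun l _ => by linarith [hβ0 l]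
      have q2 : 0 ≤ ∏ l ∈ U, (1 - β l) := Finset.prod_nonneg fun l _ => by linarith [hβ1 l]
      exact mul_le_of_le_one_left q2 q1
    have h5 : ∑ l ∈ U, β l ≤ ∑ l ∈ L, β l :=
      Finset.sum_le_sum_of_subset_of_nonneg hUL fun l _ _ => hβ0 l
    have h6 : 0 ≤ ∑ l ∈ U, β l := Finset.sum_nonneg fun l _ => hβ0 l
    have h7 : (∑ l ∈ U, β l) ^ (r + 1) / ((r + 1).factorial : ℝ) ≤ (∑ l ∈ L, β l) ^ (r + 1) / ((r + 1).factorial : ℝ) :=
      div_le_div_of_nonneg_right (pow_le_pow_left₀ h6 h5 _) (Nat.cast_nonneg _)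
    linarith
  rw [hex C β] at h2
  have h8 : ∑ T ∈ L.powerset, ((if T.card ≤ r then ∏ l ∈ T, (-β l) else 0) *
        ((S.filter (fun X => ∀ l ∈ T, κ l X ∈ C l)).card : ℝ) -
        (if T.card ≤ r then ∏ l ∈ T, (-(1 : ℝ)) else 0) *
        ((S.filter (fun X => ∀ l ∈ T, κ l X ∈ B l)).card : ℝ)) ≤
      ((L.powerset.filter (fun T => T.card ≤ r)).card : ℝ) * (M ^ r * e) := by
    rw [← nsmul_eq_mul, ← Finset.sum_const, Finset.sum_filter]
    apply Finset.sum_le_sum
    intro T hT
    rw [mem_powerset] at hT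
    by_cases hTr : T.card ≤ r
    · rw [if_pos hTr, if_pos hTr, if_pos hTr]
      have h9 := bad_prop S κ T B C hBC hC e (he T hT hTr)
      have e1 : ∏ l ∈ T, (-β l) = (-1) ^ T.card * ∏ l ∈ T, β l := by
        rw [Finset.prod_neg]
      have e2 : ∏ l ∈ T, (-(1 : ℝ)) = (-1) ^ T.card := by
        rw [Finset.prod_const]
      rw [e1, e2]
      have e3 : (-1 : ℝ) ^ T.card * (∏ l ∈ T, β l) * ((S.filter (fun X => ∀ l ∈ T, κ l X ∈ C l)).card : ℝ) -
          (-1) ^ T.card * ((S.filter (fun X => ∀ l ∈ T, κ l X ∈ B l)).card : ℝ) =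
          -((-1) ^ T.card * (((S.filter (fun X => ∀ l ∈ T, κ l X ∈ B l)).card : ℝ) -
            (∏ l ∈ T, β l) * ((S.filter (fun X => ∀ l ∈ T, κ l X ∈ C l)).card : ℝ))) := by ring
      rw [e3]
      refine (neg_le_abs _).trans ?_
      rw [abs_mul, abs_pow, abs_neg, abs_one, one_pow, one_mul]
      refine h9.trans ?_
      have h10 : ∏ l ∈ T, ((B l).card : ℝ) ≤ M ^ r := by
        calc ∏ l ∈ T, ((B l).card : ℝ) ≤ ∏ _l ∈ T, M :=
              Finset.prod_le_prod (fun l _ => by positivity) fun l hl => hBM l (hT hl)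
          _ = M ^ T.card := by rw [Finset.prod_const]
          _ ≤ M ^ r := pow_le_pow_right₀ hM hTr
      gcongr
    · rw [if_neg hTr, if_neg hTr, if_neg hTr]
      simp
  rw [Finset.sum_sub_distrib] at h8
  linarith

end Pool.Agent.R154.FT
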