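import Mathlib

/-!
# Counting solutions of `x² + y² + z² + w² = n` in `ZMod l`
-/

set_option autoImplicit false
open Finset

namespace Pool.Agent.R154.FT

section
variable (l : ℕ) [Fact l.Prime]

/-- the solutions of `x² + y² = m` -/
def sol2 (m : ZMod l) : Finset (ZMod l × ZMod l) := univ.filter (fun p => p.1 ^ 2 + p.2 ^ 2 = m)

theorem sol2_le (m m' : ZMod l) (hm : m ≠ 0) (hm' : m' ≠ 0) : (sol2 l m).card ≤ (sol2 l m').card := by
  obtain ⟨a, b, hab⟩ := ZMod.sq_add_sq l (m' / m)
  have hne : m' / m ≠ 0 := div_ne_zero hm' hm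
  refine Finset.card_le_card_of_injOn (fun p => (a * p.1 - b * p.2, b * p.1 + a * p.2)) ?_ ?_
  · intro p hp
    unfold sol2 at hp ⊢
    rw [mem_coe, mem_filter] at hp ⊢
    refine ⟨mem_univ _, ?_⟩
    simp only
    have e : (a * p.1 - b * p.2) ^ 2 + (b * p.1 + a * p.2) ^ 2 = (a ^ 2 + b ^ 2) * (p.1 ^ 2 + p.2 ^ 2) := by ring
    rw [e, hab, hp.2]
    field_simp
  · intro p _ q _ h
    simp only [Prod.mk.injEq] at h
    obtain ⟨h1, h2⟩ := h
    have e1 : (m' / m) * (p.1 - q.1) = 0 := by
      rw [← hab]
      linear_combination a * h1 + b * h2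
    have e2 : (m' / m) * (p.2 - q.2) = 0 := by
      rw [← hab]
      linear_combination a * h2 - b * h1
    have f1 := (mul_eq_zero.1 e1).resolve_left hne
    have f2 := (mul_eq_zero.1 e2).resolve_left hne
    exact Prod.ext (by linear_combination f1) (by linear_combination f2)

/-- at most two square roots -/
theorem roots_le (c : ZMod l) : (univ.filter (fun t : ZMod l => t ^ 2 = c)).card ≤ 2 := by
  classical
  by_cases h : ∃ t : ZMod l, t ^ 2 = c
  · obtain ⟨t, ht⟩ := h
    refine (Finset.card_le_card (t := {t, -t}) ?_).trans Finset.card_le_two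
    intro s hs
    rw [mem_filter] at hs
    rw [mem_insert, mem_singleton]
    have e : (s - t) * (s + t) = 0 := by
      have := hs.2
      linear_combination this - ht
    rcases mul_eq_zero.1 e with h1 | h1
    · left; linear_combination h1
    · right; linear_combination h1
  · rw [Finset.card_eq_zero.2]
    · omega
    · rw [Finset.filter_eq_empty_iff]
      intro t _ ht
      exact h ⟨t, ht⟩

theorem sol2_two (m : ZMod l) : (sol2 l m).card ≤ 2 * l := by
  classical
  have h : (sol2 l m).card = ∑ s : ZMod l, ((sol2 l m).filter (fun p => p.1 = s)).card :=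
    Finset.card_eq_sum_card_fiberwise (fun p _ => mem_coe.2 (mem_univ _))
  rw [h]
  calc ∑ s : ZMod l, ((sol2 l m).filter (fun p => p.1 = s)).card ≤ ∑ _s : ZMod l, 2 := by
        apply Finset.sum_le_sum
        intro s _
        refine le_trans ?_ (roots_le l (m - s ^ 2))
        refine Finset.card_le_card_of_injOn (fun p => p.2) ?_ ?_
        · intro p hp
          unfold sol2 at hp
          rw [mem_coe, mem_filter, mem_filter] at hp
          rw [mem_coe, mem_filter]
          refine ⟨mem_univ _, ?_⟩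
          rw [← hp.2, ← hp.1.2]
          ring
        · intro p hp q hq he
          rw [mem_coe, mem_filter] at hp hq
          exact Prod.ext (hp.2.trans hq.2.symm) he
    _ = 2 * l := by
        rw [sum_const, card_univ, ZMod.card, smul_eq_mul, mul_comm]

theorem sol2_ge (m : ZMod l) (hm : m ≠ 0) : l ≤ (sol2 l m).card + 2 := by
  classical
  have hl := (Fact.out : l.Prime).two_le
  have h : (univ : Finset (ZMod l × ZMod l)).card = ∑ s : ZMod l, (sol2 l s).card := by
    have := Finset.card_eq_sum_card_fiberwise (s := (univ : Finset (ZMod l × ZMod l))) (t := (univ : Finset (ZMod l)))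
      (f := fun p => p.1 ^ 2 + p.2 ^ 2) (fun p _ => mem_coe.2 (mem_univ _))
    rw [this]
    rfl
  rw [card_univ, Fintype.card_prod, ZMod.card, ← Finset.add_sum_erase univ _ (mem_univ (0 : ZMod l))] at h
  have h2 : ∑ s ∈ univ.erase (0 : ZMod l), (sol2 l s).card ≤ (l - 1) * (sol2 l m).card := by
    have h3 : ((univ : Finset (ZMod l)).erase 0).card = l - 1 := by
      rw [Finset.card_erase_of_mem (mem_univ _), card_univ, ZMod.card]
    rw [← h3, ← smul_eq_mul, ← sum_const]
    apply Finset.sum_le_sum
    intro s hs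
    exact sol2_le l s m (Finset.ne_of_mem_erase hs) hm
  have h3 := sol2_two l 0
  by_contra hcon
  push Not at hcon
  obtain ⟨k, rfl⟩ : ∃ k, l = k + 1 := ⟨l - 1, by omega⟩
  rw [Nat.add_sub_cancel] at h2
  have h4 : (sol2 (k + 1) m).card + 2 ≤ k := by omega
  have h5 : k * (sol2 (k + 1) m).card + 2 * k ≤ k * k := by nlinarith
  nlinarith

/-- the solutions of `x² + y² + z² + w² = n` which are not zero -/
def C4 (n : ℕ) : Finset (Fin 4 → ZMod l) := univ.filter (fun u => ∑ i, u i ^ 2 = (n : ZMod l) ∧ u ≠ 0)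

theorem C4_card (n : ℕ) (hl : 12 ≤ l) : l ^ 3 ≤ 2 * (C4 l n).card := by
  classical
  -- pairs with `n - c² - d² ≠ 0`
  set G : Finset (ZMod l × ZMod l) := univ.filter (fun p => ¬ p.1 ^ 2 + p.2 ^ 2 = (n : ZMod l)) with hG
  have hGc : l ^ 2 ≤ G.card + 2 * l := by
    have h1 := Finset.card_filter_add_card_filter_not (s := (univ : Finset (ZMod l × ZMod l)))
      (fun p => p.1 ^ 2 + p.2 ^ 2 = (n : ZMod l))
    rw [card_univ, Fintype.card_prod, ZMod.card] at h1
    have h2 := sol2_two l (n : ZMod l)
    unfold sol2 at h2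
    rw [← hG] at h1
    rw [pow_two, ← h1]
    omega
  have h1 : G.card * (l - 2) ≤ (C4 l n).card := by
    have h2 : (C4 l n).card ≥ (G.sigma (fun p => sol2 l ((n : ZMod l) - (p.1 ^ 2 + p.2 ^ 2)))).card := by
      refine Finset.card_le_card_of_injOn (fun s => ![s.2.1, s.2.2, s.1.1, s.1.2]) ?_ ?_
      · intro s hs
        rw [mem_coe, Finset.mem_sigma] at hs
        obtain ⟨hs1, hs2⟩ := hs
        rw [hG, mem_filter] at hs1
        unfold sol2 at hs2
        rw [mem_filter] at hs2
        unfold C4
        rw [mem_coe, mem_filter]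
        refine ⟨mem_univ _, ?_, ?_⟩
        · rw [Fin.sum_univ_four]
          simp only [Matrix.cons_val_zero, Matrix.cons_val_one, Matrix.cons_val]
          linear_combination hs2.2
        · intro h0
          apply hs1.2
          have e0 := congrFun h0 0
          have e1 := congrFun h0 1
          simp only [Matrix.cons_val_zero, Matrix.cons_val_one, Pi.zero_apply] at e0 e1
          have h3 := hs2.2
          rw [e0, e1] at h3
          linear_combination h3
      · rintro ⟨⟨a, b⟩, c, d⟩ _ ⟨⟨a', b'⟩, c', d'⟩ _ he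
        have e0 := congrFun he 0
        have e1 := congrFun he 1
        have e2 := congrFun he 2
        have e3 := congrFun he 3
        simp only [Matrix.cons_val_zero, Matrix.cons_val_one, Matrix.cons_val] at e0 e1 e2 e3
        subst e0 e1 e2 e3
        rfl
    refine le_trans ?_ h2
    rw [Finset.card_sigma, ← smul_eq_mul, ← sum_const]
    apply Finset.sum_le_sum
    intro p hp
    rw [hG, mem_filter] at hp
    have := sol2_ge l ((n : ZMod l) - (p.1 ^ 2 + p.2 ^ 2)) (fun h0 => hp.2 (by linear_combination -h0))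
    omega
  obtain ⟨k, hk⟩ : ∃ k, l = k + 12 := ⟨l - 12, by omega⟩
  have e1 : l - 2 = k + 10 := by omega
  rw [e1] at h1
  have h3 : (l ^ 2 - 2 * l) * (k + 10) ≤ G.card * (k + 10) := Nat.mul_le_mul_right _ (by omega)
  have e2 : l ^ 2 - 2 * l = (k + 12) * (k + 10) := by
    rw [hk]
    have : (k + 12) ^ 2 = (k + 12) * (k + 10) + 2 * (k + 12) := by ring
    omega
  rw [e2] at h3
  have h4 : l ^ 3 ≤ 2 * ((k + 12) * (k + 10) * (k + 10)) := by
    rw [hk]
    nlinarith [Nat.zero_le (k ^ 3), Nat.zero_le (k ^ 2)]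
  calc l ^ 3 ≤ 2 * ((k + 12) * (k + 10) * (k + 10)) := h4
    _ ≤ 2 * (C4 l n).card := Nat.mul_le_mul_left _ (h3.trans h1)

/-- two linear conditions -/
theorem two_lin (n : ℕ) (g h g' h' N N' s t : ZMod l) (hN : N ≠ 0) (hN' : N' ≠ 0) (h2 : (2 : ZMod l) ≠ 0)
    (e1 : g ^ 2 + h ^ 2 = 2 * N) (e2 : g' ^ 2 + h' ^ 2 = 2 * N') :
    (univ.filter (fun u : Fin 4 → ZMod l => ∑ i, u i ^ 2 = (n : ZMod l) ∧ g * u 0 + h * u 1 = s ∧
      g' * u 2 + h' * u 3 = t)).card ≤ 2 * l := by
  classical
  have d1 : (2 * N : ZMod l) ≠ 0 := mul_ne_zero h2 hN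
  have d2 : (2 * N' : ZMod l) ≠ 0 := mul_ne_zero h2 hN'
  set W := univ.filter (fun u : Fin 4 → ZMod l => ∑ i, u i ^ 2 = (n : ZMod l) ∧ g * u 0 + h * u 1 = s ∧
      g' * u 2 + h' * u 3 = t) with hW
  have key : ∀ u ∈ W, (h' * u 2 - g' * u 3) ^ 2 = 2 * N' * n - t ^ 2 - (2 * N') / (2 * N) * (s ^ 2 + (h * u 0 - g * u 1) ^ 2) := by
    intro u hu
    rw [hW, mem_filter] at hu
    obtain ⟨-, hq, hs, ht⟩ := hu
    rw [Fin.sum_univ_four] at hq
    have a1 : s ^ 2 + (h * u 0 - g * u 1) ^ 2 = 2 * N * (u 0 ^ 2 + u 1 ^ 2) := by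
      rw [← hs, ← e1]; ring
    have a2 : t ^ 2 + (h' * u 2 - g' * u 3) ^ 2 = 2 * N' * (u 2 ^ 2 + u 3 ^ 2) := by
      rw [← ht, ← e2]; ring
    rw [a1]
    have a3 : (2 * N') / (2 * N) * (2 * N * (u 0 ^ 2 + u 1 ^ 2)) = 2 * N' * (u 0 ^ 2 + u 1 ^ 2) := by
      field_simp
    rw [a3, ← hq]
    linear_combination a2
  have hc : W.card = ∑ p : ZMod l, (W.filter (fun u => h * u 0 - g * u 1 = p)).card :=
    Finset.card_eq_sum_card_fiberwise (fun p _ => mem_coe.2 (mem_univ _))
  rw [hc]
  calc ∑ p : ZMod l, (W.filter (fun u => h * u 0 - g * u 1 = p)).card ≤ ∑ _p : ZMod l, 2 := by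
        apply Finset.sum_le_sum
        intro p _
        refine le_trans ?_ (roots_le l (2 * N' * n - t ^ 2 - (2 * N') / (2 * N) * (s ^ 2 + p ^ 2)))
        refine Finset.card_le_card_of_injOn (fun u => h' * u 2 - g' * u 3) ?_ ?_
        · intro u hu
          rw [mem_coe, mem_filter] at hu
          rw [mem_coe, mem_filter]
          refine ⟨mem_univ _, ?_⟩
          rw [key u hu.1, hu.2]
        · intro u hu v hv he
          rw [mem_coe, mem_filter] at hu hv
          have hu1 := hu.1
          have hv1 := hv.1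
          rw [hW, mem_filter] at hu1 hv1
          obtain ⟨-, -, hs, ht⟩ := hu1
          obtain ⟨-, -, hs', ht'⟩ := hv1
          simp only at he
          have p1 := hu.2
          have p2 := hv.2
          have f0 : (2 * N) * (u 0 - v 0) = 0 := by
            rw [← e1]
            linear_combination g * (hs - hs') + h * (p1 - p2)
          have f1 : (2 * N) * (u 1 - v 1) = 0 := by
            rw [← e1]
            linear_combination h * (hs - hs') - g * (p1 - p2)
          have f2 : (2 * N') * (u 2 - v 2) = 0 := by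
            rw [← e2]
            linear_combination g' * (ht - ht') + h' * he
          have f3 : (2 * N') * (u 3 - v 3) = 0 := by
            rw [← e2]
            linear_combination h' * (ht - ht') - g' * he
          have k0 := (mul_eq_zero.1 f0).resolve_left d1
          have k1 := (mul_eq_zero.1 f1).resolve_left d1
          have k2 := (mul_eq_zero.1 f2).resolve_left d2
          have k3 := (mul_eq_zero.1 f3).resolve_left d2
          funext i
          fin_cases i
          · show u 0 = v 0; linear_combination k0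
          · show u 1 = v 1; linear_combination k1
          · show u 2 = v 2; linear_combination k2
          · show u 3 = v 3; linear_combination k3
    _ = 2 * l := by
        rw [sum_const, card_univ, ZMod.card, smul_eq_mul, mul_comm]

end

end Pool.Agent.R154.FT
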