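import Pool.Agent.TH696.FA.OrthCount
import Pool.Agent.R154.FT.Bonf
import Pool.Agent.R154.FT.Cls

/-!
# Equidistribution of the representations in residue classes for many primes
-/

set_option autoImplicit false
open Finset

namespace Pool.Agent.R154.FT
open Pool.Agent.W65.FS Pool.Agent.TH696.FA

instance factP (l : Nat.Primes) : Fact (l : ℕ).Prime := ⟨l.2⟩

/-- the residue class of a vector -/
def res (l : Nat.Primes) (X : Fin 4 → ℤ) : Fin 4 → ZMod (l : ℕ) := fun i => (X i : ZMod (l : ℕ))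

/-- the product of the primes of `T` -/
def mT (T : Finset Nat.Primes) : ℕ := ∏ l ∈ T, (l : ℕ)

theorem mT_pos (T : Finset Nat.Primes) : 0 < mT T := Finset.prod_pos fun l _ => l.2.pos

theorem coprime_mT (K : ℕ) (T : Finset Nat.Primes) (h : ∀ l ∈ T, ¬ (l : ℕ) ∣ K) : Nat.Coprime K (mT T) := by
  unfold mT
  apply Nat.Coprime.prod_right
  intro l hl
  exact ((Nat.Prime.coprime_iff_not_dvd l.2).2 (h l hl)).symm

theorem prime_not_dvd_mT (a : Nat.Primes) (T : Finset Nat.Primes) (h : a ∉ T) : Nat.Coprime (a : ℕ) (mT T) := by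
  apply coprime_mT
  intro l hl hd
  apply h
  have := (Nat.prime_dvd_prime_iff_eq l.2 a.2).1 hd
  have e : l = a := Subtype.ext this
  rwa [← e]

theorem dvd_iff (K : ℕ) (T : Finset Nat.Primes) (h : ∀ l ∈ T, ¬ (l : ℕ) ∣ K) (z : ℤ) :
    ((K * mT T : ℕ) : ℤ) ∣ z ↔ (K : ℤ) ∣ z ∧ ∀ l ∈ T, ((l : ℕ) : ℤ) ∣ z := by
  constructor
  · intro hd
    refine ⟨(Int.natCast_dvd_natCast.2 (dvd_mul_right _ _)).trans hd, fun l hl => ?_⟩
    have h1 : (l : ℕ) ∣ mT T := Finset.dvd_prod_of_mem _ hl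
    exact (Int.natCast_dvd_natCast.2 (h1.mul_left _)).trans hd
  · rintro ⟨h1, h2⟩
    have h3 : (mT T : ℤ) ∣ z := by
      unfold mT
      push_cast
      apply Finset.prod_dvd_of_coprime
      · intro a _ b _ hab
        rw [Function.onFun, Nat.isCoprime_iff_coprime]
        exact (Nat.coprime_primes a.2 b.2).2 (fun e => hab (Subtype.ext e))
      · exact h2
    push_cast
    exact IsCoprime.mul_dvd (Nat.isCoprime_iff_coprime.2 (coprime_mT K T h)) h1 h3

theorem crtT (K : ℕ) (u0 : Fin 4 → ℤ) (T : Finset Nat.Primes) : (∀ l ∈ T, ¬ (l : ℕ) ∣ K) →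
    ∀ c : (∀ l ∈ T, Fin 4 → ZMod (l : ℕ)), ∃ u : Fin 4 → ℤ, (∀ i, (K : ℤ) ∣ u i - u0 i) ∧
      ∀ l (hl : l ∈ T), res l u = c l hl := by
  induction T using Finset.induction_on with
  | empty =>
    intro _ c
    exact ⟨u0, fun i => by simp, fun l hl => absurd hl (Finset.notMem_empty l)⟩
  | insert a T ha ih =>
    intro h c
    have hT : ∀ l ∈ T, ¬ (l : ℕ) ∣ K := fun l hl => h l (Finset.mem_insert_of_mem hl)
    obtain ⟨u, hu1, hu2⟩ := ih hT (fun l hl => c l (Finset.mem_insert_of_mem hl))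
    have hcop : Nat.Coprime (K * mT T) (a : ℕ) := by
      apply Nat.Coprime.mul_left
      · exact ((Nat.Prime.coprime_iff_not_dvd a.2).2 (h a (Finset.mem_insert_self _ _))).symm
      · exact (prime_not_dvd_mT a T ha).symm
    have hcz : IsCoprime ((K * mT T : ℕ) : ℤ) ((a : ℕ) : ℤ) := Nat.isCoprime_iff_coprime.2 hcop
    have hx : ∀ i, ∃ x : ℤ, ((K * mT T : ℕ) : ℤ) ∣ x - u i ∧
        ((a : ℕ) : ℤ) ∣ x - ((c a (Finset.mem_insert_self _ _) i).val : ℤ) := fun i => crt2 _ _ hcz _ _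
    choose x hx1 hx2 using hx
    refine ⟨x, fun i => ?_, fun l hl => ?_⟩
    · have h1 := ((dvd_iff K T hT _).1 (hx1 i)).1
      have e : x i - u0 i = (x i - u i) + (u i - u0 i) := by ring
      rw [e]
      exact dvd_add h1 (hu1 i)
    · rcases Finset.mem_insert.1 hl with h1 | h1
      · subst h1
        funext i
        unfold res
        have h2 := (ZMod.intCast_zmod_eq_zero_iff_dvd _ _).2 (hx2 i)
        push_cast at h2
        rw [ZMod.natCast_val, ZMod.cast_id', id] at h2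
        linear_combination h2
      · funext i
        rw [← hu2 l h1]
        unfold res
        have h3 := ((dvd_iff K T hT _).1 (hx1 i)).2 l h1
        have h2 := (ZMod.intCast_zmod_eq_zero_iff_dvd _ _).2 h3
        push_cast at h2
        linear_combination h2

theorem good_mul (n K : ℕ) (h4 : 4 ∣ K) (u0 u : Fin 4 → ℤ) (hu0 : GoodG n K u0) (T : Finset Nat.Primes)
    (hT : ∀ l ∈ T, ¬ (l : ℕ) ∣ K) (h1 : ∀ i, (K : ℤ) ∣ u i - u0 i)
    (h2 : ∀ l ∈ T, res l u ∈ C4 (l : ℕ) n) : GoodG n (K * mT T) u := by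
  have hg : GoodG n K u := goodG_congr n K h4 u0 u (fun i => by
    rw [← neg_sub]; exact (h1 i).neg_right) hu0
  have h2T : ∀ l ∈ T, ¬ (l : ℕ) ∣ 2 * K := by
    intro l hl hd
    rcases l.2.dvd_mul.1 hd with h | h
    · have := (Nat.prime_dvd_prime_iff_eq l.2 Nat.prime_two).1 h
      apply hT l hl
      rw [this]
      exact (by norm_num : (2 : ℕ) ∣ 4).trans h4
    · exact hT l hl h
  refine ⟨?_, ?_⟩
  · have e : (2 * ((K * mT T : ℕ) : ℤ)) = (((2 * K) * mT T : ℕ) : ℤ) := by push_cast; ring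
    rw [e, dvd_iff (2 * K) T h2T]
    refine ⟨?_, fun l hl => ?_⟩
    · have := hg.1
      push_cast
      exact this
    · have h3 := h2 l hl
      unfold C4 at h3
      rw [mem_filter] at h3
      rw [← ZMod.intCast_zmod_eq_zero_iff_dvd]
      push_cast
      have h4' := h3.2.1
      unfold res at h4'
      rw [h4', sub_self]
  · intro l hl hd
    rcases hl.dvd_mul.1 hd with h | h
    · exact hg.2 l hl h
    · unfold mT at h
      obtain ⟨a, ha, hla⟩ := (hl.prime.dvd_finsetProd_iff _).1 h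
      have e : l = (a : ℕ) := (Nat.prime_dvd_prime_iff_eq hl a.2).1 hla
      have h3 := h2 a ha
      unfold C4 at h3
      rw [mem_filter] at h3
      by_contra hcon
      push Not at hcon
      apply h3.2.2
      funext i
      unfold res
      rw [Pi.zero_apply, ZMod.intCast_zmod_eq_zero_iff_dvd, ← e]
      exact hcon i

theorem cls_eq (n K : ℕ) (u0 u : Fin 4 → ℤ) (T : Finset Nat.Primes) (hT : ∀ l ∈ T, ¬ (l : ℕ) ∣ K)
    (h1 : ∀ i, (K : ℤ) ∣ u i - u0 i) (c : ∀ l ∈ T, Fin 4 → ZMod (l : ℕ)) (hc : ∀ l (hl : l ∈ T), res l u = c l hl) :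
    cls (repsc n K u0) res T c = repsc n (K * mT T) u := by
  classical
  ext X
  unfold cls
  rw [mem_filter, mem_repsc, mem_repsc]
  constructor
  · rintro ⟨⟨a1, a2⟩, a3⟩
    refine ⟨a1, fun i => ?_⟩
    rw [dvd_iff K T hT]
    refine ⟨?_, fun l hl => ?_⟩
    · have e : X i - u i = (X i - u0 i) - (u i - u0 i) := by ring
      rw [e]
      exact dvd_sub (a2 i) (h1 i)
    · have h3 := congrFun ((a3 l hl).trans (hc l hl).symm) i
      unfold res at h3
      rw [← ZMod.intCast_zmod_eq_zero_iff_dvd]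
      push_cast
      rw [h3, sub_self]
  · rintro ⟨a1, a2⟩
    refine ⟨⟨a1, fun i => ?_⟩, fun l hl => ?_⟩
    · have h3 := ((dvd_iff K T hT _).1 (a2 i)).1
      have e : X i - u0 i = (X i - u i) + (u i - u0 i) := by ring
      rw [e]
      exact dvd_add h3 (h1 i)
    · rw [← hc l hl]
      funext i
      have h3 := ((dvd_iff K T hT _).1 (a2 i)).2 l hl
      have h2 := (ZMod.intCast_zmod_eq_zero_iff_dvd _ _).2 h3
      push_cast at h2
      unfold res
      linear_combination h2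

/-- equidistribution -/
theorem equi : ∃ C : ℝ, 0 < C ∧ ∀ (n K : ℕ), 1 ≤ n → 0 < K → 4 ∣ K → ∀ u0 : Fin 4 → ℤ, GoodG n K u0 →
    ∀ T : Finset Nat.Primes, (∀ l ∈ T, ¬ (l : ℕ) ∣ K) → ∀ c ∈ T.pi (fun l => C4 (l : ℕ) n),
      ∀ c' ∈ T.pi (fun l => C4 (l : ℕ) n),
      |((cls (repsc n K u0) res T c).card : ℝ) - (cls (repsc n K u0) res T c').card| ≤
        C * ((K * mT T : ℕ) : ℝ) ^ 11 * (n : ℝ) ^ (19 / 20 : ℝ) := by
  classical
  obtain ⟨C, hC, h⟩ := class_boundG
  refine ⟨C, hC, fun n K hn hK h4 u0 hu0 T hT c hc c' hc' => ?_⟩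
  rw [Finset.mem_pi] at hc hc'
  obtain ⟨u, hu1, hu2⟩ := crtT K u0 T hT c
  obtain ⟨u', hu1', hu2'⟩ := crtT K u0 T hT c'
  rw [cls_eq n K u0 u T hT hu1 c hu2, cls_eq n K u0 u' T hT hu1' c' hu2']
  apply h n (K * mT T) hn (Nat.mul_pos hK (mT_pos T)) (h4.mul_right _)
  · exact good_mul n K h4 u0 u hu0 T hT hu1 (fun l hl => by rw [hu2 l hl]; exact hc l hl)
  · exact good_mul n K h4 u0 u' hu0 T hT hu1' (fun l hl => by rw [hu2' l hl]; exact hc' l hl)

end Pool.Agent.R154.FT
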