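import Pool.Agent.TH696.FA.Final
import Pool.Agent.R154.FT.Equi
import Pool.Agent.R154.FT.Eng

/-!
# The bad pairs of exponents modulo a prime `l`
-/

set_option autoImplicit false
open Finset

namespace Pool.Agent.R154.FT
open Pool.Agent.W65.FS Pool.Agent.TH696.FA

/-- the bad pairs of exponents modulo `l` -/
noncomputable def bad (K Z : ℕ) (b0 : ℤ) (l : ℕ) [Fact l.Prime] : Finset (ZMod l × ZMod l) := by
  classical
  exact univ.filter (fun p => ∃ q a b : ℕ, q.Prime ∧ q ≠ 2 ∧ q ≤ Z ∧ l ∣ orderOf (2 : ZMod q) ∧ K ∣ a ∧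
    (K : ℤ) ∣ b - b0 ∧ (a : ZMod l) = p.1 ∧ (b : ZMod l) = p.2 ∧ q ∣ 2 ^ a + 2 ^ b + 1)

theorem mem_bad (K Z : ℕ) (b0 : ℤ) (l : ℕ) [Fact l.Prime] (p : ZMod l × ZMod l) : p ∈ bad K Z b0 l ↔
    ∃ q a b : ℕ, q.Prime ∧ q ≠ 2 ∧ q ≤ Z ∧ l ∣ orderOf (2 : ZMod q) ∧ K ∣ a ∧
    (K : ℤ) ∣ b - b0 ∧ (a : ZMod l) = p.1 ∧ (b : ZMod l) = p.2 ∧ q ∣ 2 ^ a + 2 ^ b + 1 := by
  classical
  unfold bad
  rw [mem_filter]
  simp only [mem_univ, true_and]

/-- the assumptions on the modulus -/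
structure Mod (K1 Y Z : ℕ) : Prop where
  pos : 0 < K1
  smooth : ∀ d : ℕ, 0 < d → d ≤ Z → (∀ p : ℕ, p.Prime → p ∣ d → p ≤ Y) → d ∣ K1
  nd : ∀ l : ℕ, l.Prime → Y < l → ¬ l ∣ K1
  YZ : Z < Y ^ 2
  Y2 : 2 ≤ Y

theorem ord_dvd {K1 Y Z : ℕ} (h : Mod K1 Y Z) {q l : ℕ} [Fact q.Prime] (hq2 : q ≠ 2) (hqZ : q ≤ Z) (hl : l.Prime)
    (hlY : Y < l) (hlo : l ∣ orderOf (2 : ZMod q)) : q - 1 ∣ K1 * l := by
  have hq : q.Prime := Fact.out
  have h20 : (2 : ZMod q) ≠ 0 := by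
    intro h
    have h3 : ((2 : ℕ) : ZMod q) = 0 := by exact_mod_cast h
    rw [ZMod.natCast_eq_zero_iff] at h3
    exact hq2 ((Nat.prime_dvd_prime_iff_eq hq Nat.prime_two).1 h3)
  have h1 : orderOf (2 : ZMod q) ∣ q - 1 := orderOf_dvd_of_pow_eq_one (ZMod.pow_card_sub_one_eq_one h20)
  obtain ⟨k, hk⟩ := hlo.trans h1
  have hq1 : 0 < q - 1 := by have := hq.two_le; omega
  have hk0 : 0 < k := by
    rcases Nat.eq_zero_or_pos k with h0 | h0
    · rw [h0, mul_zero] at hk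
      omega
    · exact h0
  have hkY : k < Y := by
    by_contra hcon
    push Not at hcon
    have h2 : Y * Y ≤ l * k := Nat.mul_le_mul hlY.le hcon
    have h3 := h.YZ
    rw [pow_two] at h3
    omega
  have hkZ : k ≤ Z := by
    have h3 := h.YZ
    have : k ≤ l * k := Nat.le_mul_of_pos_left k hl.pos
    omega
  have h2 : k ∣ K1 := h.smooth k hk0 hkZ (fun p _ hp => (Nat.le_of_dvd hk0 hp).trans hkY.le)
  rw [hk, mul_comm l k]
  exact Nat.mul_dvd_mul_right h2 l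

theorem pow_congr {q : ℕ} [Fact q.Prime] (h20 : (2 : ZMod q) ≠ 0) (M a a' : ℕ) (hM : q - 1 ∣ M)
    (h : (M : ℤ) ∣ a - a') : (2 : ZMod q) ^ a = 2 ^ a' := by
  have h1 : (2 : ZMod q) ^ (q - 1) = 1 := ZMod.pow_card_sub_one_eq_one h20
  have key : ∀ i j : ℕ, i ≤ j → ((M : ℤ) ∣ (j : ℤ) - i) → (2 : ZMod q) ^ i = 2 ^ j := by
    intro i j hij hd
    have hd' : M ∣ j - i := by
      rw [← Int.natCast_dvd_natCast, Nat.cast_sub hij]
      exact hd
    obtain ⟨t, ht⟩ := hM.trans hd'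
    have e : j = i + (q - 1) * t := by omega
    rw [e, pow_add, pow_mul, h1, one_pow, mul_one]
  rcases le_total a a' with h2 | h2
  · apply key a a' h2
    rw [← neg_sub]
    exact h.neg_right
  · exact (key a' a h2 h).symm

theorem two_ne {q : ℕ} [Fact q.Prime] (hq2 : q ≠ 2) : (2 : ZMod q) ≠ 0 := by
  intro h
  have h3 : ((2 : ℕ) : ZMod q) = 0 := by exact_mod_cast h
  rw [ZMod.natCast_eq_zero_iff] at h3
  exact hq2 ((Nat.prime_dvd_prime_iff_eq (Fact.out : q.Prime) Nat.prime_two).1 h3)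

theorem crt_dvd {K1 Y Z : ℕ} (h : Mod K1 Y Z) {l : ℕ} (hl : l.Prime) (hlY : Y < l) (z : ℤ)
    (h1 : ((4 * K1 : ℕ) : ℤ) ∣ z) (h2 : (l : ℤ) ∣ z) : ((K1 * l : ℕ) : ℤ) ∣ z := by
  have h3 : ((K1 : ℕ) : ℤ) ∣ z := (Int.natCast_dvd_natCast.2 (dvd_mul_left _ _)).trans h1
  push_cast
  exact IsCoprime.mul_dvd (Nat.isCoprime_iff_coprime.2
    ((Nat.Prime.coprime_iff_not_dvd hl).2 (h.nd l hl hlY)).symm) h3 h2

/-- there are few bad pairs -/
theorem bad_card {K1 Y Z : ℕ} (h : Mod K1 Y Z) (b0 : ℤ) (l : ℕ) [Fact l.Prime] (hlY : Y < l) :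
    (bad (4 * K1) Z b0 l).card ≤ Z := by
  classical
  have hl : l.Prime := Fact.out
  choose! q a b hq hq2 hqZ hlo hKa hKb ha hb hN using fun p (hp : p ∈ bad (4 * K1) Z b0 l) => (mem_bad _ _ _ _ p).1 hp
  have hdvd : ∀ p ∈ bad (4 * K1) Z b0 l, l ∣ q p - 1 := by
    intro p hp
    haveI : Fact (q p).Prime := ⟨hq p hp⟩
    exact (hlo p hp).trans (orderOf_dvd_of_pow_eq_one (ZMod.pow_card_sub_one_eq_one (two_ne (hq2 p hp))))
  have hc : (bad (4 * K1) Z b0 l).card ≤ (Icc 1 (Z / l) ×ˢ (univ : Finset (ZMod l))).card := by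
    refine Finset.card_le_card_of_injOn (fun p => ((q p - 1) / l, p.1)) ?_ ?_
    · intro p hp
      rw [mem_coe] at hp
      rw [mem_coe, mem_product, mem_Icc]
      refine ⟨⟨?_, ?_⟩, mem_univ _⟩
      · obtain ⟨k, hk⟩ := hdvd p hp
        have h1 := (hq p hp).two_le
        simp only
        rw [hk, Nat.mul_div_cancel_left _ hl.pos]
        rcases Nat.eq_zero_or_pos k with h0 | h0
        · rw [h0, mul_zero] at hk
          omega
        · exact h0
      · simp only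
        apply Nat.div_le_div_right
        have := hqZ p hp
        omega
    · intro p hp p' hp' he
      rw [mem_coe] at hp hp'
      simp only [Prod.mk.injEq] at he
      obtain ⟨he1, he2⟩ := he
      obtain ⟨k, hk⟩ := hdvd p hp
      obtain ⟨k', hk'⟩ := hdvd p' hp'
      rw [hk, hk', Nat.mul_div_cancel_left _ hl.pos, Nat.mul_div_cancel_left _ hl.pos] at he1
      have hqq : q p = q p' := by
        have h1 := (hq p hp).two_le
        have h2 := (hq p' hp').two_le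
        rw [← he1] at hk'
        omega
      haveI : Fact (q p).Prime := ⟨hq p hp⟩
      have h20 := two_ne (q := q p) (hq2 p hp)
      have hod := ord_dvd h (hq2 p hp) (hqZ p hp) hl hlY (hlo p hp)
      have e1 : (2 : ZMod (q p)) ^ (a p) = 2 ^ (a p') := by
        apply pow_congr h20 _ _ _ hod
        apply crt_dvd h hl hlY
        · exact dvd_sub (Int.natCast_dvd_natCast.2 (hKa p hp)) (Int.natCast_dvd_natCast.2 (hKa p' hp'))
        · rw [← ZMod.intCast_zmod_eq_zero_iff_dvd]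
          push_cast
          rw [ha p hp, ha p' hp', he2, sub_self]
      have n1 : (2 : ZMod (q p)) ^ (a p) + 2 ^ (b p) + 1 = 0 := by
        have := (ZMod.natCast_eq_zero_iff _ _).2 (hN p hp)
        push_cast at this
        exact this
      have n2 : (2 : ZMod (q p)) ^ (a p') + 2 ^ (b p') + 1 = 0 := by
        have h3 := hN p' hp'
        rw [← hqq] at h3
        have := (ZMod.natCast_eq_zero_iff _ _).2 h3
        push_cast at this
        exact this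
      have e2 : (2 : ZMod (q p)) ^ (b p) = 2 ^ (b p') := by
        linear_combination n1 - n2 - e1
      -- in the group of units
      have e3 : (Units.mk0 (2 : ZMod (q p)) h20) ^ (b p) = (Units.mk0 (2 : ZMod (q p)) h20) ^ (b p') := by
        apply Units.ext
        push_cast
        simp only [Units.val_mk0]
        exact e2
      rw [pow_eq_pow_iff_modEq] at e3
      have e4 : orderOf (Units.mk0 (2 : ZMod (q p)) h20) = orderOf (2 : ZMod (q p)) := by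
        rw [← orderOf_units, Units.val_mk0]
      rw [e4] at e3
      have e5 : b p ≡ b p' [MOD l] := e3.of_dvd (hlo p hp)
      apply Prod.ext he2
      rw [← hb p hp, ← hb p' hp']
      exact (ZMod.natCast_eq_natCast_iff _ _ _).2 e5
  refine hc.trans ?_
  rw [card_product, Nat.card_Icc, card_univ, ZMod.card, Nat.add_sub_cancel]
  exact Nat.div_mul_le_self Z l

/-- the pairs `(0, β)` are not bad -/
theorem not_bad_zero {K1 Y Z : ℕ} (h : Mod K1 Y Z) (v L : ℕ) (hK : K1 = 2 ^ v * L) (hL : Odd L) (b0 : ℤ)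
    (hb0 : (2 : ℤ) ^ (v + 2) ∣ b0 - 1) (l : ℕ) [Fact l.Prime] (hlY : Y < l) (β : ZMod l) :
    ((0, β) : ZMod l × ZMod l) ∉ bad (4 * K1) Z b0 l := by
  classical
  have hl : l.Prime := Fact.out
  intro hp
  obtain ⟨q, a, b, hq, hq2, hqZ, hlo, hKa, hKb, ha, -, hN⟩ := (mem_bad _ _ _ _ _).1 hp
  haveI : Fact q.Prime := ⟨hq⟩
  have h20 := two_ne (q := q) hq2
  have hod := ord_dvd h hq2 hqZ hl hlY hlo
  have e1 : (2 : ZMod q) ^ a = 2 ^ 0 := by
    apply pow_congr h20 _ _ _ hod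
    apply crt_dvd h hl hlY
    · rw [Nat.cast_zero, sub_zero]
      exact Int.natCast_dvd_natCast.2 hKa
    · rw [Nat.cast_zero, sub_zero, ← ZMod.intCast_zmod_eq_zero_iff_dvd]
      simp only at ha
      exact_mod_cast ha
  have n1 : (2 : ZMod q) ^ a + 2 ^ b + 1 = 0 := by
    have := (ZMod.natCast_eq_zero_iff _ _).2 hN
    push_cast at this
    exact this
  rw [e1, pow_zero] at n1
  -- `b ≡ 1` modulo `2 ^ (v+2)`
  have hb1 : (2 : ℤ) ^ (v + 2) ∣ (b : ℤ) - 1 := by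
    have h1 : (2 : ℤ) ^ (v + 2) ∣ ((4 * K1 : ℕ) : ℤ) := ⟨L, by rw [hK]; push_cast; ring⟩
    have e : (b : ℤ) - 1 = (b - b0) + (b0 - 1) := by ring
    rw [e]
    exact dvd_add (h1.trans hKb) hb0
  have hb2 : 1 ≤ b := by
    rcases Nat.eq_zero_or_pos b with h0 | h0
    · exfalso
      rw [h0] at hb1
      have h4 : (4 : ℤ) ∣ 2 ^ (v + 2) := ⟨2 ^ v, by ring⟩
      have := h4.trans hb1
      simp at this
    · exact h0
  have e2 : (2 : ZMod q) ^ (b - 1) = -1 := by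
    have e : (2 : ZMod q) ^ b = 2 * 2 ^ (b - 1) := by
      conv_lhs => rw [← Nat.sub_add_cancel hb2, pow_succ]
      ring
    rw [e] at n1
    have h5 : (2 : ZMod q) * (2 ^ (b - 1) + 1) = 0 := by linear_combination n1
    rcases mul_eq_zero.1 h5 with h6 | h6
    · exact absurd h6 h20
    · linear_combination h6
  have hb3 : 2 ^ v ∣ b - 1 := by
    have h6 : (2 : ℤ) ^ v ∣ ((b - 1 : ℕ) : ℤ) := by
      rw [Nat.cast_sub hb2]
      push_cast
      exact (pow_dvd_pow 2 (by omega)).trans hb1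
    exact_mod_cast h6
  obtain ⟨r, hr⟩ := hb3
  have hodd : Odd (L * l) := by
    apply hL.mul
    rcases hl.eq_two_or_odd' with h2 | h2
    · have := h.Y2
      omega
    · exact h2
  have h5 : ((2 : ZMod q) ^ (b - 1)) ^ (L * l) = 1 := by
    rw [hr, ← pow_mul]
    have e : 2 ^ v * r * (L * l) = (K1 * l) * r := by rw [hK]; ring
    rw [e, pow_mul]
    have h7 : (2 : ZMod q) ^ (K1 * l) = 1 := by
      obtain ⟨t, ht⟩ := hod
      rw [ht, pow_mul, ZMod.pow_card_sub_one_eq_one h20, one_pow]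
    rw [h7, one_pow]
  rw [e2, hodd.neg_one_pow] at h5
  apply h20
  linear_combination -h5

/-- pairs of exponents which are nowhere bad -/
theorem no_small {K1 Y Z : ℕ} (h : Mod K1 Y Z) (v L : ℕ) (hK : K1 = 2 ^ v * L) (hL : Odd L) (b0 : ℤ) (a b : ℕ)
    (ha1 : 1 ≤ a) (ha : 4 * K1 ∣ a) (hb1 : 1 ≤ b) (hb : ((4 * K1 : ℕ) : ℤ) ∣ b - b0)
    (hb0 : (2 : ℤ) ^ (v + 2) ∣ b0 - 1)
    (hl : ∀ l : Nat.Primes, Y < (l : ℕ) → (l : ℕ) ≤ Z → (((a : ZMod (l : ℕ)), (b : ZMod (l : ℕ))) : ZMod (l : ℕ) × ZMod (l : ℕ)) ∉ bad (4 * K1) Z b0 (l : ℕ))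
    (q : ℕ) (hq : q.Prime) (hqN : q ∣ 2 ^ a + 2 ^ b + 1) : Z < q := by
  by_contra hcon
  push Not at hcon
  have hb2 : (2 : ℤ) ^ (v + 2) ∣ (b : ℤ) - 1 := by
    have h1 : (2 : ℤ) ^ (v + 2) ∣ ((4 * K1 : ℕ) : ℤ) := ⟨L, by rw [hK]; push_cast; ring⟩
    have e : (b : ℤ) - 1 = (b - b0) + (b0 - 1) := by ring
    rw [e]
    exact dvd_add (h1.trans hb) hb0
  have hb3 : 2 ^ v ∣ b - 1 := by
    have h6 : (2 : ℤ) ^ v ∣ ((b - 1 : ℕ) : ℤ) := by
      rw [Nat.cast_sub hb1]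
      push_cast
      exact (pow_dvd_pow 2 (by omega)).trans hb2
    exact_mod_cast h6
  have ha2 : 2 ^ v * L ∣ a := by
    rw [← hK]
    exact (dvd_mul_left _ _).trans ha
  have hcop := coprime_main v L a b hL ha2 ha1 hb1 hb3
  rw [← hK] at hcop
  have hcq : Nat.Coprime q (2 * (2 ^ K1 - 1)) := Nat.Coprime.coprime_dvd_left hqN hcop
  rw [Nat.Prime.coprime_iff_not_dvd hq] at hcq
  apply hcq
  by_cases hq2 : q = 2
  · rw [hq2]; exact dvd_mul_right _ _
  haveI : Fact q.Prime := ⟨hq⟩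
  have h20 := two_ne (q := q) hq2
  have ho : orderOf (2 : ZMod q) ∣ q - 1 := orderOf_dvd_of_pow_eq_one (ZMod.pow_card_sub_one_eq_one h20)
  have hq1 : 0 < q - 1 := by have := hq.two_le; omega
  have hok : orderOf (2 : ZMod q) ≤ q - 1 := Nat.le_of_dvd hq1 ho
  have ho0 : 0 < orderOf (2 : ZMod q) := Nat.pos_of_dvd_of_pos ho hq1
  by_cases hex : ∃ l : ℕ, l.Prime ∧ Y < l ∧ l ∣ orderOf (2 : ZMod q)
  · exfalso
    obtain ⟨l, hlp, hlY, hlo⟩ := hex
    have hlZ : l ≤ Z := by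
      have := Nat.le_of_dvd ho0 hlo
      omega
    apply hl ⟨l, hlp⟩ hlY hlZ
    rw [mem_bad]
    exact ⟨q, a, b, hq, hq2, hcon, hlo, ha, hb, rfl, rfl, hqN⟩
  · push Not at hex
    have h1 : orderOf (2 : ZMod q) ∣ K1 := by
      apply h.smooth _ ho0 (by omega)
      intro p hp hpo
      by_contra hpY
      push Not at hpY
      exact hex p hp hpY hpo
    have h2 : (2 : ZMod q) ^ K1 = 1 := orderOf_dvd_iff_pow_eq_one.1 h1
    apply Dvd.dvd.mul_left
    rw [← ZMod.natCast_eq_zero_iff, Nat.cast_sub Nat.one_le_two_pow]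
    push_cast
    rw [h2, sub_self]

end Pool.Agent.R154.FT
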