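import Pool.Agent.R154.FT.Sieve1

/-!
# The sieve over the classes of representations
-/

set_option autoImplicit false
open Finset

namespace Pool.Agent.R154.FT
open Pool.Agent.W65.FS Pool.Agent.TH696.FA

theorem exp_le_one_sub (x : ℝ) (h0 : 0 ≤ x) (h1 : x ≤ 1 / 2) : Real.exp (-(2 * x)) ≤ 1 - x := by
  have h2 : 1 + 2 * x ≤ Real.exp (2 * x) := by
    have := Real.add_one_le_exp (2 * x)
    linarith
  rw [Real.exp_neg, inv_eq_one_div, div_le_iff₀ (Real.exp_pos _)]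
  have h3 : 1 ≤ (1 - x) * (1 + 2 * x) := by nlinarith
  calc (1 : ℝ) ≤ (1 - x) * (1 + 2 * x) := h3
    _ ≤ (1 - x) * Real.exp (2 * x) := by
        apply mul_le_mul_of_nonneg_left h2
        linarith

theorem tail_bound (E : ℝ) (hE : 0 ≤ E) (m : ℕ) (hm : 5 * E + 1 ≤ m) :
    E ^ m / m.factorial ≤ 1 / 2 * Real.exp (-(2 * E)) := by
  have h1 := Real.pow_div_factorial_le_exp (E * Real.exp 2) (by positivity) m
  have he : Real.exp 2 ≤ 8 := by
    have e1 : Real.exp 2 = Real.exp 1 * Real.exp 1 := by rw [← Real.exp_add]; norm_num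
    have := Real.exp_one_lt_d9
    have h0 := Real.exp_pos 1
    rw [e1]
    nlinarith
  have h2 : E ^ m / m.factorial = ((E * Real.exp 2) ^ m / m.factorial) * Real.exp (-(2 * m)) := by
    rw [mul_pow, ← Real.exp_nat_mul]
    have e2 : Real.exp (-(2 * (m : ℝ))) = (Real.exp (m * 2))⁻¹ := by
      rw [← Real.exp_neg]
      congr 1
      ring
    rw [e2]
    have := (Real.exp_pos (m * 2)).ne'
    field_simp
  rw [h2]
  have h3 : Real.exp (E * Real.exp 2) ≤ Real.exp (8 * E) := by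
    apply Real.exp_le_exp.2
    nlinarith
  have h4 : Real.exp (-2) ≤ 1 / 2 := by
    have := exp_le_one_sub (1 / 2) (by norm_num) (by norm_num)
    have h5 : Real.exp (-2) ≤ Real.exp (-(2 * (1 / 2))) := by
      apply Real.exp_le_exp.2
      norm_num
    linarith
  calc ((E * Real.exp 2) ^ m / m.factorial) * Real.exp (-(2 * m))
      ≤ Real.exp (8 * E) * Real.exp (-(2 * m)) := by
        gcongr
        exact h1.trans h3
    _ = Real.exp (8 * E - 2 * m) := by rw [← Real.exp_add]; congr 1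
    _ ≤ Real.exp (-2 + -(2 * E)) := by
        apply Real.exp_le_exp.2
        linarith
    _ = Real.exp (-2) * Real.exp (-(2 * E)) := by rw [Real.exp_add]
    _ ≤ 1 / 2 * Real.exp (-(2 * E)) := by gcongr

theorem card_small {ι : Type*} [DecidableEq ι] (L : Finset ι) (N r : ℕ) (hL : L.card ≤ N) :
    (L.powerset.filter (fun T => T.card ≤ r)).card ≤ (r + 1) * (N + 1) ^ r := by
  have hsub : L.powerset.filter (fun T => T.card ≤ r) ⊆ (range (r + 1)).biUnion (fun i => powersetCard i L) := by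
    intro T hT
    rw [mem_filter, mem_powerset] at hT
    rw [mem_biUnion]
    refine ⟨T.card, mem_range.2 (by omega), ?_⟩
    rw [mem_powersetCard]
    exact ⟨hT.1, rfl⟩
  refine (card_le_card hsub).trans (card_biUnion_le.trans ?_)
  have h1 : ∀ i ∈ range (r + 1), (powersetCard i L).card ≤ (N + 1) ^ r := by
    intro i hi
    rw [mem_range] at hi
    rw [card_powersetCard]
    calc L.card.choose i ≤ L.card ^ i := Nat.choose_le_pow _ _
      _ ≤ (N + 1) ^ i := Nat.pow_le_pow_left (by omega) i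
      _ ≤ (N + 1) ^ r := Nat.pow_le_pow_right (by omega) (by omega)
  refine (sum_le_card_nsmul _ _ _ h1).trans ?_
  rw [card_range, smul_eq_mul]

theorem sum_win (Y Z : ℕ) (hY : 0 < Y) : ∑ l ∈ win Y Z, (((l : ℕ) : ℝ) ^ 2)⁻¹ ≤ 1 / Y := by
  have h1 : ∑ l ∈ win Y Z, (((l : ℕ) : ℝ) ^ 2)⁻¹ = ∑ x ∈ (Finset.Ioc Y Z).filter Nat.Prime, ((x : ℝ) ^ 2)⁻¹ :=
    Finset.sum_subtype_eq_sum_filter (fun x : ℕ => ((x : ℝ) ^ 2)⁻¹)
  rw [h1]
  have h2 : ∑ x ∈ (Finset.Ioc Y Z).filter Nat.Prime, ((x : ℝ) ^ 2)⁻¹ ≤ ∑ x ∈ Finset.Ioc Y Z, ((x : ℝ) ^ 2)⁻¹ := by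
    apply Finset.sum_le_sum_of_subset_of_nonneg (Finset.filter_subset _ _)
    intro i _ _
    positivity
  refine h2.trans ?_
  by_cases h : Y ≤ Z
  · have h3 := sum_Ioc_inv_sq_le_sub (α := ℝ) hY.ne' h
    have h4 : (0 : ℝ) ≤ (Z : ℝ)⁻¹ := by positivity
    rw [one_div]
    linarith
  · rw [Finset.Ioc_eq_empty (by omega), Finset.sum_empty]
    positivity

theorem card_win (Y Z : ℕ) : (win Y Z).card ≤ Z := by
  have h1 : (win Y Z).card = ((Finset.Ioc Y Z).filter Nat.Prime).card := Finset.card_subtype _ _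
  rw [h1]
  refine (Finset.card_filter_le _ _).trans ?_
  rw [Nat.card_Ioc]
  omega

/-- **the sieve** -/
theorem sieve : ∃ C0 : ℝ, 0 < C0 ∧ ∀ (n K1 Y Z : ℕ), Mod K1 Y Z → 1 ≤ n → ∀ (v L : ℕ), K1 = 2 ^ v * L → Odd L →
    ∀ (b0 : ℤ), (2 : ℤ) ^ (v + 2) ∣ b0 - 1 → ∀ (P Q N P' Q' N' : ℤ), P ^ 2 + Q ^ 2 = N ^ 2 →
    P' ^ 2 + Q' ^ 2 = N' ^ 2 → ∀ (D' : ℕ), N ∣ (D' : ℤ) → N' ∣ (D' : ℤ) → 0 < D' → 4 ∣ D' →
    ∀ u' : Fin 4 → ℤ, GoodG n D' u' →
    (∀ X ∈ repsc n D' u', N ^ 2 ∣ X 0 ∧ N ^ 2 ∣ X 1 ∧ N' ^ 2 ∣ X 2 ∧ N' ^ 2 ∣ X 3) →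
    (∀ l ∈ win Y Z, ¬ (l : ℕ) ∣ D') → 12 ≤ Y → 1 ≤ Z → 200 * Z ≤ Y ^ 2 →
    ∀ r : ℕ, Odd r → 500 * ((Z : ℝ) / Y) + 1 ≤ ((r + 1 : ℕ) : ℝ) →
    ∃ S ⊆ repsc n D' u',
      ((repsc n D' u').card : ℝ) * (1 / 2 * Real.exp (-(200 * ((Z : ℝ) / Y)))) -
        ((((r + 1) * (Z + 1) ^ r : ℕ) : ℝ) * ((50 * (Z : ℝ) ^ 2 + 1) ^ r *
          (C0 * ((D' * Z ^ r : ℕ) : ℝ) ^ 11 * (n : ℝ) ^ (19 / 20 : ℝ)))) ≤ (S.card : ℝ) ∧
      ∀ X ∈ S, ∀ k, ∀ l ∈ win Y Z, ((((rotv P Q N P' Q' N' k X 0 + rotv P Q N P' Q' N' k X 1 : ℤ) : ZMod (l : ℕ)),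
      ((rotv P Q N P' Q' N' k X 2 + rotv P Q N P' Q' N' k X 3 : ℤ) : ZMod (l : ℕ))) : ZMod (l : ℕ) × ZMod (l : ℕ)) ∉
        bad (4 * K1) Z b0 (l : ℕ) := by
  classical
  obtain ⟨C0, hC0, heq⟩ := equi
  refine ⟨C0, hC0, ?_⟩
  intro n K1 Y Z hM hn v L hK hL b0 hb0 P Q N P' Q' N' hs hs' D' hND hND' hD'0 h4 u' hu' hdiv hl hY hZ hYZ r hr hrE
  set B : ∀ l : Nat.Primes, Finset (Fin 4 → ZMod (l : ℕ)) :=
    fun l => if Y < (l : ℕ) then BB1 n (4 * K1) Z b0 P Q N P' Q' N' (l : ℕ) else ∅ with hB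
  set C : ∀ l : Nat.Primes, Finset (Fin 4 → ZMod (l : ℕ)) :=
    fun l => if Y < (l : ℕ) then C4 (l : ℕ) n else Finset.univ with hC
  have hBC : ∀ l, B l ⊆ C l := by
    intro l
    simp only [hB, hC]
    by_cases h1 : Y < (l : ℕ)
    · rw [if_pos h1, if_pos h1]
      intro u hu
      rw [mem_BB1] at hu
      exact hu.1
    · rw [if_neg h1]
      exact Finset.empty_subset _
  have hCc : ∀ l : Nat.Primes, Y < (l : ℕ) → (l : ℕ) ^ 3 ≤ 2 * (C4 (l : ℕ) n).card :=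
    fun l h1 => C4_card (l : ℕ) n (by omega)
  have hCn : ∀ l, (C l).Nonempty := by
    intro l
    simp only [hC]
    by_cases h1 : Y < (l : ℕ)
    · rw [if_pos h1]
      rw [← Finset.card_pos]
      have h2 := hCc l h1
      have h3 : 0 < (l : ℕ) ^ 3 := by have := l.2.pos; positivity
      omega
    · rw [if_neg h1]
      exact Finset.univ_nonempty
  have hlN : ∀ l ∈ win Y Z, ¬ (((l : ℕ) : ℤ) ∣ N) := by
    intro l hl' hd
    exact hl l hl' (Int.natCast_dvd_natCast.1 (hd.trans hND))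
  have hlN' : ∀ l ∈ win Y Z, ¬ (((l : ℕ) : ℤ) ∣ N') := by
    intro l hl' hd
    exact hl l hl' (Int.natCast_dvd_natCast.1 (hd.trans hND'))
  have hBc : ∀ l ∈ win Y Z, (B l).card ≤ 50 * Z * (l : ℕ) := by
    intro l hl'
    have h1 := ((mem_win Y Z l).1 hl').1
    simp only [hB]
    rw [if_pos h1]
    exact card_BB1 hM n b0 P Q N P' Q' N' hs hs' (l : ℕ) h1 (hlN l hl') (hlN' l hl')
  have hBM : ∀ l ∈ win Y Z, ((B l).card : ℝ) ≤ 50 * (Z : ℝ) ^ 2 + 1 := by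
    intro l hl'
    have h1 := hBc l hl'
    have h2 := ((mem_win Y Z l).1 hl').2
    have h3 : (B l).card ≤ 50 * Z ^ 2 + 1 := by
      calc (B l).card ≤ 50 * Z * (l : ℕ) := h1
        _ ≤ 50 * Z * Z := Nat.mul_le_mul_left _ h2
        _ ≤ 50 * Z ^ 2 + 1 := by nlinarith
    exact_mod_cast h3
  set e : ℝ := C0 * ((D' * Z ^ r : ℕ) : ℝ) ^ 11 * (n : ℝ) ^ (19 / 20 : ℝ) with he
  have he0 : 0 ≤ e := by positivity
  have hee : ∀ T ⊆ win Y Z, T.card ≤ r → ∀ c ∈ T.pi C, ∀ c' ∈ T.pi C,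
      |((cls (repsc n D' u') res T c).card : ℝ) - (cls (repsc n D' u') res T c').card| ≤ e := by
    intro T hT hTr c hc c' hc'
    have hpi : ∀ c, c ∈ T.pi C → c ∈ T.pi (fun l : Nat.Primes => C4 (l : ℕ) n) := by
      intro c hc
      rw [Finset.mem_pi] at hc ⊢
      intro a ha
      have h1 := hc a ha
      have h2 := ((mem_win Y Z a).1 (hT ha)).1
      simp only [hC] at h1
      rw [if_pos h2] at h1
      exact h1
    refine (heq n D' hn hD'0 h4 u' hu' T (fun l hl' => hl l (hT hl')) c (hpi c hc) c' (hpi c' hc')).trans ?_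
    rw [he]
    have hmT : mT T ≤ Z ^ r := by
      calc mT T ≤ ∏ _l ∈ T, Z := by
            unfold mT
            exact Finset.prod_le_prod' (fun l hl' => ((mem_win Y Z l).1 (hT hl')).2)
        _ = Z ^ T.card := by rw [Finset.prod_const]
        _ ≤ Z ^ r := Nat.pow_le_pow_right hZ hTr
    have h5 : ((D' * mT T : ℕ) : ℝ) ≤ ((D' * Z ^ r : ℕ) : ℝ) := by
      exact_mod_cast Nat.mul_le_mul_left _ hmT
    gcongr
  have hbon := bonf (repsc n D' u') res (win Y Z) B C hBC hCn r hr e (50 * (Z : ℝ) ^ 2 + 1) he0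
    (by nlinarith [sq_nonneg (Z : ℝ)]) hBM hee
  set β : Nat.Primes → ℝ := fun l => ((B l).card : ℝ) / (C l).card with hβ
  have hβ0 : ∀ l, 0 ≤ β l := fun l => by positivity
  have hYr : (12 : ℝ) ≤ Y := by exact_mod_cast hY
  have hβ1 : ∀ l ∈ win Y Z, β l ≤ 100 * Z * (((l : ℕ) : ℝ) ^ 2)⁻¹ := by
    intro l hl'
    have h1 := ((mem_win Y Z l).1 hl').1
    have h2 : (C l).card = (C4 (l : ℕ) n).card := by
      simp only [hC]
      rw [if_pos h1]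
    have h3 : ((l : ℕ) : ℝ) ^ 3 ≤ 2 * ((C l).card : ℝ) := by
      rw [h2]
      exact_mod_cast hCc l h1
    have h4 : ((B l).card : ℝ) ≤ 50 * Z * (l : ℕ) := by exact_mod_cast hBc l hl'
    have hl0 : (0 : ℝ) < (l : ℕ) := by exact_mod_cast l.2.pos
    have hC0' : (0 : ℝ) < (C l).card := by exact_mod_cast Finset.card_pos.2 (hCn l)
    simp only [hβ]
    rw [div_le_iff₀ hC0']
    calc ((B l).card : ℝ) ≤ 50 * Z * (l : ℕ) := h4
      _ = 50 * Z * (((l : ℕ) : ℝ) ^ 2)⁻¹ * ((l : ℕ) : ℝ) ^ 3 := by field_simp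
      _ ≤ 50 * Z * (((l : ℕ) : ℝ) ^ 2)⁻¹ * (2 * ((C l).card : ℝ)) := by gcongr
      _ = _ := by ring
  have hβ2 : ∀ l ∈ win Y Z, β l ≤ 1 / 2 := by
    intro l hl'
    refine (hβ1 l hl').trans ?_
    have h1 := ((mem_win Y Z l).1 hl').1
    have h2 : (200 : ℝ) * Z ≤ (Y : ℝ) ^ 2 := by exact_mod_cast hYZ
    have h3 : (Y : ℝ) ≤ (l : ℕ) := by exact_mod_cast h1.le
    have h4 : (Y : ℝ) ^ 2 ≤ ((l : ℕ) : ℝ) ^ 2 := by gcongr
    have hl0 : (0 : ℝ) < (l : ℕ) := by exact_mod_cast l.2.pos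
    rw [mul_inv_le_iff₀ (by positivity)]
    linarith
  have hsum : ∑ l ∈ win Y Z, β l ≤ 100 * ((Z : ℝ) / Y) := by
    calc ∑ l ∈ win Y Z, β l ≤ ∑ l ∈ win Y Z, 100 * Z * (((l : ℕ) : ℝ) ^ 2)⁻¹ := Finset.sum_le_sum hβ1
      _ = 100 * Z * ∑ l ∈ win Y Z, (((l : ℕ) : ℝ) ^ 2)⁻¹ := by rw [← Finset.mul_sum]
      _ ≤ 100 * Z * (1 / Y) := by
          gcongr
          exact sum_win Y Z (by omega)
      _ = _ := by ring
  set E : ℝ := ∑ l ∈ win Y Z, β l with hE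
  have hE0 : 0 ≤ E := Finset.sum_nonneg fun l _ => hβ0 l
  have hprod : Real.exp (-(2 * E)) ≤ ∏ l ∈ win Y Z, (1 - β l) := by
    calc Real.exp (-(2 * E)) = ∏ l ∈ win Y Z, Real.exp (-(2 * β l)) := by
          rw [← Real.exp_sum]
          congr 1
          rw [hE, Finset.mul_sum, Finset.sum_neg_distrib]
      _ ≤ _ := by
          apply Finset.prod_le_prod
          · intro l _
            positivity
          · intro l hl'
            exact exp_le_one_sub _ (hβ0 l) (hβ2 l hl')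
  have htail := tail_bound E hE0 (r + 1) (by linarith)
  have hmain : 1 / 2 * Real.exp (-(200 * ((Z : ℝ) / Y))) ≤ ∏ l ∈ win Y Z, (1 - β l) - E ^ (r + 1) / (r + 1).factorial := by
    have h1 : Real.exp (-(200 * ((Z : ℝ) / Y))) ≤ Real.exp (-(2 * E)) := by
      apply Real.exp_le_exp.2
      linarith
    linarith
  refine ⟨(repsc n D' u').filter (fun X => ∀ l ∈ win Y Z, res l X ∉ B l), Finset.filter_subset _ _, ?_, ?_⟩
  · refine le_trans ?_ hbon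
    have h1 : (((win Y Z).powerset.filter (fun T => T.card ≤ r)).card : ℝ) ≤ (((r + 1) * (Z + 1) ^ r : ℕ) : ℝ) := by
      exact_mod_cast card_small (win Y Z) Z r (card_win Y Z)
    have h2 : ((repsc n D' u').card : ℝ) * (1 / 2 * Real.exp (-(200 * ((Z : ℝ) / Y)))) ≤
        ((repsc n D' u').card : ℝ) * (∏ l ∈ win Y Z, (1 - β l) - E ^ (r + 1) / (r + 1).factorial) := by
      gcongr
    have h3 : (((win Y Z).powerset.filter (fun T => T.card ≤ r)).card : ℝ) * ((50 * (Z : ℝ) ^ 2 + 1) ^ r * e) ≤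
        (((r + 1) * (Z + 1) ^ r : ℕ) : ℝ) * ((50 * (Z : ℝ) ^ 2 + 1) ^ r * e) := by
      gcongr
    linarith
  · intro X hX k l hl'
    rw [Finset.mem_filter] at hX
    have h1 := ((mem_win Y Z l).1 hl').1
    have h2 := hX.2 l hl'
    simp only [hB] at h2
    rw [if_pos h1] at h2
    exact good_rot hM n v L hK hL b0 hb0 P Q N P' Q' N' X ((mem_repsc _ _ _ _).1 hX.1).1 (hdiv X hX.1) (l : ℕ) h1
      (hlN l hl') (hlN' l hl') h2 k

end Pool.Agent.R154.FT
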