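import Pool.Agent.R154.FT.Sel
import Pool.Agent.R154.FT.Sieve2

/-!
# A value of `41 x² + 10 x + 1` without prime factors in the window `(Y, Y²]`
-/

set_option autoImplicit false
open Finset Filter Topology

namespace Pool.Agent.R154.FT

theorem window2 : ∃ Y0 : ℕ, ∀ Y Z : ℕ, Y0 ≤ Y → Z ≤ Y ^ 2 →
    ∑ l ∈ (Ioc Y Z).filter Nat.Prime, (1 : ℝ) / l ≤ 71 / 100 := by
  obtain ⟨M, hM⟩ := Pool.Agent.H305R2.mertens_inv_tendsto
  have h1 := Metric.tendsto_atTop.1 hM (5 / 1000) (by norm_num)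
  obtain ⟨N0, hN0⟩ := h1
  refine ⟨max N0 3, fun Y Z hY hZ => ?_⟩
  have hY1 : N0 ≤ Y := le_trans (le_max_left _ _) hY
  have hY3 : 3 ≤ Y := le_trans (le_max_right _ _) hY
  have hY3r : (3 : ℝ) ≤ Y := by exact_mod_cast hY3
  by_cases hYZ : Y ≤ Z
  · have hZ1 := hN0 Z (hY1.trans hYZ)
    have hY2 := hN0 Y hY1
    rw [Real.dist_eq, abs_lt] at hZ1 hY2
    have hsplit : ∑ l ∈ (Icc 1 Z).filter Nat.Prime, (1 : ℝ) / l =
        ∑ l ∈ (Icc 1 Y).filter Nat.Prime, (1 : ℝ) / l + ∑ l ∈ (Ioc Y Z).filter Nat.Prime, (1 : ℝ) / l := by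
      rw [← Finset.sum_union]
      · congr 1
        ext x
        simp only [mem_union, mem_filter, mem_Icc, mem_Ioc]
        constructor
        · rintro ⟨⟨a, b⟩, c⟩
          rcases Nat.lt_or_ge Y x with h | h
          · exact Or.inr ⟨⟨h, b⟩, c⟩
          · exact Or.inl ⟨⟨a, h⟩, c⟩
        · rintro (⟨⟨a, b⟩, c⟩ | ⟨⟨a, b⟩, c⟩)
          · exact ⟨⟨a, b.trans hYZ⟩, c⟩
          · exact ⟨⟨by omega, b⟩, c⟩
      · rw [Finset.disjoint_left]
        intro x hx hx'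
        rw [mem_filter, mem_Icc] at hx
        rw [mem_filter, mem_Ioc] at hx'
        omega
    have hlY : 1 < Real.log Y := by
      rw [Real.lt_log_iff_exp_lt (by linarith)]
      have := Real.exp_one_lt_d9
      linarith
    have hZr : (Y : ℝ) ≤ Z := by exact_mod_cast hYZ
    have hlZ : Real.log Z ≤ 2 * Real.log Y := by
      have h3 : (Z : ℝ) ≤ (Y : ℝ) ^ 2 := by exact_mod_cast hZ
      have h2 : Real.log Z ≤ Real.log ((Y : ℝ) ^ 2) := Real.log_le_log (by linarith) h3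
      rw [Real.log_pow] at h2
      exact_mod_cast h2
    have hlZ0 : 0 < Real.log Z := by
      have := Real.log_le_log (by linarith : (0 : ℝ) < Y) hZr
      linarith
    have h3 : Real.log (Real.log Z) ≤ Real.log 2 + Real.log (Real.log Y) := by
      rw [← Real.log_mul (by norm_num) (by linarith)]
      exact Real.log_le_log hlZ0 hlZ
    have h4 := Real.log_two_lt_d9
    linarith
  · rw [Finset.Ioc_eq_empty (by omega), Finset.filter_empty, Finset.sum_empty]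
    norm_num

/-- the number of integers in a residue class -/
theorem cnt (m J : ℕ) (hm : 0 < m) (v : ℤ) :
    |(((Icc 1 J).filter (fun j : ℕ => (m : ℤ) ∣ (j : ℤ) - v)).card : ℝ) - (J : ℝ) / m| ≤ 1 := by
  set v' : ℕ := (v % m).toNat with hv'
  have hm0 : (0 : ℤ) < m := by exact_mod_cast hm
  have hv1 : (v' : ℤ) = v % m := Int.toNat_of_nonneg (Int.emod_nonneg _ hm0.ne')
  have hset : (Icc 1 J).filter (fun j : ℕ => (m : ℤ) ∣ (j : ℤ) - v) = (Ioc 0 J).filter (fun j => j ≡ v' [MOD m]) := by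
    ext j
    rw [mem_filter, mem_filter, mem_Icc, mem_Ioc]
    apply and_congr
    · constructor
      · rintro ⟨a, b⟩; exact ⟨by omega, b⟩
      · rintro ⟨a, b⟩; exact ⟨by omega, b⟩
    · rw [Nat.modEq_iff_dvd, hv1]
      have h2 : (m : ℤ) ∣ v - v % m := Int.dvd_self_sub_emod
      constructor
      · intro h
        have e : v % m - (j : ℤ) = -((j : ℤ) - v) - (v - v % m) := by ring
        rw [e]
        exact dvd_sub h.neg_right h2
      · intro h
        have e : (j : ℤ) - v = -(v % m - (j : ℤ)) - (v - v % m) := by ring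
        rw [e]
        exact dvd_sub h.neg_right h2
  have hm0r : (0 : ℚ) < m := by exact_mod_cast hm
  have h1 := Nat.Ioc_filter_modEq_card 0 J hm v'
  rw [← hset] at h1
  have hlt : ((v' : ℤ)) < m := by rw [hv1]; exact Int.emod_lt_of_pos _ hm0
  set n1 : ℤ := ⌊((J : ℚ) - v') / m⌋ with hn1
  set n2 : ℤ := ⌊(((0 : ℕ) : ℚ) - v') / m⌋ with hn2
  have hle : n2 ≤ n1 := by
    apply Int.floor_le_floor
    apply div_le_div_of_nonneg_right _ hm0r.le
    have : (0 : ℚ) ≤ J := Nat.cast_nonneg _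
    push_cast
    linarith
  rw [max_eq_left (by linarith)] at h1
  have a1 : (n1 : ℚ) ≤ ((J : ℚ) - v') / m := Int.floor_le _
  have a2 : ((J : ℚ) - v') / m < n1 + 1 := Int.lt_floor_add_one _
  have b1 : (n2 : ℚ) ≤ (((0 : ℕ) : ℚ) - v') / m := Int.floor_le _
  have b2 : (((0 : ℕ) : ℚ) - v') / m < n2 + 1 := Int.lt_floor_add_one _
  have e1 : ((J : ℚ) - v') / m = (J : ℚ) / m - (v' : ℚ) / m := by ring
  have e2 : (((0 : ℕ) : ℚ) - v') / m = - ((v' : ℚ) / m) := by push_cast; ring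
  rw [e1] at a1 a2
  rw [e2] at b1 b2
  have c1 : (((((Icc 1 J).filter (fun j : ℕ => (m : ℤ) ∣ (j : ℤ) - v)).card : ℤ)) : ℚ) = (n1 : ℚ) - n2 := by
    rw [h1]
    push_cast
    ring
  rw [Int.cast_natCast] at c1
  have key : |((((Icc 1 J).filter (fun j : ℕ => (m : ℤ) ∣ (j : ℤ) - v)).card : ℚ)) - (J : ℚ) / m| ≤ 1 := by
    rw [abs_le, c1]
    constructor <;> linarith
  have := (Rat.cast_le (K := ℝ)).2 key
  push_cast at this
  exact this

/-- classes of integers -/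
theorem cls_nat (J : ℕ) (T : Finset Nat.Primes) (c : ∀ l ∈ T, ZMod ((l : Nat.Primes) : ℕ)) :
    |((cls (Icc 1 J) (fun (l : Nat.Primes) (j : ℕ) => (j : ZMod (l : ℕ))) T c).card : ℝ) - (J : ℝ) / (mT T : ℕ)| ≤ 1 := by
  have h1 : ∀ l ∈ T, ¬ ((l : Nat.Primes) : ℕ) ∣ 1 := fun l _ hd => l.2.one_lt.ne' (Nat.dvd_one.1 hd)
  obtain ⟨u, -, hu⟩ := crtT 1 0 T h1 (fun l hl _ => c l hl)
  have hset : cls (Icc 1 J) (fun (l : Nat.Primes) (j : ℕ) => (j : ZMod (l : ℕ))) T c =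
      (Icc 1 J).filter (fun j : ℕ => ((mT T : ℕ) : ℤ) ∣ (j : ℤ) - u 0) := by
    unfold cls
    apply Finset.filter_congr
    intro j _
    have h2 := dvd_iff 1 T h1 ((j : ℤ) - u 0)
    rw [one_mul] at h2
    rw [h2]
    constructor
    · intro h
      refine ⟨by simp, fun l hl => ?_⟩
      rw [← ZMod.intCast_zmod_eq_zero_iff_dvd]
      have h3 : ((j : ℕ) : ZMod (l : ℕ)) = c l hl := h l hl
      have h4 := congrFun (hu l hl) 0
      unfold res at h4
      push_cast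
      rw [h4, h3, sub_self]
    · rintro ⟨-, h⟩ l hl
      have h3 := h l hl
      rw [← ZMod.intCast_zmod_eq_zero_iff_dvd] at h3
      have h4 := congrFun (hu l hl) 0
      unfold res at h4
      push_cast at h3
      rw [h4] at h3
      linear_combination h3
  rw [hset]
  exact cnt _ J (mT_pos T) (u 0)

theorem exp_101 (x : ℝ) (h0 : 0 ≤ x) (h1 : x ≤ 2 / 1000) : Real.exp (-(101 / 100 * x)) ≤ 1 - x := by
  have h2 : 1 + 101 / 100 * x ≤ Real.exp (101 / 100 * x) := by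
    have := Real.add_one_le_exp (101 / 100 * x)
    linarith
  rw [Real.exp_neg, inv_eq_one_div, div_le_iff₀ (Real.exp_pos _)]
  have h3 : 1 ≤ (1 - x) * (1 + 101 / 100 * x) := by nlinarith
  calc (1 : ℝ) ≤ (1 - x) * (1 + 101 / 100 * x) := h3
    _ ≤ (1 - x) * Real.exp (101 / 100 * x) := by
        apply mul_le_mul_of_nonneg_left h2
        linarith

theorem exp_two : Real.exp 2 ≤ 8 := by
  have e1 : Real.exp 2 = Real.exp 1 * Real.exp 1 := by rw [← Real.exp_add]; norm_num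
  have := Real.exp_one_lt_d9
  have h0 := Real.exp_pos 1
  rw [e1]
  nlinarith

theorem sel2 : ∃ Y0 : ℕ, ∀ Y Z : ℕ, Y0 ≤ Y → Z ≤ Y ^ 2 → ∀ D : ℕ,
    ∃ j : ℕ, 1 ≤ j ∧ j ≤ 10000 * (Z + 1) ^ 5 ∧
      ∀ l : ℕ, l.Prime → Y < l → l ≤ Z → ¬ l ∣ 41 * (D * j) ^ 2 + 10 * (D * j) + 1 := by
  classical
  obtain ⟨Y0, hw⟩ := window2
  refine ⟨max Y0 1000, fun Y Z hY hZ D => ?_⟩
  have hY0 : Y0 ≤ Y := le_trans (le_max_left _ _) hY
  have hY1 : 1000 ≤ Y := le_trans (le_max_right _ _) hY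
  have hsum := hw Y Z hY0 hZ
  set J : ℕ := 10000 * (Z + 1) ^ 5 with hJ
  set B : ∀ l : Nat.Primes, Finset (ZMod (l : ℕ)) := fun l =>
    univ.filter (fun x : ZMod (l : ℕ) => (41 * (D : ZMod (l : ℕ)) ^ 2) * x ^ 2 + (10 * (D : ZMod (l : ℕ))) * x + 1 = 0) with hB
  have hB2 : ∀ l, (B l).card ≤ 2 := fun l => quad_roots (l : ℕ) _ _
  have hbon := bonf (Icc 1 J) (fun (l : Nat.Primes) (j : ℕ) => (j : ZMod (l : ℕ))) (win Y Z) B (fun l => univ)
    (fun l => Finset.subset_univ _) (fun l => Finset.univ_nonempty) 5 (by decide) 2 2 (by norm_num) (by norm_num)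
    (fun l _ => by exact_mod_cast hB2 l) (fun T _ _ c _ c' _ => by
      have a1 := abs_le.1 (cls_nat J T c)
      have a2 := abs_le.1 (cls_nat J T c')
      rw [abs_le]
      constructor <;> linarith [a1.1, a1.2, a2.1, a2.2])
  set β : Nat.Primes → ℝ := fun l => ((B l).card : ℝ) / (univ : Finset (ZMod (l : ℕ))).card with hβ
  have hβ0 : ∀ l, 0 ≤ β l := fun l => by positivity
  have hβ1 : ∀ l, β l ≤ 2 * (1 / ((l : ℕ) : ℝ)) := by
    intro l
    simp only [hβ]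
    rw [Finset.card_univ, ZMod.card]
    have h1 : ((B l).card : ℝ) ≤ 2 := by exact_mod_cast hB2 l
    calc ((B l).card : ℝ) / ((l : ℕ) : ℝ) ≤ 2 / ((l : ℕ) : ℝ) := by gcongr
      _ = _ := by ring
  have hYr : (1000 : ℝ) ≤ Y := by exact_mod_cast hY1
  have hβ2 : ∀ l ∈ win Y Z, β l ≤ 2 / 1000 := by
    intro l hl
    have h1 := ((mem_win Y Z l).1 hl).1
    have h2 : (1000 : ℝ) ≤ ((l : ℕ) : ℝ) := by
      have : (1000 : ℕ) ≤ (l : ℕ) := by omega
      exact_mod_cast this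
    refine (hβ1 l).trans ?_
    rw [mul_one_div]
    apply div_le_div_of_nonneg_left (by norm_num) (by norm_num) h2
  set E : ℝ := ∑ l ∈ win Y Z, β l with hE
  have hE0 : 0 ≤ E := Finset.sum_nonneg fun l _ => hβ0 l
  have hE1 : E ≤ 142 / 100 := by
    calc E ≤ ∑ l ∈ win Y Z, 2 * (1 / ((l : ℕ) : ℝ)) := Finset.sum_le_sum fun l _ => hβ1 l
      _ = 2 * ∑ l ∈ win Y Z, (1 / ((l : ℕ) : ℝ)) := by rw [← Finset.mul_sum]
      _ = 2 * ∑ x ∈ (Finset.Ioc Y Z).filter Nat.Prime, (1 : ℝ) / x := by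
          congr 1
          exact Finset.sum_subtype_eq_sum_filter (fun x : ℕ => (1 : ℝ) / x)
      _ ≤ 2 * (71 / 100) := by gcongr
      _ = 142 / 100 := by norm_num
  have hprod : 1 / 8 ≤ ∏ l ∈ win Y Z, (1 - β l) := by
    have h1 : Real.exp (-(101 / 100 * E)) ≤ ∏ l ∈ win Y Z, (1 - β l) := by
      calc Real.exp (-(101 / 100 * E)) = ∏ l ∈ win Y Z, Real.exp (-(101 / 100 * β l)) := by
            rw [← Real.exp_sum]
            congr 1
            rw [hE, Finset.mul_sum, Finset.sum_neg_distrib]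
        _ ≤ _ := by
            apply Finset.prod_le_prod
            · intro l _
              positivity
            · intro l hl'
              exact exp_101 _ (hβ0 l) (hβ2 l hl')
    refine le_trans ?_ h1
    have h4 := exp_two
    calc (1 : ℝ) / 8 ≤ 1 / Real.exp 2 := by
          apply one_div_le_one_div_of_le (Real.exp_pos _) h4
      _ = Real.exp (-2) := by rw [Real.exp_neg, one_div]
      _ ≤ Real.exp (-(101 / 100 * E)) := by
          apply Real.exp_le_exp.2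
          linarith
  have htail : E ^ (5 + 1) / ((5 + 1).factorial : ℝ) ≤ 1 / 16 := by
    have h1 : E ^ 6 ≤ (3 / 2) ^ 6 := by
      apply pow_le_pow_left₀ hE0
      linarith
    have h2 : (((5 + 1).factorial : ℕ) : ℝ) = 720 := by norm_num [Nat.factorial]
    rw [h2]
    have h3 : E ^ (5 + 1) = E ^ 6 := rfl
    rw [h3, div_le_iff₀ (by norm_num)]
    refine h1.trans ?_
    norm_num
  have hcard : (((win Y Z).powerset.filter (fun T => T.card ≤ 5)).card : ℝ) ≤ 6 * ((Z : ℝ) + 1) ^ 5 := by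
    have := card_small (win Y Z) Z 5 (card_win Y Z)
    have h2 : (((win Y Z).powerset.filter (fun T => T.card ≤ 5)).card : ℝ) ≤ (((5 + 1) * (Z + 1) ^ 5 : ℕ) : ℝ) := by
      exact_mod_cast this
    refine h2.trans (le_of_eq ?_)
    push_cast
    ring
  have hJc : ((Icc 1 J).card : ℝ) = 10000 * ((Z : ℝ) + 1) ^ 5 := by
    rw [Nat.card_Icc, Nat.add_sub_cancel, hJ]
    push_cast
    ring
  have hZ5 : (0 : ℝ) < ((Z : ℝ) + 1) ^ 5 := by positivity
  have hpos : 0 < (((Icc 1 J).filter (fun j : ℕ => ∀ l ∈ win Y Z, (j : ZMod ((l : Nat.Primes) : ℕ)) ∉ B l)).card : ℝ) := by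
    refine lt_of_lt_of_le ?_ hbon
    rw [hJc]
    have h1 : 10000 * ((Z : ℝ) + 1) ^ 5 * (1 / 16) ≤ 10000 * ((Z : ℝ) + 1) ^ 5 *
        (∏ l ∈ win Y Z, (1 - β l) - E ^ (5 + 1) / ((5 + 1).factorial : ℝ)) := by
      gcongr
      linarith
    have h2 : (((win Y Z).powerset.filter (fun T => T.card ≤ 5)).card : ℝ) * (2 ^ 5 * 2) ≤
      6 * ((Z : ℝ) + 1) ^ 5 * (2 ^ 5 * 2) := by gcongr
    have h3 : 6 * ((Z : ℝ) + 1) ^ 5 * (2 ^ 5 * 2) < 10000 * ((Z : ℝ) + 1) ^ 5 * (1 / 16) := by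
      linarith
    linarith
  have hne : ((Icc 1 J).filter (fun j : ℕ => ∀ l ∈ win Y Z, (j : ZMod ((l : Nat.Primes) : ℕ)) ∉ B l)).Nonempty := by
    rw [← Finset.card_pos]
    exact_mod_cast hpos
  obtain ⟨j, hj⟩ := hne
  rw [mem_filter, mem_Icc] at hj
  refine ⟨j, hj.1.1, hj.1.2, ?_⟩
  have hfin : ∀ l : Nat.Primes, l ∈ win Y Z → ¬ (l : ℕ) ∣ 41 * (D * j) ^ 2 + 10 * (D * j) + 1 := by
    intro l hl hd
    apply hj.2 l hl
    simp only [hB]
    rw [mem_filter]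
    refine ⟨mem_univ _, ?_⟩
    have h5 : ((41 * (D * j) ^ 2 + 10 * (D * j) + 1 : ℕ) : ZMod (l : ℕ)) = 0 :=
      (ZMod.natCast_eq_zero_iff _ _).2 hd
    push_cast at h5
    linear_combination h5
  intro l hl hlY hlZ
  exact hfin ⟨l, hl⟩ ((mem_win Y Z ⟨l, hl⟩).2 ⟨hlY, hlZ⟩)

end Pool.Agent.R154.FT
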