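import Pool.Agent.R154.FT.Sieve3
import Pool.Agent.R154.FT.Sel2

/-!
# From the sieve to nonnegative representations
-/

set_option autoImplicit false
open Finset

namespace Pool.Agent.R154.FT
open Pool.Agent.W65.FS Pool.Agent.TH696.FA

/-- the rotations -/
theorem setup (K J Y Z : ℕ) (hK0 : 0 < K) (h4K : 4 ∣ K) (hJ1 : 1 ≤ J)
    (hsel : ∀ D : ℕ, ∃ j : ℕ, 1 ≤ j ∧ j ≤ J ∧ ∀ l : ℕ, l.Prime → Y < l → l ≤ Z → ¬ l ∣ 41 * (D * j) ^ 2 + 10 * (D * j) + 1)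
    (hKl : ∀ l : ℕ, l.Prime → Y < l → ¬ l ∣ K) :
    ∃ (D' : ℕ) (P Q N P' Q' N' : ℤ), RotData (K : ℤ) P Q N ∧ RotData (K : ℤ) P' Q' N' ∧ IsCoprime N N' ∧
      (D' : ℤ) = K * N ^ 2 * N' ^ 2 ∧ 0 < D' ∧ 4 ∣ D' ∧ D' ≤ (K * J) ^ 71 ∧
      ∀ l : ℕ, l.Prime → Y < l → l ≤ Z → ¬ l ∣ D' := by
  have hK4 : 4 ≤ K := Nat.le_of_dvd hK0 h4K
  obtain ⟨j, hj1, hjJ, hjl⟩ := hsel K
  obtain ⟨E1, hE1⟩ : ∃ E1 : ℕ, E1 = K * j := ⟨_, rfl⟩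
  rw [← hE1] at hjl
  obtain ⟨N1, hN1⟩ : ∃ N1 : ℕ, N1 = 41 * E1 ^ 2 + 10 * E1 + 1 := ⟨_, rfl⟩
  rw [← hN1] at hjl
  obtain ⟨D2, hD2⟩ : ∃ D2 : ℕ, D2 = K * N1 := ⟨_, rfl⟩
  obtain ⟨j', hj1', hjJ', hjl'⟩ := hsel D2
  obtain ⟨E2, hE2⟩ : ∃ E2 : ℕ, E2 = D2 * j' := ⟨_, rfl⟩
  rw [← hE2] at hjl'
  obtain ⟨N2, hN2⟩ : ∃ N2 : ℕ, N2 = 41 * E2 ^ 2 + 10 * E2 + 1 := ⟨_, rfl⟩
  rw [← hN2] at hjl'
  have hN1p : 1 ≤ N1 := by omega
  have hN2p : 1 ≤ N2 := by omega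
  have hE14 : 4 ≤ E1 := by
    rw [hE1]
    calc 4 = 4 * 1 := by norm_num
      _ ≤ K * j := Nat.mul_le_mul hK4 hj1
  have hD24 : 4 ≤ D2 := by
    rw [hD2]
    calc 4 = 4 * 1 := by norm_num
      _ ≤ K * N1 := Nat.mul_le_mul hK4 hN1p
  have hE24 : 4 ≤ E2 := by
    rw [hE2]
    calc 4 = 4 * 1 := by norm_num
      _ ≤ D2 * j' := Nat.mul_le_mul hD24 hj1'
  -- sizes
  have hKJ : K ≤ K * J := Nat.le_mul_of_pos_right _ hJ1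
  have hE1J : E1 ≤ K * J := by rw [hE1]; exact Nat.mul_le_mul_left _ hjJ
  have hN1J : N1 ≤ (K * J) ^ 5 := by
    rw [hN1]
    exact (size_bound E1 hE14).trans (Nat.pow_le_pow_left hE1J 5)
  have hE2J : E2 ≤ (K * J) ^ 6 := by
    calc E2 = K * N1 * j' := by rw [hE2, hD2]
      _ ≤ K * (K * J) ^ 5 * J := Nat.mul_le_mul (Nat.mul_le_mul_left _ hN1J) hjJ'
      _ = (K * J) ^ 6 := by ring
  have hN2J : N2 ≤ (K * J) ^ 30 := by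
    calc N2 ≤ E2 ^ 5 := by rw [hN2]; exact size_bound E2 hE24
      _ ≤ ((K * J) ^ 6) ^ 5 := Nat.pow_le_pow_left hE2J 5
      _ = (K * J) ^ 30 := by ring
  have hD'J : K * N1 ^ 2 * N2 ^ 2 ≤ (K * J) ^ 71 := by
    calc K * N1 ^ 2 * N2 ^ 2 ≤ (K * J) * ((K * J) ^ 5) ^ 2 * ((K * J) ^ 30) ^ 2 :=
          Nat.mul_le_mul (Nat.mul_le_mul hKJ (Nat.pow_le_pow_left hN1J 2)) (Nat.pow_le_pow_left hN2J 2)
      _ = (K * J) ^ 71 := by ring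
  -- rotations
  have h4E1 : 4 ∣ E1 := by rw [hE1]; exact h4K.mul_right j
  have h4E2 : 4 ∣ E2 := by rw [hE2, hD2]; exact (h4K.mul_right N1).mul_right j'
  have hE10 : 0 < E1 := by omega
  have hE20 : 0 < E2 := by omega
  have r1 := rotData (E1 : ℤ) (by exact_mod_cast hE10) (by exact_mod_cast h4E1)
  have r2 := rotData (E2 : ℤ) (by exact_mod_cast hE20) (by exact_mod_cast h4E2)
  have e1 : (41 * (E1 : ℤ) ^ 2 + 10 * E1 + 1) = (N1 : ℤ) := by rw [hN1]; push_cast; ring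
  have e2 : (41 * (E2 : ℤ) ^ 2 + 10 * E2 + 1) = (N2 : ℤ) := by rw [hN2]; push_cast; ring
  rw [e1] at r1
  rw [e2] at r2
  have eE1 : (E1 : ℤ) = K * j := by rw [hE1]; push_cast; ring
  have eE2 : (E2 : ℤ) = K * (N1 * j') := by rw [hE2, hD2]; push_cast; ring
  have c2 := r2.cD
  rw [eE2] at c2
  have c1 := r1.cD
  rw [eE1] at c1
  refine ⟨K * N1 ^ 2 * N2 ^ 2, _, _, (N1 : ℤ), _, _, (N2 : ℤ),
    ⟨r1.sq, r1.hN, r1.hP, r1.hQ, (Dvd.intro _ eE1.symm).trans r1.d1, (Dvd.intro _ eE1.symm).trans r1.d2, r1.cQ, r1.c2, c1.of_mul_left_left⟩,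
    ⟨r2.sq, r2.hN, r2.hP, r2.hQ, (Dvd.intro _ eE2.symm).trans r2.d1, (Dvd.intro _ eE2.symm).trans r2.d2, r2.cQ, r2.c2, c2.of_mul_left_left⟩,
    c2.of_mul_left_right.of_mul_left_left, by push_cast; ring, by positivity, (h4K.mul_right _).mul_right _, hD'J, ?_⟩
  intro l hl hlY hlZ hd
  rcases (Nat.Prime.dvd_mul hl).1 hd with h1 | h1
  · rcases (Nat.Prime.dvd_mul hl).1 h1 with h2 | h2
    · exact hKl l hl hlY h2
    · exact hjl l hl hlY hlZ (Nat.Prime.dvd_of_dvd_pow hl h2)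
  · exact hjl' l hl hlY hlZ (Nat.Prime.dvd_of_dvd_pow hl h1)

/-- from good nonnegative vectors to quadruples -/
theorem quads {K1 Y Z : ℕ} (hM : Mod K1 Y Z) (n v L K : ℕ) (hKL : K1 = 2 ^ v * L) (hL : Odd L) (hDK : K = 4 * K1)
    (u : Fin 4 → ℤ) (h01 : (K : ℤ) ∣ u 0 + u 1) (h23 : (2 : ℤ) ^ (v + 2) ∣ u 2 + u 3 - 1)
    (hu0 : ¬ (4 : ℤ) ∣ u 0) (O : Finset (Fin 4 → ℤ)) (hO : ∀ W ∈ O, W ∈ orth n K u ∧
      ∀ l ∈ win Y Z, ((((W 0 + W 1 : ℤ) : ZMod (l : ℕ)), ((W 2 + W 3 : ℤ) : ZMod (l : ℕ))) :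
    ZMod (l : ℕ) × ZMod (l : ℕ)) ∉ bad (4 * K1) Z (u 2 + u 3) (l : ℕ)) :
    ∃ T : Finset (ℕ × ℕ × ℕ × ℕ), T.card = O.card ∧
      ∀ x y z w : ℕ, (x, y, z, w) ∈ T → n = x ^ 2 + y ^ 2 + z ^ 2 + w ^ 2 ∧
        ∀ q : ℕ, q.Prime → q ∣ 2 ^ (x + y) + 2 ^ (z + w) + 1 → Z < q := by
  classical
  refine ⟨O.image (fun X => ((X 0).toNat, (X 1).toNat, (X 2).toNat, (X 3).toNat)), ?_, ?_⟩
  · rw [Finset.card_image_of_injOn]
    intro X hX Y hY hXY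
    have hX' := (mem_orth _ _ _ _).1 (hO X hX).1
    have hY' := (mem_orth _ _ _ _).1 (hO Y hY).1
    simp only [Prod.mk.injEq] at hXY
    obtain ⟨e0, e1, e2, e3⟩ := hXY
    have g := hX'.2
    have g' := hY'.2
    funext i
    fin_cases i
    · have a1 := g 0; have a2 := g' 0
      show X 0 = Y 0
      omega
    · have a1 := g 1; have a2 := g' 1
      show X 1 = Y 1
      omega
    · have a1 := g 2; have a2 := g' 2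
      show X 2 = Y 2
      omega
    · have a1 := g 3; have a2 := g' 3
      show X 3 = Y 3
      omega
  · intro x y z w hxyzw
    rw [Finset.mem_image] at hxyzw
    obtain ⟨X, hX, hXe⟩ := hxyzw
    obtain ⟨hX1, hXG⟩ := hO X hX
    obtain ⟨⟨hsum, hcong⟩, hpos⟩ := (mem_orth _ _ _ _).1 hX1
    simp only [Prod.mk.injEq] at hXe
    obtain ⟨e0, e1, e2, e3⟩ := hXe
    have x0 : X 0 = x := by have := hpos 0; omega
    have x1 : X 1 = y := by have := hpos 1; omega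
    have x2 : X 2 = z := by have := hpos 2; omega
    have x3 : X 3 = w := by have := hpos 3; omega
    rw [Fin.sum_univ_four, x0, x1, x2, x3] at hsum
    have c0 := hcong 0
    have c1 := hcong 1
    have c2 := hcong 2
    have c3 := hcong 3
    rw [x0] at c0
    rw [x1] at c1
    rw [x2] at c2
    rw [x3] at c3
    have hs : ((K : ℕ) : ℤ) ∣ (x : ℤ) + y := by
      have e : (x : ℤ) + y = (x - u 0) + (y - u 1) + (u 0 + u 1) := by ring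
      rw [e]
      exact dvd_add (dvd_add c0 c1) h01
    have hpD : (2 : ℤ) ^ (v + 2) ∣ ((K : ℕ) : ℤ) := by
      rw [hDK, hKL]
      push_cast
      exact ⟨L, by ring⟩
    have ht : (2 : ℤ) ^ (v + 2) ∣ (z : ℤ) + w - 1 := by
      have e : (z : ℤ) + w - 1 = (z - u 2) + (w - u 3) + (u 2 + u 3 - 1) := by ring
      rw [e]
      exact dvd_add (dvd_add (hpD.trans c2) (hpD.trans c3)) h23
    have ht2 : ((K : ℕ) : ℤ) ∣ ((z + w : ℕ) : ℤ) - (u 2 + u 3) := by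
      have e : ((z + w : ℕ) : ℤ) - (u 2 + u 3) = (z - u 2) + (w - u 3) := by push_cast; ring
      rw [e]
      exact dvd_add c2 c3
    have h4p : (4 : ℤ) ∣ 2 ^ (v + 2) := by
      have : (2 : ℤ) ^ (v + 2) = 4 * 2 ^ v := by ring
      rw [this]; exact dvd_mul_right _ _
    have hx0 : 1 ≤ x := by
      by_contra hx
      have hx' : x = 0 := by omega
      rw [hx'] at c0
      apply hu0
      have := (h4p.trans hpD).trans c0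
      simpa using this
    have ht1 : 1 ≤ z + w := by
      by_contra hzw
      have hz : z = 0 := by omega
      have hw : w = 0 := by omega
      rw [hz, hw] at ht
      have := h4p.trans ht
      simp at this
    refine ⟨by exact_mod_cast hsum.symm, ?_⟩
    intro q hq hqN
    refine no_small hM v L hKL hL (u 2 + u 3) (x + y) (z + w) (by omega) ?_ ht1 ?_ h23 ?_ q hq hqN
    · rw [← hDK]
      exact_mod_cast hs
    · rw [← hDK]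
      exact ht2
    · intro l hl1 hl2
      have h5 := hXG l ((mem_win Y Z l).2 ⟨hl1, hl2⟩)
      rw [x0, x1, x2, x3] at h5
      have f1 : (((x : ℤ) + (y : ℤ) : ℤ) : ZMod (l : ℕ)) = ((x + y : ℕ) : ZMod (l : ℕ)) := by push_cast; rfl
      have f2 : (((z : ℤ) + (w : ℤ) : ℤ) : ZMod (l : ℕ)) = ((z + w : ℕ) : ZMod (l : ℕ)) := by push_cast; rfl
      rw [f1, f2] at h5
      exact h5

theorem core3 : ∃ C0 : ℝ, 0 < C0 ∧ ∃ Y0 : ℕ, ∀ (n K1 Y Z : ℕ), Mod K1 Y Z → Odd n → Y0 ≤ Y → 12 ≤ Y → 1 ≤ Z →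
    200 * Z ≤ Y ^ 2 → ∀ E0 : ℝ, 100 * (Z : ℝ) * ∑ l ∈ win Y Z, (((l : ℕ) : ℝ) ^ 2)⁻¹ ≤ E0 →
    ∀ r : ℕ, Odd r → 5 * E0 + 1 ≤ ((r + 1 : ℕ) : ℝ) →
    ∃ (D' : ℕ) (u' : Fin 4 → ℤ), 0 < D' ∧ 4 ∣ D' ∧ D' ≤ (4 * K1 * (10000 * (Z + 1) ^ 5)) ^ 71 ∧ GoodG n D' u' ∧
      ∃ T : Finset (ℕ × ℕ × ℕ × ℕ),
      ((repsc n D' u').card : ℝ) * (1 / 2 * Real.exp (-(2 * E0))) -
        ((((r + 1) * (Z + 1) ^ r : ℕ) : ℝ) * ((50 * (Z : ℝ) ^ 2 + 1) ^ r *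
          (C0 * ((D' * Z ^ r : ℕ) : ℝ) ^ 11 * (n : ℝ) ^ (19 / 20 : ℝ)))) ≤ 25 * (T.card : ℝ) ∧
      ∀ x y z w : ℕ, (x, y, z, w) ∈ T → n = x ^ 2 + y ^ 2 + z ^ 2 + w ^ 2 ∧
        ∀ q : ℕ, q.Prime → q ∣ 2 ^ (x + y) + 2 ^ (z + w) + 1 → Z < q := by
  classical
  obtain ⟨C0, hC0, hsv⟩ := sieve3
  obtain ⟨Y0, hsel⟩ := sel2
  refine ⟨C0, hC0, Y0, ?_⟩
  intro n K1 Y Z hM hno hY0 hY hZ hYZ E0 hE0 r hr hrE
  obtain ⟨v, L, hL, hKL⟩ := Nat.exists_eq_two_pow_mul_odd hM.pos.ne'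
  obtain ⟨u, hu, h01, h23, hu0⟩ := local_class n v L hno hL
  have hDK' : 2 ^ (v + 2) * L = 4 * K1 := by rw [hKL]; ring
  rw [hDK'] at hu h01
  obtain ⟨K, hDK⟩ : ∃ K : ℕ, K = 4 * K1 := ⟨_, rfl⟩
  rw [← hDK] at hu h01
  have hK0 : 0 < K := by rw [hDK]; have := hM.pos; omega
  have h4K : 4 ∣ K := by rw [hDK]; exact dvd_mul_right _ _
  have hKl : ∀ l : ℕ, l.Prime → Y < l → ¬ l ∣ K := by
    intro l hl hlY h2
    rw [hDK] at h2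
    rcases (Nat.Prime.dvd_mul hl).1 h2 with h3 | h3
    · have := Nat.le_of_dvd (by norm_num) h3
      omega
    · exact hM.nd _ hl hlY h3
  have hJ1 : 1 ≤ 10000 * (Z + 1) ^ 5 := by
    have : 1 ≤ (Z + 1) ^ 5 := Nat.one_le_pow _ _ (by omega)
    omega
  have hZY2 : Z ≤ Y ^ 2 := by omega
  obtain ⟨D', P, Q, N, P', Q', N', r1, r2, c12, hD'e, hD'0, h4D', hD'J, hD'l⟩ :=
    setup K (10000 * (Z + 1) ^ 5) Y Z hK0 h4K hJ1 (hsel Y Z hY0 hZY2) hKl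
  obtain ⟨u', hu', hdiv, hG⟩ := engine n K h4K u hu P Q N P' Q' N' r1 r2 c12 D' hD'e
  have hwin : ∀ l ∈ win Y Z, ¬ (l : ℕ) ∣ D' := by
    intro l hl hd
    have hl' := (mem_win Y Z l).1 hl
    exact hD'l l l.2 hl'.1 hl'.2 hd
  have hND : N ∣ (D' : ℤ) := by rw [hD'e]; exact ⟨K * N * N' ^ 2, by ring⟩
  have hND' : N' ∣ (D' : ℤ) := by rw [hD'e]; exact ⟨K * N ^ 2 * N', by ring⟩
  obtain ⟨S, hS, hScard, hSG⟩ := hsv n K1 Y Z hM hno.pos v L hKL hL (u 2 + u 3) h23 P Q N P' Q' N' r1.sq r2.sq D' hND hND'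
    hD'0 h4D' u' hu' hdiv hwin hY hZ hYZ E0 hE0 r hr hrE
  have hcard := hG (fun W => ∀ l ∈ win Y Z, ((((W 0 + W 1 : ℤ) : ZMod (l : ℕ)), ((W 2 + W 3 : ℤ) : ZMod (l : ℕ))) :
    ZMod (l : ℕ) × ZMod (l : ℕ)) ∉ bad (4 * K1) Z (u 2 + u 3) (l : ℕ)) S hS (fun X hX k => hSG X hX k)
  obtain ⟨T, hT1, hT2⟩ := quads hM n v L K hKL hL hDK u h01 h23 hu0
    ((orth n K u).filter (fun W => ∀ l ∈ win Y Z, ((((W 0 + W 1 : ℤ) : ZMod (l : ℕ)), ((W 2 + W 3 : ℤ) : ZMod (l : ℕ))) :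
    ZMod (l : ℕ) × ZMod (l : ℕ)) ∉ bad (4 * K1) Z (u 2 + u 3) (l : ℕ)))
    (fun W hW => by rw [Finset.mem_filter] at hW; exact hW)
  refine ⟨D', u', hD'0, h4D', ?_, hu', T, ?_, hT2⟩
  · rw [← hDK]
    exact hD'J
  · rw [hT1]
    refine hScard.trans ?_
    exact_mod_cast hcard

end Pool.Agent.R154.FT
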