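import Mathlib

/-!
# Numerical estimates
-/

set_option autoImplicit false
open Finset

namespace Pool.Agent.R154.FT

theorem V_main (Y Z r : ℕ) (hY : 12 ≤ Y) (hr1 : 1 ≤ r) (hr : 500 * ((Z : ℝ) / Y) + 1 ≤ ((r + 1 : ℕ) : ℝ)) :
    1 / ((Y : ℝ) + 1) ^ (30 * r) ≤ 1 / 2 * Real.exp (-(200 * ((Z : ℝ) / Y))) := by
  have hYr : (12 : ℝ) ≤ Y := by exact_mod_cast hY
  have hr1r : (1 : ℝ) ≤ r := by exact_mod_cast hr1
  have he : Real.exp 1 ≤ (Y : ℝ) + 1 := by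
    have := Real.exp_one_lt_d9
    linarith
  have hZY : (0 : ℝ) ≤ (Z : ℝ) / Y := by positivity
  push_cast at hr
  have h1 : Real.exp (30 * r) ≤ ((Y : ℝ) + 1) ^ (30 * r) := by
    have h2 : Real.exp (30 * r) = (Real.exp 1) ^ (30 * r) := by
      rw [← Real.exp_nat_mul]
      congr 1
      push_cast
      ring
    rw [h2]
    gcongr
  have h3 : 2 * Real.exp (200 * ((Z : ℝ) / Y)) ≤ Real.exp (30 * r) := by
    have h4 : (2 : ℝ) ≤ Real.exp 1 := by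
      have := Real.add_one_le_exp (1 : ℝ)
      linarith
    calc 2 * Real.exp (200 * ((Z : ℝ) / Y)) ≤ Real.exp 1 * Real.exp (200 * ((Z : ℝ) / Y)) := by gcongr
      _ = Real.exp (1 + 200 * ((Z : ℝ) / Y)) := by rw [Real.exp_add]
      _ ≤ Real.exp (30 * r) := by
          apply Real.exp_le_exp.2
          linarith
  rw [div_le_iff₀ (by positivity), Real.exp_neg]
  have h5 : 0 < Real.exp (200 * ((Z : ℝ) / Y)) := Real.exp_pos _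
  calc (1 : ℝ) = 1 / 2 * (Real.exp (200 * ((Z : ℝ) / Y)))⁻¹ * (2 * Real.exp (200 * ((Z : ℝ) / Y))) := by
        field_simp
    _ ≤ 1 / 2 * (Real.exp (200 * ((Z : ℝ) / Y)))⁻¹ * ((Y : ℝ) + 1) ^ (30 * r) := by
        have := h3.trans h1
        gcongr

theorem V_err (Y Z r D' : ℕ) (A C0 : ℝ) (hC0 : 0 < C0) (hA : 0 ≤ A) (hY : 12 ≤ Y) (hZ : 200 * Z ≤ Y ^ 2) :
    (((r + 1) * (Z + 1) ^ r : ℕ) : ℝ) * ((50 * (Z : ℝ) ^ 2 + 1) ^ r * (C0 * ((D' * Z ^ r : ℕ) : ℝ) ^ 11 * A)) ≤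
      ((Y : ℝ) + 1) ^ (30 * r) * (C0 * (D' : ℝ) ^ 11 * A) := by
  have hnat : (r + 1) * (Z + 1) ^ r * ((50 * Z ^ 2 + 1) ^ r * (Z ^ r) ^ 11) ≤ (Y + 1) ^ (30 * r) := by
    have h1 : r + 1 ≤ 2 ^ r := Nat.lt_two_pow_self
    have h2 : Z + 1 ≤ (Y + 1) ^ 2 := by nlinarith
    have h3 : 50 * Z ^ 2 + 1 ≤ 51 * (Y + 1) ^ 4 := by
      have h4 : Z ^ 2 ≤ ((Y + 1) ^ 2) ^ 2 := Nat.pow_le_pow_left (by omega) 2
      have h5 : ((Y + 1) ^ 2) ^ 2 = (Y + 1) ^ 4 := by ring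
      have h6 : 1 ≤ (Y + 1) ^ 4 := Nat.one_le_pow _ _ (by omega)
      rw [h5] at h4
      omega
    have h4 : Z ≤ (Y + 1) ^ 2 := by omega
    calc (r + 1) * (Z + 1) ^ r * ((50 * Z ^ 2 + 1) ^ r * (Z ^ r) ^ 11)
        ≤ 2 ^ r * ((Y + 1) ^ 2) ^ r * ((51 * (Y + 1) ^ 4) ^ r * (((Y + 1) ^ 2) ^ r) ^ 11) := by
          gcongr
      _ = (102 * (Y + 1) ^ 28) ^ r := by
          rw [mul_pow 51, mul_pow 102, ← pow_mul, ← pow_mul, ← pow_mul, ← pow_mul]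
          have : (102 : ℕ) ^ r = 2 ^ r * 51 ^ r := by
            rw [← mul_pow]
            norm_num
          rw [this]
          have e : (Y + 1) ^ (28 * r) = (Y + 1) ^ (2 * r) * (Y + 1) ^ (4 * r) * (Y + 1) ^ (2 * r * 11) := by
            rw [← pow_add, ← pow_add]
            congr 1
            ring
          rw [e]
          ring
      _ ≤ ((Y + 1) ^ 2 * (Y + 1) ^ 28) ^ r := by
          have : 102 ≤ (Y + 1) ^ 2 := by nlinarith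
          gcongr
      _ = (Y + 1) ^ (30 * r) := by
          rw [← pow_add, ← pow_mul]
  have hr : ((r + 1 : ℕ) : ℝ) * ((Z : ℝ) + 1) ^ r * ((50 * (Z : ℝ) ^ 2 + 1) ^ r * ((Z : ℝ) ^ r) ^ 11) ≤
      ((Y : ℝ) + 1) ^ (30 * r) := by exact_mod_cast hnat
  have e : (((r + 1) * (Z + 1) ^ r : ℕ) : ℝ) * ((50 * (Z : ℝ) ^ 2 + 1) ^ r * (C0 * ((D' * Z ^ r : ℕ) : ℝ) ^ 11 * A)) =
      (((r + 1 : ℕ) : ℝ) * ((Z : ℝ) + 1) ^ r * ((50 * (Z : ℝ) ^ 2 + 1) ^ r * ((Z : ℝ) ^ r) ^ 11)) *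
        (C0 * (D' : ℝ) ^ 11 * A) := by
    push_cast
    ring
  rw [e]
  gcongr

theorem large (K s : ℝ) (hs : 0 < s) : ∃ n0 : ℕ, ∀ n : ℕ, n0 ≤ n → K ≤ (n : ℝ) ^ s := by
  have h := (tendsto_rpow_atTop hs).comp tendsto_natCast_atTop_atTop
  have h2 := h.eventually (Filter.eventually_ge_atTop K)
  rw [Filter.eventually_atTop] at h2
  exact h2

theorem facts : ∃ Y1 : ℕ, ∀ Y : ℕ, Y1 ≤ Y → 12 ≤ Y ∧ ∀ Z : ℕ, Z = ⌊(Y : ℝ) ^ (8 / 5 : ℝ)⌋₊ →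
    (Z : ℝ) ≤ (Y : ℝ) ^ (8 / 5 : ℝ) ∧ 1 ≤ Z ∧ 200 * Z ≤ Y ^ 2 ∧ 800 * ((Z : ℝ) + 1) ≤ Real.exp Y ∧
    ∃ r : ℕ, Odd r ∧ 500 * ((Z : ℝ) / Y) + 1 ≤ ((r + 1 : ℕ) : ℝ) ∧ ((Y : ℝ) + 1) ^ (30 * r) ≤ Real.exp Y := by
  obtain ⟨n1, h1⟩ := large 361800 (3 / 10) (by norm_num)
  obtain ⟨n2, h2⟩ := large 200 (2 / 5) (by norm_num)
  refine ⟨n1 + n2 + 4800, ?_⟩
  intro Y hY
  have hYr : (4800 : ℝ) ≤ Y := by exact_mod_cast (by omega : 4800 ≤ Y)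
  have hY0 : (0 : ℝ) < Y := by linarith
  refine ⟨by omega, ?_⟩
  intro Z hZ
  have hZle : (Z : ℝ) ≤ (Y : ℝ) ^ (8 / 5 : ℝ) := by
    rw [hZ]
    exact Nat.floor_le (by positivity)
  have hZ200 : 200 * (Z : ℝ) ≤ (Y : ℝ) ^ 2 := by
    calc 200 * (Z : ℝ) ≤ (Y : ℝ) ^ (2 / 5 : ℝ) * (Y : ℝ) ^ (8 / 5 : ℝ) := by
          have := h2 Y (by omega)
          gcongr
      _ = (Y : ℝ) ^ (2 : ℝ) := by rw [← Real.rpow_add hY0]; norm_num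
      _ = (Y : ℝ) ^ 2 := by norm_num
  refine ⟨hZle, ?_, by exact_mod_cast hZ200, ?_, ?_⟩
  · rw [hZ]
    rw [Nat.one_le_floor_iff]
    apply Real.one_le_rpow (by linarith) (by norm_num)
  · have h3 := Real.pow_div_factorial_le_exp (Y : ℝ) hY0.le 3
    have h4 : ((3 : ℕ).factorial : ℝ) = 6 := by norm_num [Nat.factorial]
    rw [h4] at h3
    refine le_trans ?_ h3
    rw [le_div_iff₀ (by norm_num)]
    nlinarith [mul_nonneg (sq_nonneg (Y : ℝ)) (by linarith : (0 : ℝ) ≤ (Y : ℝ) - 4800)]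
  · set R : ℕ := ⌈300 * (Y : ℝ) ^ (3 / 5 : ℝ)⌉₊ with hR
    have hR1 : 300 * (Y : ℝ) ^ (3 / 5 : ℝ) ≤ R := Nat.le_ceil _
    have hR2 : (R : ℝ) < 300 * (Y : ℝ) ^ (3 / 5 : ℝ) + 1 := Nat.ceil_lt_add_one (by positivity)
    have hY35 : 1 ≤ (Y : ℝ) ^ (3 / 5 : ℝ) := Real.one_le_rpow (by linarith) (by norm_num)
    have hZY : (Z : ℝ) / Y ≤ (Y : ℝ) ^ (3 / 5 : ℝ) := by
      rw [div_le_iff₀ hY0]
      calc (Z : ℝ) ≤ (Y : ℝ) ^ (8 / 5 : ℝ) := hZle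
        _ = (Y : ℝ) ^ (3 / 5 : ℝ) * (Y : ℝ) ^ (1 : ℝ) := by rw [← Real.rpow_add hY0]; norm_num
        _ = _ := by rw [Real.rpow_one]
    refine ⟨2 * R + 1, ⟨R, rfl⟩, ?_, ?_⟩
    · push_cast
      linarith
    · have hlog : Real.log ((Y : ℝ) + 1) ≤ 20 * (Y : ℝ) ^ (1 / 10 : ℝ) := by
        have h3 := Real.log_le_rpow_div (x := (Y : ℝ) + 1) (by linarith) (ε := 1 / 10) (by norm_num)
        have h4 : ((Y : ℝ) + 1) ^ (1 / 10 : ℝ) ≤ 2 * (Y : ℝ) ^ (1 / 10 : ℝ) := by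
          calc ((Y : ℝ) + 1) ^ (1 / 10 : ℝ) ≤ (2 * (Y : ℝ)) ^ (1 / 10 : ℝ) := by
                apply Real.rpow_le_rpow (by linarith) (by linarith) (by norm_num)
            _ = (2 : ℝ) ^ (1 / 10 : ℝ) * (Y : ℝ) ^ (1 / 10 : ℝ) := Real.mul_rpow (by norm_num) hY0.le
            _ ≤ 2 * (Y : ℝ) ^ (1 / 10 : ℝ) := by
                have h5 : (2 : ℝ) ^ (1 / 10 : ℝ) ≤ (2 : ℝ) ^ (1 : ℝ) :=
                  Real.rpow_le_rpow_of_exponent_le (by norm_num) (by norm_num)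
                rw [Real.rpow_one] at h5
                gcongr
        calc Real.log ((Y : ℝ) + 1) ≤ ((Y : ℝ) + 1) ^ (1 / 10 : ℝ) / (1 / 10) := h3
          _ = 10 * ((Y : ℝ) + 1) ^ (1 / 10 : ℝ) := by ring
          _ ≤ 10 * (2 * (Y : ℝ) ^ (1 / 10 : ℝ)) := by gcongr
          _ = _ := by ring
      have hr : ((30 * (2 * R + 1) : ℕ) : ℝ) ≤ 18090 * (Y : ℝ) ^ (3 / 5 : ℝ) := by
        push_cast
        linarith
      have hpos : (0 : ℝ) < (Y : ℝ) + 1 := by linarith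
      rw [← Real.log_le_iff_le_exp (by positivity), Real.log_pow]
      have hl0 : 0 ≤ Real.log ((Y : ℝ) + 1) := Real.log_nonneg (by linarith)
      calc ((30 * (2 * R + 1) : ℕ) : ℝ) * Real.log ((Y : ℝ) + 1)
          ≤ (18090 * (Y : ℝ) ^ (3 / 5 : ℝ)) * (20 * (Y : ℝ) ^ (1 / 10 : ℝ)) := by gcongr
        _ = 361800 * (Y : ℝ) ^ (7 / 10 : ℝ) := by
            have : (Y : ℝ) ^ (7 / 10 : ℝ) = (Y : ℝ) ^ (3 / 5 : ℝ) * (Y : ℝ) ^ (1 / 10 : ℝ) := by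
              rw [← Real.rpow_add hY0]; norm_num
            rw [this]
            ring
        _ ≤ (Y : ℝ) ^ (3 / 10 : ℝ) * (Y : ℝ) ^ (7 / 10 : ℝ) := by
            have := h1 Y (by omega)
            gcongr
        _ = (Y : ℝ) ^ (1 : ℝ) := by rw [← Real.rpow_add hY0]; norm_num
        _ = Y := Real.rpow_one _

end Pool.Agent.R154.FT
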