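import Pool.Agent.R154.FT.BadP
import Pool.Agent.R154.FT.Num

/-!
# The modulus and the final numerical estimate
-/

set_option autoImplicit false
open Finset

namespace Pool.Agent.R154.FT
open Pool.Agent.W65.FS Pool.Agent.TH696.FA

theorem mod_inst (Y Z : ℕ) (hY : 2 ≤ Y) (hZ : Z < Y ^ 2) : Mod ((Nat.lcmUpto Y) ^ 3) Y Z := by
  have hdl : ∀ m : ℕ, 1 ≤ m → m ≤ Y → m ∣ Nat.lcmUpto Y := by
    intro m h1 h2
    unfold Nat.lcmUpto
    exact Finset.dvd_lcm (f := id) (Finset.mem_Icc.2 ⟨h1, h2⟩)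
  refine ⟨pow_pos (Nat.lcmUpto_pos Y) 3, ?_, ?_, hZ, hY⟩
  · intro d hd hdZ hp
    rw [Nat.dvd_iff_prime_pow_dvd_dvd]
    intro p a hpp hpa
    rcases Nat.eq_zero_or_pos a with h0 | h0
    · rw [h0, pow_zero]; exact one_dvd _
    have hpd : p ∣ d := (dvd_pow_self p h0.ne').trans hpa
    have hpY := hp p hpp hpd
    have hle : p ^ a ≤ d := Nat.le_of_dvd hd hpa
    obtain ⟨k, hk1, hk2⟩ : ∃ k, p ^ k ≤ Y ∧ a ≤ 3 * k := by
      by_cases h3 : a ≤ 3
      · exact ⟨1, by rwa [pow_one], by omega⟩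
      · refine ⟨a / 2, ?_, by omega⟩
        by_contra hcon
        push Not at hcon
        have h4 : Y ^ 2 < (p ^ (a / 2)) ^ 2 := Nat.pow_lt_pow_left hcon (by norm_num)
        rw [← pow_mul] at h4
        have h5 : p ^ (a / 2 * 2) ≤ p ^ a := Nat.pow_le_pow_right hpp.pos (by omega)
        omega
    have h6 : p ^ k ∣ Nat.lcmUpto Y := hdl _ (Nat.one_le_pow _ _ hpp.pos) hk1
    calc p ^ a ∣ p ^ (3 * k) := pow_dvd_pow p hk2
      _ = (p ^ k) ^ 3 := by ring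
      _ ∣ _ := pow_dvd_pow_of_dvd h6 3
  · intro l hl hlY hd
    have h1 := hl.dvd_of_dvd_pow hd
    have h2 : Nat.lcmUpto Y ∣ Y.factorial := by
      unfold Nat.lcmUpto
      apply Finset.lcm_dvd
      intro b hb
      rw [Finset.mem_Icc] at hb
      exact (show b ∣ Y.factorial from Nat.dvd_factorial (by omega) hb.2)
    have h3 := (hl.dvd_factorial).1 (h1.trans h2)
    omega

theorem lcm_exp (Y : ℕ) : ((((Nat.lcmUpto Y) ^ 3 : ℕ)) : ℝ) ≤ Real.exp (18 * Y) := by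
  have hK0r : (0 : ℝ) < (Nat.lcmUpto Y : ℕ) := by exact_mod_cast Nat.lcmUpto_pos Y
  rw [Nat.cast_pow, ← Real.log_le_iff_le_exp (by positivity), Real.log_pow, ← Chebyshev.psi_eq_log_lcmUpto]
  have h1 := Chebyshev.psi_le_const_mul_self (x := (Y : ℝ)) (by positivity)
  have h4 : Real.log 4 ≤ 2 := by
    have : Real.log 4 = 2 * Real.log 2 := by
      rw [show (4 : ℝ) = 2 ^ 2 by norm_num, Real.log_pow]; norm_num
    rw [this]
    have := Real.log_two_lt_d9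
    linarith
  have hY0 : (0 : ℝ) ≤ Y := Nat.cast_nonneg _
  have h5 : Chebyshev.psi (Y : ℝ) ≤ 6 * Y := by
    refine h1.trans ?_
    apply mul_le_mul_of_nonneg_right (by linarith) hY0
  push_cast
  linarith

theorem fin_num (ε c1 C1 C0 e t : ℝ) (hc1 : 0 < c1) (hC0 : 0 < C0)
    (he0 : 0 < e) (heε : e ≤ ε) (he1 : e ≤ 1 / 100) (ht : t = e / 100) :
    ∃ n0 : ℕ, ∀ n : ℕ, n0 ≤ n → ∀ S V D T : ℝ, 0 ≤ S → 1 ≤ V → V ≤ (n : ℝ) ^ t → 1 ≤ D → D ≤ (n : ℝ) ^ t →
      c1 * (n : ℝ) ^ (1 - e / 4) - C1 * D ^ 15 * (n : ℝ) ^ (19 / 20 : ℝ) ≤ D ^ 4 * S →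
      S * (1 / V) - V * (C0 * D ^ 11 * (n : ℝ) ^ (19 / 20 : ℝ)) ≤ 25 * T → (n : ℝ) ^ (1 - ε) ≤ T := by
  have ht0 : 0 < t := by rw [ht]; positivity
  obtain ⟨n1, h1⟩ := large (1 / c1) t ht0
  obtain ⟨n2, h2⟩ := large C1 t ht0
  obtain ⟨n3, h3⟩ := large C0 t ht0
  obtain ⟨n4, h4⟩ := large 8 (1 / 200) (by norm_num)
  obtain ⟨n5, h5⟩ := large 200 (69 * e / 100) (by positivity)
  refine ⟨n1 + n2 + n3 + n4 + n5 + 1, ?_⟩
  intro n hn S V D T hS hV1 hV hD1 hD hlow hup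
  have a1 := h1 n (by omega)
  have a2 := h2 n (by omega)
  have a3 := h3 n (by omega)
  have a4 := h4 n (by omega)
  have a5 := h5 n (by omega)
  have hnr : (1 : ℝ) ≤ n := by exact_mod_cast (by omega : 1 ≤ n)
  have hn0 : (0 : ℝ) < n := by linarith
  set B : ℝ := (n : ℝ) ^ t with hB
  set G : ℝ := (n : ℝ) ^ (19 / 20 : ℝ) with hG
  set A : ℝ := (n : ℝ) ^ (1 - e / 4) with hA
  set U : ℝ := (n : ℝ) ^ (1 - e / 4 - 6 * t) with hU
  set W : ℝ := (n : ℝ) ^ (1 - e) with hW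
  have hB1 : 1 ≤ B := Real.one_le_rpow hnr ht0.le
  have hB0 : 0 < B := by linarith
  have hU0 : 0 < U := by positivity
  have hG0 : 0 < G := by positivity
  have hW0 : 0 < W := by positivity
  have hBpow : ∀ k : ℕ, B ^ k = (n : ℝ) ^ (k * t) := by
    intro k
    rw [hB, ← Real.rpow_natCast, ← Real.rpow_mul hn0.le]
    congr 1
    ring
  have hAU : A = U * B ^ 6 := by
    rw [hBpow 6, hU, hA, ← Real.rpow_add hn0]
    congr 1
    push_cast
    ring
  have hHU : G * B ^ 17 * 8 ≤ U := by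
    calc G * B ^ 17 * 8 ≤ G * B ^ 17 * (n : ℝ) ^ (1 / 200 : ℝ) := by gcongr
      _ = (n : ℝ) ^ (19 / 20 + ((17 : ℕ) : ℝ) * t + 1 / 200) := by
          rw [hBpow 17, hG, ← Real.rpow_add hn0, ← Real.rpow_add hn0]
      _ ≤ U := by
          apply Real.rpow_le_rpow_of_exponent_le hnr
          push_cast
          rw [ht]
          linarith
  have hWU : W * 200 ≤ U := by
    calc W * 200 ≤ W * (n : ℝ) ^ (69 * e / 100) := by gcongr
      _ = (n : ℝ) ^ (1 - e + 69 * e / 100) := by rw [← Real.rpow_add hn0]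
      _ ≤ U := by
          apply Real.rpow_le_rpow_of_exponent_le hnr
          rw [ht]
          linarith
  have hWε : (n : ℝ) ^ (1 - ε) ≤ W := Real.rpow_le_rpow_of_exponent_le hnr (by linarith)
  have hcB : 1 ≤ c1 * B := by
    calc (1 : ℝ) = c1 * (1 / c1) := by field_simp
      _ ≤ c1 * B := by gcongr
  have hA0 : 0 < A := by positivity
  have hB6 : 1 ≤ B ^ 6 := one_le_pow₀ hB1
  -- the first bound
  have s1 : A - G * B ^ 17 ≤ B ^ 5 * S := by
    have e1 : B * (c1 * A - C1 * D ^ 15 * G) ≤ B * (D ^ 4 * S) := by gcongr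
    have e2 : A ≤ B * (c1 * A) := by
      calc A = 1 * A := (one_mul _).symm
        _ ≤ c1 * B * A := by gcongr
        _ = B * (c1 * A) := by ring
    have e3 : B * (C1 * D ^ 15 * G) ≤ G * B ^ 17 := by
      calc B * (C1 * D ^ 15 * G) ≤ B * (B * B ^ 15 * G) := by gcongr
        _ = G * B ^ 17 := by ring
    have e4 : B * (D ^ 4 * S) ≤ B ^ 5 * S := by
      calc B * (D ^ 4 * S) ≤ B * (B ^ 4 * S) := by gcongr
        _ = B ^ 5 * S := by ring
    have e5 : B * (c1 * A - C1 * D ^ 15 * G) = B * (c1 * A) - B * (C1 * D ^ 15 * G) := by ring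
    linarith
  have s2 : B ^ 5 * (U * B / 2) ≤ B ^ 5 * S := by
    have e1 : G * B ^ 17 ≤ U * B ^ 6 / 8 := by
      have : U ≤ U * B ^ 6 := le_mul_of_one_le_right hU0.le hB6
      linarith
    have e2 : B ^ 5 * (U * B / 2) = U * B ^ 6 / 2 := by ring
    rw [hAU] at s1
    have : 0 < U * B ^ 6 := by positivity
    rw [e2]
    linarith
  have s3 : U * B / 2 ≤ S := le_of_mul_le_mul_left s2 (by positivity)
  have s4 : U / 2 ≤ S * (1 / V) := by
    have e1 : 1 / B ≤ 1 / V := by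
      apply one_div_le_one_div_of_le (by linarith) hV
    calc U / 2 = (U * B / 2) * (1 / B) := by field_simp
      _ ≤ S * (1 / V) := by gcongr
  have s5 : V * (C0 * D ^ 11 * G) ≤ U / 8 := by
    have e1 : V * (C0 * D ^ 11 * G) ≤ G * B ^ 17 := by
      calc V * (C0 * D ^ 11 * G) ≤ B * (B * B ^ 11 * G) := by gcongr
        _ = G * B ^ 13 := by ring
        _ ≤ G * B ^ 17 := by
            have : B ^ 13 ≤ B ^ 17 := pow_le_pow_right₀ hB1 (by norm_num)
            gcongr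
    linarith
  linarith

end Pool.Agent.R154.FT
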