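import Pool.Agent.R154.FT.Sieve2
import Pool.Agent.R154.FT.Num

/-!
# Numerical estimates for the window `(Y, Y²/200000]`
-/

set_option autoImplicit false
open Finset

namespace Pool.Agent.R154.FT

/-- Chebyshev's function over the naturals -/
noncomputable def th (Z : ℕ) : ℝ := ∑ l ∈ (Ioc 0 Z).filter Nat.Prime, Real.log l

theorem th_le (Z : ℕ) : th Z ≤ Real.log 4 * Z := by
  have h := Chebyshev.theta_le_log4_mul_x (x := (Z : ℝ)) (Nat.cast_nonneg _)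
  unfold Chebyshev.theta at h
  rw [Nat.floor_natCast] at h
  exact h

theorem th_nonneg (Z : ℕ) : 0 ≤ th Z := by
  apply Finset.sum_nonneg
  intro l _
  exact Real.log_natCast_nonneg l

theorem sum_logs (Y : ℕ) (hY : 1 ≤ Y) (Z : ℕ) (hYZ : Y ≤ Z) :
    ∑ l ∈ (Ioc Y Z).filter Nat.Prime, Real.log l / (l : ℝ) ^ 2 ≤
      th Z / (Z : ℝ) ^ 2 + 2 * Real.log 4 * (1 / (Y : ℝ) - 1 / Z) := by
  induction Z, hYZ using Nat.le_induction with
  | base =>
    rw [Finset.Ioc_self, Finset.filter_empty, Finset.sum_empty, sub_self, mul_zero, add_zero]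
    exact div_nonneg (th_nonneg _) (by positivity)
  | succ Z hZ ih =>
    have hZ1 : 1 ≤ Z := hY.trans hZ
    have hZr : (1 : ℝ) ≤ Z := by exact_mod_cast hZ1
    have hc : 0 ≤ Real.log 4 := Real.log_nonneg (by norm_num)
    have key : th Z * (1 / (Z : ℝ) ^ 2 - 1 / ((Z : ℝ) + 1) ^ 2) ≤ 2 * Real.log 4 * (1 / (Z : ℝ) - 1 / ((Z : ℝ) + 1)) := by
      have h1 : 0 ≤ 1 / (Z : ℝ) ^ 2 - 1 / ((Z : ℝ) + 1) ^ 2 := by
        rw [sub_nonneg]
        apply one_div_le_one_div_of_le (by positivity)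
        gcongr
        linarith
      calc th Z * (1 / (Z : ℝ) ^ 2 - 1 / ((Z : ℝ) + 1) ^ 2)
          ≤ (Real.log 4 * Z) * (1 / (Z : ℝ) ^ 2 - 1 / ((Z : ℝ) + 1) ^ 2) :=
            mul_le_mul_of_nonneg_right (th_le Z) h1
        _ = Real.log 4 * ((2 * Z + 1) / (Z * ((Z : ℝ) + 1) ^ 2)) := by
            field_simp
            ring
        _ ≤ Real.log 4 * (2 * (Z + 1) / (Z * ((Z : ℝ) + 1) ^ 2)) := by
            gcongr
            linarith
        _ = _ := by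
            field_simp
            ring
    have hI : Ioc Y (Z + 1) = insert (Z + 1) (Ioc Y Z) := by
      ext x
      simp only [mem_Ioc, mem_insert]
      omega
    have hI0 : Ioc 0 (Z + 1) = insert (Z + 1) (Ioc 0 Z) := by
      ext x
      simp only [mem_Ioc, mem_insert]
      omega
    by_cases hp : (Z + 1).Prime
    · have hth : th (Z + 1) = Real.log ((Z : ℝ) + 1) + th Z := by
        unfold th
        rw [hI0, Finset.filter_insert, if_pos hp, Finset.sum_insert (by simp)]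
        push_cast
        rfl
      rw [hI, Finset.filter_insert, if_pos hp, Finset.sum_insert (by simp), hth]
      push_cast
      have e : (Real.log ((Z : ℝ) + 1) + th Z) / ((Z : ℝ) + 1) ^ 2 =
        Real.log ((Z : ℝ) + 1) / ((Z : ℝ) + 1) ^ 2 + th Z * (1 / ((Z : ℝ) + 1) ^ 2) := by ring
      rw [e]
      have e2 : th Z / (Z : ℝ) ^ 2 = th Z * (1 / (Z : ℝ) ^ 2) := by ring
      rw [e2] at ih
      nlinarith
    · have hth : th (Z + 1) = th Z := by
        unfold th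
        rw [hI0, Finset.filter_insert, if_neg hp]
      rw [hI, Finset.filter_insert, if_neg hp, hth]
      push_cast
      have e : th Z / ((Z : ℝ) + 1) ^ 2 = th Z * (1 / ((Z : ℝ) + 1) ^ 2) := by ring
      rw [e]
      have e2 : th Z / (Z : ℝ) ^ 2 = th Z * (1 / (Z : ℝ) ^ 2) := by ring
      rw [e2] at ih
      nlinarith

theorem log_four : Real.log 4 ≤ 3 / 2 := by
  have : Real.log 4 = 2 * Real.log 2 := by
    rw [show (4 : ℝ) = 2 ^ 2 by norm_num, Real.log_pow]; norm_num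
  rw [this]
  have := Real.log_two_lt_d9
  linarith

/-- the sum of `1 / l ^ 2` over the primes `l > Y` -/
theorem sum_primes (Y Z : ℕ) (hY : 2 ≤ Y) : ∑ l ∈ win Y Z, (((l : ℕ) : ℝ) ^ 2)⁻¹ ≤ 3 / (Y * Real.log Y) := by
  have hYr : (2 : ℝ) ≤ Y := by exact_mod_cast hY
  have hl : 0 < Real.log Y := Real.log_pos (by linarith)
  have h1 : ∑ l ∈ win Y Z, (((l : ℕ) : ℝ) ^ 2)⁻¹ = ∑ x ∈ (Finset.Ioc Y Z).filter Nat.Prime, ((x : ℝ) ^ 2)⁻¹ :=
    Finset.sum_subtype_eq_sum_filter (fun x : ℕ => ((x : ℝ) ^ 2)⁻¹)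
  rw [h1]
  by_cases hYZ : Y ≤ Z
  · have hZr : (Y : ℝ) ≤ Z := by exact_mod_cast hYZ
    have hZ0 : (0 : ℝ) < Z := by linarith
    have h2 := sum_logs Y (by omega) Z hYZ
    have h3 : Real.log Y * ∑ x ∈ (Finset.Ioc Y Z).filter Nat.Prime, ((x : ℝ) ^ 2)⁻¹ ≤
        ∑ l ∈ (Ioc Y Z).filter Nat.Prime, Real.log l / (l : ℝ) ^ 2 := by
      rw [Finset.mul_sum]
      apply Finset.sum_le_sum
      intro l hl'
      rw [mem_filter, mem_Ioc] at hl'
      have h4 : (Y : ℝ) ≤ l := by exact_mod_cast hl'.1.1.le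
      have h5 : Real.log Y ≤ Real.log l := Real.log_le_log (by linarith) h4
      rw [div_eq_mul_inv]
      gcongr
    have h4 : th Z / (Z : ℝ) ^ 2 ≤ Real.log 4 * (1 / Z) := by
      rw [div_le_iff₀ (by positivity)]
      have e : Real.log 4 * (1 / (Z : ℝ)) * (Z : ℝ) ^ 2 = Real.log 4 * Z := by field_simp
      rw [e]
      exact th_le Z
    have hc : 0 ≤ Real.log 4 := Real.log_nonneg (by norm_num)
    have h5 : Real.log Y * ∑ x ∈ (Finset.Ioc Y Z).filter Nat.Prime, ((x : ℝ) ^ 2)⁻¹ ≤ 3 * (1 / Y) := by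
      have h6 : 0 ≤ Real.log 4 * (1 / (Z : ℝ)) := by positivity
      have h7 : 2 * Real.log 4 * (1 / (Y : ℝ)) ≤ 3 * (1 / Y) := by
        have := log_four
        gcongr
        linarith
      have e : 2 * Real.log 4 * (1 / (Y : ℝ) - 1 / Z) = 2 * Real.log 4 * (1 / (Y : ℝ)) - 2 * (Real.log 4 * (1 / Z)) := by ring
      rw [e] at h2
      linarith
    rw [le_div_iff₀ (by positivity)]
    calc (∑ x ∈ (Finset.Ioc Y Z).filter Nat.Prime, ((x : ℝ) ^ 2)⁻¹) * (Y * Real.log Y)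
        = (Real.log Y * ∑ x ∈ (Finset.Ioc Y Z).filter Nat.Prime, ((x : ℝ) ^ 2)⁻¹) * Y := by ring
      _ ≤ (3 * (1 / Y)) * Y := by gcongr
      _ = 3 := by field_simp
  · rw [Finset.Ioc_eq_empty (by omega), Finset.filter_empty, Finset.sum_empty]
    positivity

theorem V_main3 (Y r : ℕ) (E0 : ℝ) (hY : 12 ≤ Y) (hr1 : 1 ≤ r) (hr : 5 * E0 + 1 ≤ ((r + 1 : ℕ) : ℝ)) :
    1 / ((Y : ℝ) + 1) ^ (30 * r) ≤ 1 / 2 * Real.exp (-(2 * E0)) := by
  have hYr : (12 : ℝ) ≤ Y := by exact_mod_cast hY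
  have hr1r : (1 : ℝ) ≤ r := by exact_mod_cast hr1
  have he : Real.exp 1 ≤ (Y : ℝ) + 1 := by
    have := Real.exp_one_lt_d9
    linarith
  push_cast at hr
  have h1 : Real.exp (30 * r) ≤ ((Y : ℝ) + 1) ^ (30 * r) := by
    have h2 : Real.exp (30 * r) = (Real.exp 1) ^ (30 * r) := by
      rw [← Real.exp_nat_mul]
      congr 1
      push_cast
      ring
    rw [h2]
    gcongr
  have h3 : 2 * Real.exp (2 * E0) ≤ Real.exp (30 * r) := by
    have h4 : (2 : ℝ) ≤ Real.exp 1 := by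
      have := Real.add_one_le_exp (1 : ℝ)
      linarith
    calc 2 * Real.exp (2 * E0) ≤ Real.exp 1 * Real.exp (2 * E0) := by gcongr
      _ = Real.exp (1 + 2 * E0) := by rw [Real.exp_add]
      _ ≤ Real.exp (30 * r) := by
          apply Real.exp_le_exp.2
          linarith
  rw [div_le_iff₀ (by positivity), Real.exp_neg]
  have h5 : 0 < Real.exp (2 * E0) := Real.exp_pos _
  calc (1 : ℝ) = 1 / 2 * (Real.exp (2 * E0))⁻¹ * (2 * Real.exp (2 * E0)) := by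
        field_simp
    _ ≤ 1 / 2 * (Real.exp (2 * E0))⁻¹ * ((Y : ℝ) + 1) ^ (30 * r) := by
        have := h3.trans h1
        gcongr

theorem facts3 : ∃ Y1 : ℕ, ∀ Y : ℕ, Y1 ≤ Y → 12 ≤ Y ∧ ∀ Z : ℕ, Z = Y ^ 2 / 200000 →
    1 ≤ Z ∧ 200 * Z ≤ Y ^ 2 ∧ Y ^ 2 < 200000 * (Z + 1) ∧ 40000 * ((Z : ℝ) + 1) ^ 5 ≤ Real.exp Y ∧
    ∃ (E0 : ℝ) (r : ℕ), 0 ≤ E0 ∧ 100 * (Z : ℝ) * ∑ l ∈ win Y Z, (((l : ℕ) : ℝ) ^ 2)⁻¹ ≤ E0 ∧
      Odd r ∧ 5 * E0 + 1 ≤ ((r + 1 : ℕ) : ℝ) ∧ ((Y : ℝ) + 1) ^ (30 * r) ≤ Real.exp Y := by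
  refine ⟨40000 * 39916800, ?_⟩
  intro Y hY
  have hYr : (40000 * 39916800 : ℝ) ≤ Y := by exact_mod_cast hY
  have hY0 : (0 : ℝ) < Y := by linarith
  refine ⟨by omega, ?_⟩
  intro Z hZ
  have hlt : Y ^ 2 < 200000 * (Z + 1) := by
    rw [hZ]
    omega
  have hle : 200000 * Z ≤ Y ^ 2 := by
    rw [hZ]
    omega
  have hYY : 200000 * Y ≤ Y ^ 2 := by
    rw [pow_two]
    exact Nat.mul_le_mul_right Y (by omega)
  have hZ1 : 1 ≤ Z := by omega
  have hler : 200000 * (Z : ℝ) ≤ (Y : ℝ) ^ 2 := by exact_mod_cast hle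
  have hZ1' : (Z : ℝ) + 1 ≤ (Y : ℝ) ^ 2 := by
    have : Z + 1 ≤ Y ^ 2 := by omega
    exact_mod_cast this
  refine ⟨hZ1, by omega, hlt, ?_, ?_⟩
  · have h3 := Real.pow_div_factorial_le_exp (Y : ℝ) hY0.le 11
    have h4 : ((11 : ℕ).factorial : ℝ) = 39916800 := by norm_num [Nat.factorial]
    rw [h4] at h3
    refine le_trans ?_ h3
    rw [le_div_iff₀ (by norm_num)]
    calc 40000 * ((Z : ℝ) + 1) ^ 5 * 39916800 ≤ 40000 * ((Y : ℝ) ^ 2) ^ 5 * 39916800 := by gcongr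
      _ = (40000 * 39916800) * (Y : ℝ) ^ 10 := by ring
      _ ≤ Y * (Y : ℝ) ^ 10 := by gcongr
      _ = (Y : ℝ) ^ 11 := by ring
  · have hlY : 1 < Real.log Y := by
      rw [Real.lt_log_iff_exp_lt (by linarith)]
      have := Real.exp_one_lt_d9
      linarith
    have hlY0 : 0 < Real.log Y := by linarith
    obtain ⟨E0, hE0⟩ : ∃ E0 : ℝ, E0 = 300 * Z / (Y * Real.log Y) := ⟨_, rfl⟩
    have hE00 : 0 ≤ E0 := by rw [hE0]; positivity
    have hE1 : E0 * Real.log Y ≤ 15 / 10000 * Y := by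
      rw [hE0]
      have e : 300 * (Z : ℝ) / (Y * Real.log Y) * Real.log Y = 300 * Z / Y := by field_simp
      rw [e, div_le_iff₀ hY0]
      linarith
    set R : ℕ := ⌈5 / 2 * E0⌉₊ with hR
    have hR1 : 5 / 2 * E0 ≤ R := Nat.le_ceil _
    have hR2 : (R : ℝ) < 5 / 2 * E0 + 1 := Nat.ceil_lt_add_one (by positivity)
    refine ⟨E0, 2 * R + 1, hE00, ?_, ⟨R, rfl⟩, ?_, ?_⟩
    · calc 100 * (Z : ℝ) * ∑ l ∈ win Y Z, (((l : ℕ) : ℝ) ^ 2)⁻¹ ≤ 100 * Z * (3 / (Y * Real.log Y)) := by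
            have := sum_primes Y Z (by omega)
            gcongr
        _ = E0 := by rw [hE0]; ring
    · push_cast
      linarith
    · have hpos : (0 : ℝ) < (Y : ℝ) + 1 := by linarith
      rw [← Real.log_le_iff_le_exp (by positivity), Real.log_pow]
      have hlog : Real.log ((Y : ℝ) + 1) ≤ 2 * Real.log Y := by
        have h1 : (Y : ℝ) + 1 ≤ (Y : ℝ) ^ 2 := by nlinarith
        have h2 := Real.log_le_log hpos h1
        rw [Real.log_pow] at h2
        exact_mod_cast h2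
      have hl0 : 0 ≤ Real.log ((Y : ℝ) + 1) := Real.log_nonneg (by linarith)
      have hr : ((30 * (2 * R + 1) : ℕ) : ℝ) ≤ 150 * E0 + 90 := by
        push_cast
        linarith
      have hsq : Real.log Y ≤ 2 * √(Y : ℝ) := by
        have h1 : Real.log Y = 2 * Real.log (√(Y : ℝ)) := by
          rw [Real.log_sqrt hY0.le]
          ring
        rw [h1]
        have h2 := Real.log_le_sub_one_of_pos (Real.sqrt_pos.2 hY0)
        linarith
      have hsq2 : 720 * √(Y : ℝ) ≤ Y := by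
        have h1 : (720 : ℝ) ≤ √(Y : ℝ) := by
          apply Real.le_sqrt_of_sq_le
          linarith
        calc 720 * √(Y : ℝ) ≤ √(Y : ℝ) * √(Y : ℝ) := by gcongr
          _ = Y := Real.mul_self_sqrt hY0.le
      calc ((30 * (2 * R + 1) : ℕ) : ℝ) * Real.log ((Y : ℝ) + 1)
          ≤ (150 * E0 + 90) * (2 * Real.log Y) := by gcongr
        _ = 300 * (E0 * Real.log Y) + 180 * Real.log Y := by ring
        _ ≤ 300 * (15 / 10000 * Y) + 180 * (2 * √(Y : ℝ)) := by gcongr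
        _ ≤ Y := by linarith

end Pool.Agent.R154.FT
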