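import Pool.Agent.R154.FT.Core3
import Pool.Agent.R154.FT.Num3
import Pool.Agent.R154.FT.Fin

/-!
# The main theorem: all prime factors of `2^(x+y) + 2^(z+w) + 1` exceed `c (log n)²`
-/

set_option autoImplicit false
open Finset

namespace Pool.Agent.R154.FT
open Pool.Agent.W65.FS Pool.Agent.TH696.FA

theorem large_log (κ : ℝ) (hκ : 0 < κ) (M : ℝ) : ∃ n0 : ℕ, ∀ n : ℕ, n0 ≤ n → M ≤ κ * Real.log n := by
  have h := Real.tendsto_log_atTop.comp (tendsto_natCast_atTop_atTop (R := ℝ))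
  have h2 := h.eventually (Filter.eventually_ge_atTop (M / κ))
  rw [Filter.eventually_atTop] at h2
  obtain ⟨n0, hn0⟩ := h2
  refine ⟨n0, fun n hn => ?_⟩
  have h3 := hn0 n hn
  simp only [Function.comp_apply] at h3
  rw [div_le_iff₀ hκ] at h3
  linarith

theorem main3 (ε : ℝ) (hε : 0 < ε) : ∃ c : ℝ, 0 < c ∧ ∃ n0 : ℕ, ∀ n : ℕ, n0 ≤ n → Odd n →
    ∃ T : Finset (ℕ × ℕ × ℕ × ℕ), (n : ℝ) ^ (1 - ε) ≤ (T.card : ℝ) ∧
      ∀ x y z w : ℕ, (x, y, z, w) ∈ T → n = x ^ 2 + y ^ 2 + z ^ 2 + w ^ 2 ∧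
        ∀ q : ℕ, q.Prime → q ∣ 2 ^ (x + y) + 2 ^ (z + w) + 1 → c * (Real.log n) ^ 2 < q := by
  obtain ⟨C0, hC0, Y0, hcore⟩ := core3
  set e : ℝ := min ε (1 / 100) with he
  have he0 : 0 < e := lt_min hε (by norm_num)
  obtain ⟨c1, C1, hc1, hC1, hcl⟩ := class_lower (e / 4) (by positivity)
  set t : ℝ := e / 100 with ht
  have ht0 : 0 < t := by positivity
  obtain ⟨n1, hn1⟩ := fin_num ε c1 C1 C0 e t hc1 hC0 he0 (min_le_left _ _) (min_le_right _ _) ht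
  obtain ⟨Y1, hY1⟩ := facts3
  set κ : ℝ := t / 1349 with hκ
  have hκ0 : 0 < κ := by positivity
  obtain ⟨n2, hn2⟩ := large_log κ hκ0 ((Y0 + Y1 + 2 : ℕ) : ℝ)
  refine ⟨(κ / 2) ^ 2 / 200000, by positivity, n1 + n2 + 1, ?_⟩
  intro n hn hno
  have hnr : (1 : ℝ) ≤ n := by exact_mod_cast hno.pos
  have hn0 : (0 : ℝ) < n := by linarith
  have hlog0 : 0 ≤ Real.log n := Real.log_nonneg hnr
  obtain ⟨Y, hY⟩ : ∃ Y : ℕ, Y = ⌊κ * Real.log n⌋₊ := ⟨_, rfl⟩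
  have hYM : Y0 + Y1 + 2 ≤ Y := by
    rw [hY]
    exact Nat.le_floor (hn2 n (by omega))
  have hYle : (Y : ℝ) ≤ κ * Real.log n := by
    rw [hY]
    exact Nat.floor_le (by positivity)
  have hYlt : κ * Real.log n < Y + 1 := by
    rw [hY]
    exact Nat.lt_floor_add_one _
  have hY1r : (1 : ℝ) ≤ Y := by exact_mod_cast (by omega : 1 ≤ Y)
  have hYhalf : κ / 2 * Real.log n ≤ Y := by linarith
  obtain ⟨hY12, hfacts⟩ := hY1 Y (by omega)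
  obtain ⟨Z, hZ⟩ : ∃ Z : ℕ, Z = Y ^ 2 / 200000 := ⟨_, rfl⟩
  obtain ⟨hZ1, hZ200, hZlt, hZexp, E0, r, hE0, hE1, hr, hrE, hV⟩ := hfacts Z hZ
  have hM : Mod ((Nat.lcmUpto Y) ^ 3) Y Z := mod_inst Y Z (by omega) (by omega)
  have hr1 : 1 ≤ r := hr.pos
  obtain ⟨D', u', hD'0, h4, hD'le, hu', T, hT1, hT2⟩ :=
    hcore n ((Nat.lcmUpto Y) ^ 3) Y Z hM hno (by omega) hY12 hZ1 hZ200 E0 hE1 r hr hrE
  have hexp : Real.exp (1349 * Y) ≤ (n : ℝ) ^ t := by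
    rw [Real.rpow_def_of_pos hn0]
    apply Real.exp_le_exp.2
    have h1 : 1349 * (κ * Real.log n) = Real.log n * t := by
      rw [hκ]
      ring
    linarith
  have hD'n : (D' : ℝ) ≤ (n : ℝ) ^ t := by
    refine le_trans ?_ hexp
    have h1 : (D' : ℝ) ≤ ((4 * (Nat.lcmUpto Y) ^ 3 * (10000 * (Z + 1) ^ 5) : ℕ) : ℝ) ^ 71 := by exact_mod_cast hD'le
    have h2 : ((4 * (Nat.lcmUpto Y) ^ 3 * (10000 * (Z + 1) ^ 5) : ℕ) : ℝ) ≤ Real.exp (19 * Y) := by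
      have e1 : ((4 * (Nat.lcmUpto Y) ^ 3 * (10000 * (Z + 1) ^ 5) : ℕ) : ℝ) =
        (((Nat.lcmUpto Y) ^ 3 : ℕ) : ℝ) * (40000 * ((Z : ℝ) + 1) ^ 5) := by push_cast; ring
      rw [e1]
      calc (((Nat.lcmUpto Y) ^ 3 : ℕ) : ℝ) * (40000 * ((Z : ℝ) + 1) ^ 5) ≤ Real.exp (18 * Y) * Real.exp Y := by
            have := lcm_exp Y
            gcongr
        _ = Real.exp (19 * Y) := by rw [← Real.exp_add]; congr 1; ring
    calc (D' : ℝ) ≤ ((4 * (Nat.lcmUpto Y) ^ 3 * (10000 * (Z + 1) ^ 5) : ℕ) : ℝ) ^ 71 := h1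
      _ ≤ (Real.exp (19 * Y)) ^ 71 := by gcongr
      _ = Real.exp (1349 * Y) := by
          rw [← Real.exp_nat_mul]
          congr 1
          push_cast
          ring
  have hVn : ((Y : ℝ) + 1) ^ (30 * r) ≤ (n : ℝ) ^ t := by
    refine hV.trans (le_trans ?_ hexp)
    apply Real.exp_le_exp.2
    linarith
  have hV1 : 1 ≤ ((Y : ℝ) + 1) ^ (30 * r) := one_le_pow₀ (by linarith)
  have hD'1 : (1 : ℝ) ≤ D' := by exact_mod_cast hD'0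
  have hlow := hcl n D' hno hD'0 h4 u' hu'
  have hup : ((repsc n D' u').card : ℝ) * (1 / ((Y : ℝ) + 1) ^ (30 * r)) -
      ((Y : ℝ) + 1) ^ (30 * r) * (C0 * (D' : ℝ) ^ 11 * (n : ℝ) ^ (19 / 20 : ℝ)) ≤ 25 * (T.card : ℝ) := by
    have h1 := V_main3 Y r E0 hY12 hr1 hrE
    have h2 := V_err Y Z r D' ((n : ℝ) ^ (19 / 20 : ℝ)) C0 hC0 (by positivity) hY12 hZ200
    have h3 : ((repsc n D' u').card : ℝ) * (1 / ((Y : ℝ) + 1) ^ (30 * r)) ≤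
        ((repsc n D' u').card : ℝ) * (1 / 2 * Real.exp (-(2 * E0))) := by gcongr
    linarith
  refine ⟨T, hn1 n (by omega) _ _ _ _ (Nat.cast_nonneg _) hV1 hVn hD'1 hD'n hlow hup, ?_⟩
  intro x y z w hxyzw
  obtain ⟨g1, g2⟩ := hT2 x y z w hxyzw
  refine ⟨g1, fun q hq hqN => ?_⟩
  have h1 := g2 q hq hqN
  have h2 : ((Z + 1 : ℕ) : ℝ) ≤ q := by exact_mod_cast h1
  have h3 : (Y : ℝ) ^ 2 < 200000 * ((Z : ℝ) + 1) := by exact_mod_cast hZlt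
  calc (κ / 2) ^ 2 / 200000 * (Real.log n) ^ 2 = (κ / 2 * Real.log n) ^ 2 / 200000 := by ring
    _ ≤ (Y : ℝ) ^ 2 / 200000 := by gcongr
    _ < (Z : ℝ) + 1 := by
        rw [div_lt_iff₀ (by norm_num)]
        linarith
    _ ≤ q := by exact_mod_cast h2

end Pool.Agent.R154.FT
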