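import Pool.Agent.H305R2.MertensM

/-!
# A value of `41 x² + 10 x + 1` without prime factors in a window
-/

set_option autoImplicit false
open Finset Filter Topology

namespace Pool.Agent.R154.FT

theorem log_85 : Real.log (8 / 5) ≤ 48 / 100 := by
  rw [Real.log_le_iff_le_exp (by norm_num)]
  have h1 := Real.quadratic_le_exp_of_nonneg (x := 24 / 100) (by norm_num)
  have h2 : Real.exp (48 / 100) = Real.exp (24 / 100) * Real.exp (24 / 100) := by
    rw [← Real.exp_add]
    norm_num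
  rw [h2]
  nlinarith

theorem window : ∃ Y0 : ℕ, ∀ Y Z : ℕ, Y0 ≤ Y → (Z : ℝ) ≤ (Y : ℝ) ^ (8 / 5 : ℝ) →
    ∑ l ∈ (Ioc Y Z).filter Nat.Prime, (1 : ℝ) / l ≤ 49 / 100 := by
  obtain ⟨M, hM⟩ := Pool.Agent.H305R2.mertens_inv_tendsto
  have h1 := Metric.tendsto_atTop.1 hM (5 / 1000) (by norm_num)
  obtain ⟨N0, hN0⟩ := h1
  refine ⟨max N0 3, fun Y Z hY hZ => ?_⟩
  have hY1 : N0 ≤ Y := le_trans (le_max_left _ _) hY
  have hY3 : 3 ≤ Y := le_trans (le_max_right _ _) hY
  have hY3r : (3 : ℝ) ≤ Y := by exact_mod_cast hY3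
  by_cases hYZ : Y ≤ Z
  · have hZ1 := hN0 Z (hY1.trans hYZ)
    have hY2 := hN0 Y hY1
    rw [Real.dist_eq, abs_lt] at hZ1 hY2
    have hsplit : ∑ l ∈ (Icc 1 Z).filter Nat.Prime, (1 : ℝ) / l =
        ∑ l ∈ (Icc 1 Y).filter Nat.Prime, (1 : ℝ) / l + ∑ l ∈ (Ioc Y Z).filter Nat.Prime, (1 : ℝ) / l := by
      rw [← Finset.sum_union]
      · congr 1
        ext x
        simp only [mem_union, mem_filter, mem_Icc, mem_Ioc]
        constructor
        · rintro ⟨⟨a, b⟩, c⟩
          rcases Nat.lt_or_ge Y x with h | h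
          · exact Or.inr ⟨⟨h, b⟩, c⟩
          · exact Or.inl ⟨⟨a, h⟩, c⟩
        · rintro (⟨⟨a, b⟩, c⟩ | ⟨⟨a, b⟩, c⟩)
          · exact ⟨⟨a, b.trans hYZ⟩, c⟩
          · exact ⟨⟨by omega, b⟩, c⟩
      · rw [Finset.disjoint_left]
        intro x hx hx'
        rw [mem_filter, mem_Icc] at hx
        rw [mem_filter, mem_Ioc] at hx'
        omega
    have hlY : 1 < Real.log Y := by
      rw [Real.lt_log_iff_exp_lt (by linarith)]
      have := Real.exp_one_lt_d9
      linarith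
    have hZr : (Y : ℝ) ≤ Z := by exact_mod_cast hYZ
    have hlZ : Real.log Z ≤ 8 / 5 * Real.log Y := by
      have h2 : Real.log Z ≤ Real.log ((Y : ℝ) ^ (8 / 5 : ℝ)) := Real.log_le_log (by linarith) hZ
      rwa [Real.log_rpow (by linarith)] at h2
    have hlZ0 : 0 < Real.log Z := by
      have := Real.log_le_log (by linarith : (0 : ℝ) < Y) hZr
      linarith
    have h3 : Real.log (Real.log Z) ≤ Real.log (8 / 5) + Real.log (Real.log Y) := by
      rw [← Real.log_mul (by norm_num) (by linarith)]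
      exact Real.log_le_log hlZ0 hlZ
    have h4 := log_85
    linarith
  · rw [Finset.Ioc_eq_empty (by omega), Finset.filter_empty, Finset.sum_empty]
    norm_num

theorem quad_roots (l : ℕ) [Fact l.Prime] (a b : ZMod l) :
    (univ.filter (fun x : ZMod l => a * x ^ 2 + b * x + 1 = 0)).card ≤ 2 := by
  classical
  open Polynomial in
  set p : (ZMod l)[X] := C a * X ^ 2 + C b * X + C 1 with hp
  have hp0 : p ≠ 0 := by
    intro h
    have h1 := congrArg (fun f => Polynomial.coeff f 0) h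
    simp [hp] at h1
  have hdeg : p.natDegree ≤ 2 := by
    rw [hp]
    exact Polynomial.natDegree_quadratic_le
  have hsub : univ.filter (fun x : ZMod l => a * x ^ 2 + b * x + 1 = 0) ⊆ p.roots.toFinset := by
    intro x hx
    rw [mem_filter] at hx
    rw [Multiset.mem_toFinset, Polynomial.mem_roots hp0, Polynomial.IsRoot.def, hp]
    simp only [Polynomial.eval_add, Polynomial.eval_mul, Polynomial.eval_C, Polynomial.eval_pow, Polynomial.eval_X]
    exact hx.2
  calc _ ≤ p.roots.toFinset.card := Finset.card_le_card hsub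
    _ ≤ Multiset.card p.roots := Multiset.toFinset_card_le _
    _ ≤ p.natDegree := Polynomial.card_roots' p
    _ ≤ 2 := hdeg

theorem bad_j (l : ℕ) [Fact l.Prime] (D J : ℕ) :
    ((Icc 1 J).filter (fun j => l ∣ 41 * (D * j) ^ 2 + 10 * (D * j) + 1)).card ≤ 2 * (J / l + 1) := by
  classical
  set S := (Icc 1 J).filter (fun j => l ∣ 41 * (D * j) ^ 2 + 10 * (D * j) + 1) with hS
  set R := univ.filter (fun x : ZMod l => (41 * (D : ZMod l) ^ 2) * x ^ 2 + (10 * (D : ZMod l)) * x + 1 = 0) with hR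
  have hmaps : ∀ j ∈ S, (j : ZMod l) ∈ R := by
    intro j hj
    rw [hS, mem_filter] at hj
    rw [hR, mem_filter]
    refine ⟨mem_univ _, ?_⟩
    have := (ZMod.natCast_eq_zero_iff _ _).2 hj.2
    push_cast at this
    linear_combination this
  have h1 : S.card = ∑ x ∈ R, (S.filter (fun j : ℕ => ((j : ℕ) : ZMod l) = x)).card :=
    Finset.card_eq_sum_card_fiberwise (fun j hj => hmaps j hj)
  rw [h1]
  calc ∑ x ∈ R, (S.filter (fun j : ℕ => ((j : ℕ) : ZMod l) = x)).card ≤ ∑ _x ∈ R, (J / l + 1) := by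
        apply Finset.sum_le_sum
        intro x _
        have h2 : (range (J / l + 1)).card = J / l + 1 := card_range _
        rw [← h2]
        refine Finset.card_le_card_of_injOn (fun j : ℕ => j / l) ?_ ?_
        · intro j hj
          rw [mem_coe, mem_filter, hS, mem_filter, mem_Icc] at hj
          rw [mem_coe, mem_range]
          exact Nat.lt_succ_of_le (Nat.div_le_div_right hj.1.1.2)
        · intro j hj j' hj' he
          rw [mem_coe, mem_filter] at hj hj'
          have h3 : ((j : ℕ) : ZMod l) = ((j' : ℕ) : ZMod l) := hj.2.trans hj'.2.symm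
          rw [ZMod.natCast_eq_natCast_iff'] at h3
          simp only at he
          rw [← Nat.div_add_mod j l, ← Nat.div_add_mod j' l, he, h3]
    _ = R.card * (J / l + 1) := by rw [sum_const, smul_eq_mul]
    _ ≤ 2 * (J / l + 1) := Nat.mul_le_mul_right _ (quad_roots l _ _)

theorem sel : ∃ Y0 : ℕ, ∀ Y Z : ℕ, Y0 ≤ Y → (Z : ℝ) ≤ (Y : ℝ) ^ (8 / 5 : ℝ) → ∀ D : ℕ,
    ∃ j : ℕ, 1 ≤ j ∧ j ≤ 200 * (Z + 1) ∧ ∀ l : ℕ, l.Prime → Y < l → l ≤ Z → ¬ l ∣ 41 * (D * j) ^ 2 + 10 * (D * j) + 1 := by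
  classical
  obtain ⟨Y0, h⟩ := window
  refine ⟨Y0, fun Y Z hY hZ D => ?_⟩
  have h1 := h Y Z hY hZ
  set J := 200 * (Z + 1) with hJ
  set L := (Ioc Y Z).filter Nat.Prime with hL
  by_contra hcon
  push Not at hcon
  have hcov : Icc 1 J ⊆ L.biUnion (fun l => (Icc 1 J).filter (fun j => l ∣ 41 * (D * j) ^ 2 + 10 * (D * j) + 1)) := by
    intro j hj
    rw [mem_Icc] at hj
    obtain ⟨l, hl, hlY, hlZ, hd⟩ := hcon j hj.1 hj.2
    rw [mem_biUnion]
    refine ⟨l, ?_, ?_⟩
    · rw [hL, mem_filter, mem_Ioc]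
      exact ⟨⟨hlY, hlZ⟩, hl⟩
    · rw [mem_filter, mem_Icc]
      exact ⟨hj, hd⟩
  have h2 : J ≤ ∑ l ∈ L, 2 * (J / l + 1) := by
    calc J = (Icc 1 J).card := by rw [Nat.card_Icc]; omega
      _ ≤ _ := (Finset.card_le_card hcov).trans Finset.card_biUnion_le
      _ ≤ _ := by
          apply Finset.sum_le_sum
          intro l hl
          rw [hL, mem_filter] at hl
          have : Fact l.Prime := ⟨hl.2⟩
          exact bad_j l D J
  have h3 : (J : ℝ) ≤ ∑ l ∈ L, (2 * J * (1 / l) + 2 : ℝ) := by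
    calc (J : ℝ) ≤ ((∑ l ∈ L, 2 * (J / l + 1) : ℕ) : ℝ) := by exact_mod_cast h2
      _ = ∑ l ∈ L, (2 * (((J / l : ℕ) : ℝ) + 1)) := by push_cast; rfl
      _ ≤ _ := by
          apply Finset.sum_le_sum
          intro l _
          have h4 : ((J / l : ℕ) : ℝ) ≤ (J : ℝ) / l := Nat.cast_div_le
          have h5 : (J : ℝ) / l = J * (1 / l) := by ring
          rw [h5] at h4
          linarith
  rw [Finset.sum_add_distrib, ← Finset.mul_sum, sum_const, nsmul_eq_mul] at h3
  have h6 : (L.card : ℝ) ≤ Z := by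
    have : L.card ≤ Z := by
      calc L.card ≤ (Ioc Y Z).card := Finset.card_filter_le _ _
        _ = Z - Y := Nat.card_Ioc _ _
        _ ≤ Z := Nat.sub_le _ _
    exact_mod_cast this
  have hJr : (J : ℝ) = 200 * (Z + 1) := by rw [hJ]; push_cast; ring
  have hJ0 : (0 : ℝ) ≤ J := Nat.cast_nonneg _
  have h7 : 2 * (J : ℝ) * ∑ l ∈ L, (1 : ℝ) / l ≤ 2 * J * (49 / 100) := by gcongr
  rw [hJr] at h3 h7
  have hZ0 : (0 : ℝ) ≤ Z := Nat.cast_nonneg _
  linarith

end Pool.Agent.R154.FT
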