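import Pool.Agent.R154.FT.BadP

/-!
# The bad classes of representations modulo a prime `l`
-/

set_option autoImplicit false
open Finset

namespace Pool.Agent.R154.FT
open Pool.Agent.W65.FS Pool.Agent.TH696.FA

/-- the primes of the window -/
def win (Y Z : ℕ) : Finset Nat.Primes := (Finset.Ioc Y Z).subtype Nat.Prime

theorem mem_win (Y Z : ℕ) (l : Nat.Primes) : l ∈ win Y Z ↔ Y < (l : ℕ) ∧ (l : ℕ) ≤ Z := by
  exact (Finset.mem_subtype).trans Finset.mem_Ioc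

/-- the bad classes for one rotation -/
noncomputable def BB1 (n K Z : ℕ) (b0 P Q N P' Q' N' : ℤ) (l : ℕ) [Fact l.Prime] :
    Finset (Fin 4 → ZMod l) := by
  classical
  exact (C4 l n).filter (fun u => ∃ k : Fin 5 × Fin 5, ∃ p ∈ bad K Z b0 l,
    ((rc P Q N k.1 + rs P Q N k.1 : ℤ) : ZMod l) * u 0 + ((rc P Q N k.1 - rs P Q N k.1 : ℤ) : ZMod l) * u 1 =
      ((N ^ 2 : ℤ) : ZMod l) * p.1 ∧
    ((rc P' Q' N' k.2 + rs P' Q' N' k.2 : ℤ) : ZMod l) * u 2 + ((rc P' Q' N' k.2 - rs P' Q' N' k.2 : ℤ) : ZMod l) * u 3 =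
      ((N' ^ 2 : ℤ) : ZMod l) * p.2)

theorem mem_BB1 (n K Z : ℕ) (b0 P Q N P' Q' N' : ℤ) (l : ℕ) [Fact l.Prime] (u : Fin 4 → ZMod l) :
    u ∈ BB1 n K Z b0 P Q N P' Q' N' l ↔ u ∈ C4 l n ∧ ∃ k : Fin 5 × Fin 5, ∃ p ∈ bad K Z b0 l,
    ((rc P Q N k.1 + rs P Q N k.1 : ℤ) : ZMod l) * u 0 + ((rc P Q N k.1 - rs P Q N k.1 : ℤ) : ZMod l) * u 1 =
      ((N ^ 2 : ℤ) : ZMod l) * p.1 ∧
    ((rc P' Q' N' k.2 + rs P' Q' N' k.2 : ℤ) : ZMod l) * u 2 + ((rc P' Q' N' k.2 - rs P' Q' N' k.2 : ℤ) : ZMod l) * u 3 =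
      ((N' ^ 2 : ℤ) : ZMod l) * p.2 := by
  classical
  unfold BB1
  rw [mem_filter]

theorem card_BB1 {K1 Y Z : ℕ} (h : Mod K1 Y Z) (n : ℕ) (b0 P Q N P' Q' N' : ℤ) (hs : P ^ 2 + Q ^ 2 = N ^ 2)
    (hs' : P' ^ 2 + Q' ^ 2 = N' ^ 2) (l : ℕ) [Fact l.Prime] (hlY : Y < l) (hlN : ¬ (l : ℤ) ∣ N)
    (hlN' : ¬ (l : ℤ) ∣ N') : (BB1 n (4 * K1) Z b0 P Q N P' Q' N' l).card ≤ 50 * Z * l := by
  classical
  have hl : l.Prime := Fact.out
  have hN : (N : ZMod l) ≠ 0 := by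
    rw [Ne, ZMod.intCast_zmod_eq_zero_iff_dvd]
    exact hlN
  have hN' : (N' : ZMod l) ≠ 0 := by
    rw [Ne, ZMod.intCast_zmod_eq_zero_iff_dvd]
    exact hlN'
  have h2 : (2 : ZMod l) ≠ 0 := by
    intro h0
    have h3 : ((2 : ℕ) : ZMod l) = 0 := by exact_mod_cast h0
    rw [ZMod.natCast_eq_zero_iff] at h3
    have h4 := Nat.le_of_dvd (by norm_num) h3
    have := h.Y2
    omega
  have hsub : BB1 n (4 * K1) Z b0 P Q N P' Q' N' l ⊆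
      ((univ : Finset (Fin 5 × Fin 5)) ×ˢ bad (4 * K1) Z b0 l).biUnion (fun kp =>
        univ.filter (fun u : Fin 4 → ZMod l => ∑ i, u i ^ 2 = (n : ZMod l) ∧
          ((rc P Q N kp.1.1 + rs P Q N kp.1.1 : ℤ) : ZMod l) * u 0 + ((rc P Q N kp.1.1 - rs P Q N kp.1.1 : ℤ) : ZMod l) * u 1 =
            ((N ^ 2 : ℤ) : ZMod l) * kp.2.1 ∧
          ((rc P' Q' N' kp.1.2 + rs P' Q' N' kp.1.2 : ℤ) : ZMod l) * u 2 + ((rc P' Q' N' kp.1.2 - rs P' Q' N' kp.1.2 : ℤ) : ZMod l) * u 3 =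
            ((N' ^ 2 : ℤ) : ZMod l) * kp.2.2)) := by
    intro u hu
    rw [mem_BB1] at hu
    obtain ⟨hu1, k, p, hp, e1, e2⟩ := hu
    rw [mem_biUnion]
    refine ⟨(k, p), mem_product.2 ⟨mem_univ _, hp⟩, ?_⟩
    rw [mem_filter]
    unfold C4 at hu1
    rw [mem_filter] at hu1
    exact ⟨mem_univ _, hu1.2.1, e1, e2⟩
  refine (card_le_card hsub).trans (card_biUnion_le.trans ?_)
  have hbound : ∀ kp ∈ (univ : Finset (Fin 5 × Fin 5)) ×ˢ bad (4 * K1) Z b0 l,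
      (univ.filter (fun u : Fin 4 → ZMod l => ∑ i, u i ^ 2 = (n : ZMod l) ∧
          ((rc P Q N kp.1.1 + rs P Q N kp.1.1 : ℤ) : ZMod l) * u 0 + ((rc P Q N kp.1.1 - rs P Q N kp.1.1 : ℤ) : ZMod l) * u 1 =
            ((N ^ 2 : ℤ) : ZMod l) * kp.2.1 ∧
          ((rc P' Q' N' kp.1.2 + rs P' Q' N' kp.1.2 : ℤ) : ZMod l) * u 2 + ((rc P' Q' N' kp.1.2 - rs P' Q' N' kp.1.2 : ℤ) : ZMod l) * u 3 =
            ((N' ^ 2 : ℤ) : ZMod l) * kp.2.2)).card ≤ 2 * l := by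
    intro kp _
    apply two_lin l n _ _ _ _ ((N : ZMod l) ^ 4) ((N' : ZMod l) ^ 4) _ _ (pow_ne_zero _ hN) (pow_ne_zero _ hN') h2
    · have h3 := rc_rs P Q N hs kp.1.1
      have h4 : ((rc P Q N kp.1.1 : ℤ) : ZMod l) ^ 2 + ((rs P Q N kp.1.1 : ℤ) : ZMod l) ^ 2 = (N : ZMod l) ^ 4 := by
        have := congrArg (fun z : ℤ => (z : ZMod l)) h3
        push_cast at this
        exact this
      push_cast
      linear_combination 2 * h4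
    · have h3 := rc_rs P' Q' N' hs' kp.1.2
      have h4 : ((rc P' Q' N' kp.1.2 : ℤ) : ZMod l) ^ 2 + ((rs P' Q' N' kp.1.2 : ℤ) : ZMod l) ^ 2 = (N' : ZMod l) ^ 4 := by
        have := congrArg (fun z : ℤ => (z : ZMod l)) h3
        push_cast at this
        exact this
      push_cast
      linear_combination 2 * h4
  refine (sum_le_card_nsmul _ _ _ hbound).trans ?_
  rw [card_product, smul_eq_mul]
  have h5 := bad_card h b0 l hlY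
  have h6 : (univ : Finset (Fin 5 × Fin 5)).card = 25 := by simp
  rw [h6]
  calc 25 * (bad (4 * K1) Z b0 l).card * (2 * l) ≤ 25 * Z * (2 * l) := by gcongr
    _ = 50 * Z * l := by ring

/-- outside the bad classes no rotated vector is bad -/
theorem good_rot {K1 Y Z : ℕ} (h : Mod K1 Y Z) (n v L : ℕ) (hK : K1 = 2 ^ v * L) (hL : Odd L) (b0 : ℤ)
    (hb0 : (2 : ℤ) ^ (v + 2) ∣ b0 - 1) (P Q N P' Q' N' : ℤ) (X : Fin 4 → ℤ) (hX : ∑ i, X i ^ 2 = (n : ℤ))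
    (hd : N ^ 2 ∣ X 0 ∧ N ^ 2 ∣ X 1 ∧ N' ^ 2 ∣ X 2 ∧ N' ^ 2 ∣ X 3) (l : ℕ) [Fact l.Prime] (hlY : Y < l)
    (hlN : ¬ (l : ℤ) ∣ N) (hlN' : ¬ (l : ℤ) ∣ N')
    (hB : (fun i => (X i : ZMod l)) ∉ BB1 n (4 * K1) Z b0 P Q N P' Q' N' l) (k : Fin 5 × Fin 5) :
    ((((rotv P Q N P' Q' N' k X 0 + rotv P Q N P' Q' N' k X 1 : ℤ) : ZMod l),
      ((rotv P Q N P' Q' N' k X 2 + rotv P Q N P' Q' N' k X 3 : ℤ) : ZMod l)) : ZMod l × ZMod l) ∉ bad (4 * K1) Z b0 l := by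
  classical
  have hl : l.Prime := Fact.out
  have hlp : Prime (l : ℤ) := Nat.prime_iff_prime_int.1 hl
  have hN0 : N ≠ 0 := fun h0 => hlN (h0 ▸ dvd_zero _)
  have hN0' : N' ≠ 0 := fun h0 => hlN' (h0 ▸ dvd_zero _)
  have hN2 : N ^ 2 ≠ 0 := pow_ne_zero _ hN0
  have hN2' : N' ^ 2 ≠ 0 := pow_ne_zero _ hN0'
  obtain ⟨⟨w0, hw0⟩, ⟨w1, hw1⟩, ⟨w2, hw2⟩, ⟨w3, hw3⟩⟩ := hd
  have q0 : X 0 / N ^ 2 = w0 := by rw [hw0]; exact Int.mul_ediv_cancel_left _ hN2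
  have q1 : X 1 / N ^ 2 = w1 := by rw [hw1]; exact Int.mul_ediv_cancel_left _ hN2
  have q2 : X 2 / N' ^ 2 = w2 := by rw [hw2]; exact Int.mul_ediv_cancel_left _ hN2'
  have q3 : X 3 / N' ^ 2 = w3 := by rw [hw3]; exact Int.mul_ediv_cancel_left _ hN2'
  have r01 : rotv P Q N P' Q' N' k X 0 + rotv P Q N P' Q' N' k X 1 =
      (rc P Q N k.1 + rs P Q N k.1) * w0 + (rc P Q N k.1 - rs P Q N k.1) * w1 := by
    simp only [rotv, Matrix.cons_val_zero, Matrix.cons_val_one, q0, q1]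
    ring
  have r23 : rotv P Q N P' Q' N' k X 2 + rotv P Q N P' Q' N' k X 3 =
      (rc P' Q' N' k.2 + rs P' Q' N' k.2) * w2 + (rc P' Q' N' k.2 - rs P' Q' N' k.2) * w3 := by
    simp only [rotv, Matrix.cons_val, q2, q3]
    ring
  by_cases hC : (fun i => (X i : ZMod l)) ∈ C4 l n
  · intro hp
    apply hB
    rw [mem_BB1]
    refine ⟨hC, k, _, hp, ?_, ?_⟩
    · simp only
      rw [r01, hw0, hw1]
      push_cast
      ring
    · simp only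
      rw [r23, hw2, hw3]
      push_cast
      ring
  · have hz : (fun i => (X i : ZMod l)) = 0 := by
      by_contra hne
      apply hC
      unfold C4
      rw [mem_filter]
      refine ⟨mem_univ _, ?_, hne⟩
      have := congrArg (fun z : ℤ => (z : ZMod l)) hX
      push_cast at this
      exact this
    have hz' : ∀ i, (l : ℤ) ∣ X i := by
      intro i
      rw [← ZMod.intCast_zmod_eq_zero_iff_dvd]
      exact congrFun hz i
    have aux : ∀ (M w : ℤ), ¬ (l : ℤ) ∣ M → (l : ℤ) ∣ M ^ 2 * w → (w : ZMod l) = 0 := by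
      intro M w hM hd
      rw [ZMod.intCast_zmod_eq_zero_iff_dvd]
      rcases hlp.dvd_or_dvd hd with h1 | h1
      · exact absurd (hlp.dvd_of_dvd_pow h1) hM
      · exact h1
    have z0 := aux N w0 hlN (hw0 ▸ hz' 0)
    have z1 := aux N w1 hlN (hw1 ▸ hz' 1)
    have e0 : ((rotv P Q N P' Q' N' k X 0 + rotv P Q N P' Q' N' k X 1 : ℤ) : ZMod l) = 0 := by
      rw [r01]
      push_cast
      rw [z0, z1]
      ring
    rw [e0]
    exact not_bad_zero h v L hK hL b0 hb0 l hlY _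

end Pool.Agent.R154.FT
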